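import Pool.Agent.H495.Sun.Fer

set_option autoImplicit false
set_option maxRecDepth 100000

/-! Certificates for `k * (k + 1) ^ φ(7588 - k) + 1` with `1 ≤ k < 137`. -/

namespace Pool.Agent.H495.Sun.Z7588

theorem fer_1 : ∀ k ∈ [2, 3, 12, 13, 20, 23, 24, 30, 34, 36, 42, 43, 85, 91, 104, 106, 111, 112, 114, 129, 131], ¬ (num 7588 k).Prime :=
  cons_ok (fk_spec 7588 2 12 (by decide +kernel)) <|
  cons_ok (fk_spec 7588 3 23 (by decide +kernel)) <|
  cons_ok (fk_spec 7588 12 28 (by decide +kernel)) <|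
  cons_ok (fk_spec 7588 13 30 (by decide +kernel)) <|
  cons_ok (fk_spec 7588 20 29 (by decide +kernel)) <|
  cons_ok (fk_spec 7588 23 51 (by decide +kernel)) <|
  cons_ok (fk_spec 7588 24 33 (by decide +kernel)) <|
  cons_ok (fk_spec 7588 30 37 (by decide +kernel)) <|
  cons_ok (fk_spec 7588 34 26 (by decide +kernel)) <|
  cons_ok (fk_spec 7588 36 38 (by decide +kernel)) <|
  cons_ok (fk_spec 7588 42 32 (by decide +kernel)) <|
  cons_ok (fk_spec 7588 43 43 (by decide +kernel)) <|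
  cons_ok (fk_spec 7588 85 61 (by decide +kernel)) <|
  cons_ok (fk_spec 7588 91 52 (by decide +kernel)) <|
  cons_ok (fk_spec 7588 104 50 (by decide +kernel)) <|
  cons_ok (fk_spec 7588 106 31 (by decide +kernel)) <|
  cons_ok (fk_spec 7588 111 100 (by decide +kernel)) <|
  cons_ok (fk_spec 7588 112 29 (by decide +kernel)) <|
  cons_ok (fk_spec 7588 114 49 (by decide +kernel)) <|
  cons_ok (fk_spec 7588 129 103 (by decide +kernel)) <|
  cons_ok (fk_spec 7588 131 103 (by decide +kernel)) <|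
  nil_ok 7588

theorem rng_1 : ∀ k, 1 ≤ k → k < 137 → ¬ (num 7588 k).Prime :=
  range_of 7588 1 137 [193, 0, 0, 109, 23, 29, 1058143, 126713, 23833, 103, 181, 0, 0, 276869, 667519, 7457, 71, 11401889, 11, 0, 42793, 89, 0, 0, 429929, 317, 3769, 11, 509, 0, 19, 283, 19, 0, 29, 0, 317, 1523, 11, 47, 5, 0, 0, 797, 14723, 11, 17, 37, 2137, 11, 11, 61, 19, 101, 17, 2149867, 23, 227, 223, 19, 11, 19289, 214210889, 12790621, 556487, 869265577, 173, 1031, 602887, 1091, 19, 17, 173, 139, 61, 191, 101, 8852057, 269, 7, 5, 239, 6053, 787, 0, 17, 547, 13, 59, 1013, 0, 179, 14767, 139, 257, 553705829, 19, 89611, 1145281, 349, 5, 1109, 647, 0, 11, 0, 57923, 181, 29, 811, 0, 0, 15971, 0, 7, 11, 3449, 1327, 1115923, 17, 1229, 37, 11, 50053, 449, 173, 11, 11, 0, 31, 0, 146849, 181, 23, 31, 1663] _ (by decide +kernel) (by decide +kernel) fer_1 (by decide +kernel)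

end Pool.Agent.H495.Sun.Z7588
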