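import Pool.Agent.H495.Sun.Fer

set_option autoImplicit false
set_option maxRecDepth 100000

/-! Certificates for `k * (k + 1) ^ φ(7588 - k) + 1` with `137 ≤ k < 200`. -/

namespace Pool.Agent.H495.Sun.Z7588

theorem fer_137 : ∀ k ∈ [137, 144, 147, 156, 158, 160, 163, 166, 168, 177, 192, 198, 199], ¬ (num 7588 k).Prime :=
  cons_ok (fk_spec 7588 137 104 (by decide +kernel)) <|
  cons_ok (fk_spec 7588 144 53 (by decide +kernel)) <|
  cons_ok (fk_spec 7588 147 90 (by decide +kernel)) <|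
  cons_ok (fk_spec 7588 156 53 (by decide +kernel)) <|
  cons_ok (fk_spec 7588 158 43 (by decide +kernel)) <|
  cons_ok (fk_spec 7588 160 36 (by decide +kernel)) <|
  cons_ok (fk_spec 7588 163 52 (by decide +kernel)) <|
  cons_ok (fk_spec 7588 166 36 (by decide +kernel)) <|
  cons_ok (fk_spec 7588 168 37 (by decide +kernel)) <|
  cons_ok (fk_spec 7588 177 109 (by decide +kernel)) <|
  cons_ok (fk_spec 7588 192 54 (by decide +kernel)) <|
  cons_ok (fk_spec 7588 198 45 (by decide +kernel)) <|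
  cons_ok (fk_spec 7588 199 74 (by decide +kernel)) <|
  nil_ok 7588

theorem rng_137 : ∀ k, 137 ≤ k → k < 200 → ¬ (num 7588 k).Prime :=
  range_of 7588 137 200 [0, 73, 89, 191, 59, 491, 241, 0, 19, 47, 0, 2111, 839, 29, 11, 5923, 173137, 29, 19, 0, 7, 0, 137, 0, 43, 113, 0, 7, 1117, 0, 2053, 0, 229, 47, 47, 125813, 375059, 424001, 37, 23, 0, 11, 19, 167, 271, 41, 319279, 19, 47, 4238761, 29, 59, 1871, 587, 79, 0, 200349379, 11, 11, 653, 71, 0, 0] _ (by decide +kernel) (by decide +kernel) fer_137 (by decide +kernel)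

end Pool.Agent.H495.Sun.Z7588
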