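import Pool.Agent.H495.Sun.Fer

set_option autoImplicit false
set_option maxRecDepth 100000

/-! Certificates for `k * (k + 1) ^ φ(7588 - k) + 1` with `200 ≤ k < 335`. -/

namespace Pool.Agent.H495.Sun.Z7588

theorem fer_200 : ∀ k ∈ [200, 210, 214, 229, 243, 245, 256, 266, 271, 292, 295, 301, 328, 330, 331, 334], ¬ (num 7588 k).Prime :=
  cons_ok (fk_spec 7588 200 56 (by decide +kernel)) <|
  cons_ok (fk_spec 7588 210 44 (by decide +kernel)) <|
  cons_ok (fk_spec 7588 214 38 (by decide +kernel)) <|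
  cons_ok (fk_spec 7588 229 69 (by decide +kernel)) <|
  cons_ok (fk_spec 7588 243 84 (by decide +kernel)) <|
  cons_ok (fk_spec 7588 245 98 (by decide +kernel)) <|
  cons_ok (fk_spec 7588 256 35 (by decide +kernel)) <|
  cons_ok (fk_spec 7588 266 50 (by decide +kernel)) <|
  cons_ok (fk_spec 7588 271 77 (by decide +kernel)) <|
  cons_ok (fk_spec 7588 292 37 (by decide +kernel)) <|
  cons_ok (fk_spec 7588 295 62 (by decide +kernel)) <|
  cons_ok (fk_spec 7588 301 67 (by decide +kernel)) <|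
  cons_ok (fk_spec 7588 328 29 (by decide +kernel)) <|
  cons_ok (fk_spec 7588 330 56 (by decide +kernel)) <|
  cons_ok (fk_spec 7588 331 76 (by decide +kernel)) <|
  cons_ok (fk_spec 7588 334 36 (by decide +kernel)) <|
  nil_ok 7588

theorem rng_200 : ∀ k, 200 ≤ k → k < 335 → ¬ (num 7588 k).Prime :=
  range_of 7588 200 335 [0, 397, 281, 122209, 13171577, 13, 5, 127, 101, 31, 0, 19, 127, 4609321, 0, 787728527, 11, 911, 383, 189733, 71, 107, 11, 31, 1289, 471206381, 11, 181, 7867309, 0, 151, 251, 1623421703, 239, 337, 61, 193, 103, 107, 17, 107, 604470439, 569, 0, 1931, 0, 5, 67, 11, 105541, 41, 260713, 109, 557, 29, 2591, 0, 29, 1069, 67, 43, 257, 373, 1453, 127, 878090881, 0, 101, 194203, 14537, 11, 0, 139, 1434133, 608339, 2027, 263071, 107, 19, 811, 1129, 5, 38593, 349, 6130429, 379, 2381, 431, 19403, 593, 4663, 19485377, 0, 179, 29, 0, 13, 661, 307, 383, 19, 0, 17581, 29, 6126937, 11, 199, 37, 16097, 38921, 67, 42017, 1553, 4409, 223, 853, 19, 127, 5237, 4903, 383,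 30097, 283, 29, 33258781, 31, 5, 11, 0, 364082003, 0, 0, 41, 1759, 0] _ (by decide +kernel) (by decide +kernel) fer_200 (by decide +kernel)

end Pool.Agent.H495.Sun.Z7588
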