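import Pool.Agent.H495.Sun.Fer

set_option autoImplicit false
set_option maxRecDepth 100000

/-! Certificates for `k * (k + 1) ^ φ(7588 - k) + 1` with `335 ≤ k < 407`. -/

namespace Pool.Agent.H495.Sun.Z7588

theorem fer_335 : ∀ k ∈ [335, 340, 345, 372, 376, 389, 396, 406], ¬ (num 7588 k).Prime :=
  cons_ok (fk_spec 7588 335 119 (by decide +kernel)) <|
  cons_ok (fk_spec 7588 340 40 (by decide +kernel)) <|
  cons_ok (fk_spec 7588 345 120 (by decide +kernel)) <|
  cons_ok (fk_spec 7588 372 54 (by decide +kernel)) <|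
  cons_ok (fk_spec 7588 376 41 (by decide +kernel)) <|
  cons_ok (fk_spec 7588 389 116 (by decide +kernel)) <|
  cons_ok (fk_spec 7588 396 57 (by decide +kernel)) <|
  cons_ok (fk_spec 7588 406 33 (by decide +kernel)) <|
  nil_ok 7588

theorem rng_335 : ∀ k, 335 ≤ k → k < 407 → ¬ (num 7588 k).Prime :=
  range_of 7588 335 407 [0, 1182751279, 3373, 15299, 150893, 0, 5, 23, 11, 19, 0, 7, 26183, 47, 19668833, 129489163, 204887, 228461, 108191, 33013, 359, 31, 293, 53, 77100851, 11, 6737, 23, 1087, 31, 21914801, 97, 7, 593, 11, 47, 269768459, 0, 127, 163, 17, 0, 53, 53, 277, 11, 5, 23, 19, 107, 277, 613, 17, 19, 0, 150869, 37, 251, 11, 107, 253552349, 0, 349, 23557, 104999, 877, 5, 233, 91199, 829, 14733643, 0] _ (by decide +kernel) (by decide +kernel) fer_335 (by decide +kernel)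

end Pool.Agent.H495.Sun.Z7588
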