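import Pool.Agent.H495.Sun.Fer

set_option autoImplicit false
set_option maxRecDepth 100000

/-! Certificates for `k * (k + 1) ^ φ(7588 - k) + 1` with `407 ≤ k < 464`. -/

namespace Pool.Agent.H495.Sun.Z7588

theorem fer_407 : ∀ k ∈ [407, 412, 419, 435, 436, 438, 444, 448, 460], ¬ (num 7588 k).Prime :=
  cons_ok (fk_spec 7588 407 119 (by decide +kernel)) <|
  cons_ok (fk_spec 7588 412 36 (by decide +kernel)) <|
  cons_ok (fk_spec 7588 419 120 (by decide +kernel)) <|
  cons_ok (fk_spec 7588 435 117 (by decide +kernel)) <|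
  cons_ok (fk_spec 7588 436 41 (by decide +kernel)) <|
  cons_ok (fk_spec 7588 438 42 (by decide +kernel)) <|
  cons_ok (fk_spec 7588 444 57 (by decide +kernel)) <|
  cons_ok (fk_spec 7588 448 27 (by decide +kernel)) <|
  cons_ok (fk_spec 7588 460 38 (by decide +kernel)) <|
  nil_ok 7588

theorem rng_407 : ∀ k, 407 ≤ k → k < 464 → ¬ (num 7588 k).Prime :=
  range_of 7588 407 464 [0, 23, 7, 29, 29, 0, 823, 229, 29, 337, 47, 31, 0, 109, 584428531, 760457, 929, 106433, 101, 17, 1553, 6313337, 11719, 7, 59, 2917, 967, 22637, 0, 0, 380269, 0, 9439, 4283, 229, 271, 71, 0, 167, 5, 67, 0, 71, 227, 93553, 43, 2161, 30869, 37, 1109, 967, 127, 2879, 0, 5, 173, 106967039] _ (by decide +kernel) (by decide +kernel) fer_407 (by decide +kernel)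

end Pool.Agent.H495.Sun.Z7588
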