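import Pool.Agent.H495.Sun.Fer

set_option autoImplicit false
set_option maxRecDepth 100000

/-! Certificates for `k * (k + 1) ^ φ(7588 - k) + 1` with `464 ≤ k < 543`. -/

namespace Pool.Agent.H495.Sun.Z7588

theorem fer_464 : ∀ k ∈ [464, 480, 497, 498, 499, 508, 512, 515, 516, 526, 529], ¬ (num 7588 k).Prime :=
  cons_ok (fk_spec 7588 464 57 (by decide +kernel)) <|
  cons_ok (fk_spec 7588 480 62 (by decide +kernel)) <|
  cons_ok (fk_spec 7588 497 107 (by decide +kernel)) <|
  cons_ok (fk_spec 7588 498 50 (by decide +kernel)) <|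
  cons_ok (fk_spec 7588 499 78 (by decide +kernel)) <|
  cons_ok (fk_spec 7588 508 33 (by decide +kernel)) <|
  cons_ok (fk_spec 7588 512 60 (by decide +kernel)) <|
  cons_ok (fk_spec 7588 515 114 (by decide +kernel)) <|
  cons_ok (fk_spec 7588 516 55 (by decide +kernel)) <|
  cons_ok (fk_spec 7588 526 38 (by decide +kernel)) <|
  cons_ok (fk_spec 7588 529 77 (by decide +kernel)) <|
  nil_ok 7588

theorem rng_464 : ∀ k, 464 ≤ k → k < 543 → ¬ (num 7588 k).Prime :=
  range_of 7588 464 543 [0, 103, 66809, 809, 241434811, 33457, 307, 234599, 2218277, 94009, 167, 43, 173, 894779, 2687, 11, 0, 53, 59, 988243, 401, 30497, 97, 24151, 97549, 83, 219931, 3761, 61, 107, 281, 193, 1743802831, 0, 0, 0, 7, 181, 31, 23, 1831, 223, 17, 2203, 0, 19, 13778461, 71, 0, 173, 13499, 0, 0, 13, 109, 11, 683, 84947, 2411, 23, 1063, 10453, 0, 2087, 7, 0, 11, 185131, 6190783, 373, 239, 7, 199, 53, 463, 251, 169859821, 53, 103] _ (by decide +kernel) (by decide +kernel) fer_464 (by decide +kernel)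

end Pool.Agent.H495.Sun.Z7588
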