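import Pool.Agent.H495.Sun.Fer

set_option autoImplicit false
set_option maxRecDepth 100000

/-! Certificates for `k * (k + 1) ^ φ(7588 - k) + 1` with `543 ≤ k < 597`. -/

namespace Pool.Agent.H495.Sun.Z7588

theorem fer_543 : ∀ k ∈ [543, 544, 573, 576, 577, 578, 584, 594], ¬ (num 7588 k).Prime :=
  cons_ok (fk_spec 7588 543 100 (by decide +kernel)) <|
  cons_ok (fk_spec 7588 544 42 (by decide +kernel)) <|
  cons_ok (fk_spec 7588 573 95 (by decide +kernel)) <|
  cons_ok (fk_spec 7588 576 63 (by decide +kernel)) <|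
  cons_ok (fk_spec 7588 577 78 (by decide +kernel)) <|
  cons_ok (fk_spec 7588 578 51 (by decide +kernel)) <|
  cons_ok (fk_spec 7588 584 59 (by decide +kernel)) <|
  cons_ok (fk_spec 7588 594 58 (by decide +kernel)) <|
  nil_ok 7588

theorem rng_543 : ∀ k, 543 ≤ k → k < 597 → ¬ (num 7588 k).Prime :=
  range_of 7588 543 597 [0, 0, 59, 241, 11, 23, 137, 929, 269, 193, 107, 2072129, 29, 7, 103, 11, 1973, 587, 5, 17, 7, 29, 1273919, 5, 11, 1871, 31, 7, 7883, 239, 0, 811, 47, 0, 0, 0, 17, 25799, 607, 37, 27773, 0, 11, 5701, 347, 364993, 29, 129895333, 17, 1231007039, 671609, 0, 179, 11] _ (by decide +kernel) (by decide +kernel) fer_543 (by decide +kernel)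

end Pool.Agent.H495.Sun.Z7588
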