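import Pool.Agent.H495.Sun.Fer

set_option autoImplicit false
set_option maxRecDepth 100000

/-! Certificates for `k * (k + 1) ^ φ(7588 - k) + 1` with `597 ≤ k < 675`. -/

namespace Pool.Agent.H495.Sun.Z7588

theorem fer_597 : ∀ k ∈ [597, 600, 616, 628, 636, 645, 658], ¬ (num 7588 k).Prime :=
  cons_ok (fk_spec 7588 597 126 (by decide +kernel)) <|
  cons_ok (fk_spec 7588 600 63 (by decide +kernel)) <|
  cons_ok (fk_spec 7588 616 36 (by decide +kernel)) <|
  cons_ok (fk_spec 7588 628 33 (by decide +kernel)) <|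
  cons_ok (fk_spec 7588 636 57 (by decide +kernel)) <|
  cons_ok (fk_spec 7588 645 124 (by decide +kernel)) <|
  cons_ok (fk_spec 7588 658 27 (by decide +kernel)) <|
  nil_ok 7588

theorem rng_597 : ∀ k, 597 ≤ k → k < 675 → ¬ (num 7588 k).Prime :=
  range_of 7588 597 675 [0, 7, 101573, 0, 17489, 947, 7417, 31, 3518261, 5, 2789, 67, 597271, 19, 1095047, 11, 49710641, 452671, 97, 0, 3257, 10007, 7, 3229, 5, 11, 233, 2351, 2393, 5, 709, 0, 11, 17, 29, 151, 11, 43, 19, 0, 857, 132258101, 7393, 53, 5, 17, 31, 29, 0, 11, 17, 14731, 1319, 17, 29, 179, 17257, 599, 2063, 18773, 199, 0, 127983133, 29, 7, 89, 48017, 3373, 179, 557, 89, 11, 3623, 251, 1427, 19759, 13, 31] _ (by decide +kernel) (by decide +kernel) fer_597 (by decide +kernel)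

end Pool.Agent.H495.Sun.Z7588
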