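import Pool.Agent.H495.Sun.Fer

set_option autoImplicit false
set_option maxRecDepth 100000

/-! Certificates for `k * (k + 1) ^ φ(7588 - k) + 1` with `675 ≤ k < 717`. -/

namespace Pool.Agent.H495.Sun.Z7588

theorem fer_675 : ∀ k ∈ [675, 676, 679, 683, 702, 706, 707, 708], ¬ (num 7588 k).Prime :=
  cons_ok (fk_spec 7588 675 123 (by decide +kernel)) <|
  cons_ok (fk_spec 7588 676 43 (by decide +kernel)) <|
  cons_ok (fk_spec 7588 679 72 (by decide +kernel)) <|
  cons_ok (fk_spec 7588 683 102 (by decide +kernel)) <|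
  cons_ok (fk_spec 7588 702 58 (by decide +kernel)) <|
  cons_ok (fk_spec 7588 706 40 (by decide +kernel)) <|
  cons_ok (fk_spec 7588 707 109 (by decide +kernel)) <|
  cons_ok (fk_spec 7588 708 50 (by decide +kernel)) <|
  nil_ok 7588

theorem rng_675 : ∀ k, 675 ≤ k → k < 717 → ¬ (num 7588 k).Prime :=
  range_of 7588 675 717 [0, 0, 9467, 23, 0, 89, 5, 7, 0, 11, 70459, 11149, 227, 31, 17, 223, 6799619, 6131, 409, 167, 1181, 19, 140797, 33619, 10597, 300301, 23, 0, 172353593, 1021879, 61, 0, 0, 0, 23, 250204237, 179, 1523, 101879, 37, 751, 337] _ (by decide +kernel) (by decide +kernel) fer_675 (by decide +kernel)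

end Pool.Agent.H495.Sun.Z7588
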