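import Pool.Agent.H495.Sun.Fer

set_option autoImplicit false
set_option maxRecDepth 100000

/-! Certificates for `k * (k + 1) ^ φ(7588 - k) + 1` with `717 ≤ k < 759`. -/

namespace Pool.Agent.H495.Sun.Z7588

theorem fer_717 : ∀ k ∈ [717, 739, 741, 756], ¬ (num 7588 k).Prime :=
  cons_ok (fk_spec 7588 717 128 (by decide +kernel)) <|
  cons_ok (fk_spec 7588 739 85 (by decide +kernel)) <|
  cons_ok (fk_spec 7588 741 124 (by decide +kernel)) <|
  cons_ok (fk_spec 7588 756 54 (by decide +kernel)) <|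
  nil_ok 7588

theorem rng_717 : ∀ k, 717 ≤ k → k < 759 → ¬ (num 7588 k).Prime :=
  range_of 7588 717 759 [0, 1095907, 5189, 389, 11, 1988688131, 119173, 74077, 4276807, 476977, 47, 1783, 13, 6763, 29, 127, 43, 4363, 22013, 151, 263, 7, 0, 242479, 0, 41, 11, 211, 6053, 61, 277, 18553, 2689, 141586279, 229, 7, 1487, 10273, 19, 0, 3511, 29] _ (by decide +kernel) (by decide +kernel) fer_717 (by decide +kernel)

end Pool.Agent.H495.Sun.Z7588
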