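import Pool.Agent.H495.Sun.Fer

set_option autoImplicit false
set_option maxRecDepth 100000

/-! Certificates for `k * (k + 1) ^ φ(7588 - k) + 1` with `759 ≤ k < 795`. -/

namespace Pool.Agent.H495.Sun.Z7588

theorem fer_759 : ∀ k ∈ [759, 770, 773, 785], ¬ (num 7588 k).Prime :=
  cons_ok (fk_spec 7588 759 128 (by decide +kernel)) <|
  cons_ok (fk_spec 7588 770 55 (by decide +kernel)) <|
  cons_ok (fk_spec 7588 773 97 (by decide +kernel)) <|
  cons_ok (fk_spec 7588 785 128 (by decide +kernel)) <|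
  nil_ok 7588

theorem rng_759 : ∀ k, 759 ≤ k → k < 795 → ¬ (num 7588 k).Prime :=
  range_of 7588 759 795 [0, 53233, 5, 10111, 397, 11287, 1487, 17, 29, 2659, 103, 0, 373, 11093, 0, 125709503, 115123, 29, 11, 1987, 1019, 6263, 47, 877, 467, 7681, 0, 739, 7, 2659, 293, 10259, 19, 463, 83, 997] _ (by decide +kernel) (by decide +kernel) fer_759 (by decide +kernel)

end Pool.Agent.H495.Sun.Z7588
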