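import Pool.Agent.H495.Sun.Fer

set_option autoImplicit false
set_option maxRecDepth 100000

/-! Certificates for `k * (k + 1) ^ φ(7588 - k) + 1` with `795 ≤ k < 862`. -/

namespace Pool.Agent.H495.Sun.Z7588

theorem fer_795 : ∀ k ∈ [795, 808, 811, 818, 819, 824, 832, 833], ¬ (num 7588 k).Prime :=
  cons_ok (fk_spec 7588 795 128 (by decide +kernel)) <|
  cons_ok (fk_spec 7588 808 34 (by decide +kernel)) <|
  cons_ok (fk_spec 7588 811 85 (by decide +kernel)) <|
  cons_ok (fk_spec 7588 818 52 (by decide +kernel)) <|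
  cons_ok (fk_spec 7588 819 110 (by decide +kernel)) <|
  cons_ok (fk_spec 7588 824 60 (by decide +kernel)) <|
  cons_ok (fk_spec 7588 832 43 (by decide +kernel)) <|
  cons_ok (fk_spec 7588 833 88 (by decide +kernel)) <|
  nil_ok 7588

theorem rng_795 : ∀ k, 795 ≤ k → k < 862 → ¬ (num 7588 k).Prime :=
  range_of 7588 795 862 [0, 737780489, 31883, 349, 691, 11, 373, 23, 2131, 41, 29, 5, 71, 0, 11, 103, 0, 8104409, 868993, 400583849, 419, 103, 29, 0, 0, 11, 24113, 72089, 379, 0, 19, 107, 443, 353, 17, 243227, 911, 0, 0, 17, 81138961, 2579, 865577, 23, 629857, 389, 101, 2011, 23, 83, 23, 5, 1968899, 19, 19, 68669, 19, 27938149, 157, 131, 11, 43, 47, 19181, 53, 11, 139] _ (by decide +kernel) (by decide +kernel) fer_795 (by decide +kernel)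

end Pool.Agent.H495.Sun.Z7588
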