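import Pool.Agent.H495.Sun.Fer

set_option autoImplicit false
set_option maxRecDepth 100000

/-! Certificates for `k * (k + 1) ^ φ(7588 - k) + 1` with `862 ≤ k < 943`. -/

namespace Pool.Agent.H495.Sun.Z7588

theorem fer_862 : ∀ k ∈ [862, 866, 875, 880, 913, 923, 939, 942], ¬ (num 7588 k).Prime :=
  cons_ok (fk_spec 7588 862 40 (by decide +kernel)) <|
  cons_ok (fk_spec 7588 866 65 (by decide +kernel)) <|
  cons_ok (fk_spec 7588 875 110 (by decide +kernel)) <|
  cons_ok (fk_spec 7588 880 39 (by decide +kernel)) <|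
  cons_ok (fk_spec 7588 913 68 (by decide +kernel)) <|
  cons_ok (fk_spec 7588 923 97 (by decide +kernel)) <|
  cons_ok (fk_spec 7588 939 126 (by decide +kernel)) <|
  cons_ok (fk_spec 7588 942 65 (by decide +kernel)) <|
  nil_ok 7588

theorem rng_862 : ∀ k, 862 ≤ k → k < 943 → ¬ (num 7588 k).Prime :=
  range_of 7588 862 943 [0, 29, 23599, 353, 0, 270679, 47, 2063, 59, 17, 281, 23633, 97, 0, 1913, 11, 421, 29, 0, 2693, 11, 613, 823, 13, 911, 167, 601, 1327, 101, 9133, 43, 2393, 721843, 122939, 83, 83, 11, 79, 2777, 2503, 3672037, 179, 163, 4007, 2521, 13, 53, 1871, 11, 43, 29, 0, 17, 37, 23, 23, 223303, 11, 7, 14033, 21191, 0, 19, 1347877, 5, 59, 83, 101, 11, 1213, 11, 73, 7, 1229, 17, 11, 1055731, 0, 965275321, 7, 0] _ (by decide +kernel) (by decide +kernel) fer_862 (by decide +kernel)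

end Pool.Agent.H495.Sun.Z7588
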