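import Pool.Agent.H495.Sun.Fer

set_option autoImplicit false
set_option maxRecDepth 100000

/-! Certificates for `k * (k + 1) ^ φ(7588 - k) + 1` with `943 ≤ k < 1004`. -/

namespace Pool.Agent.H495.Sun.Z7588

theorem fer_943 : ∀ k ∈ [943, 944, 954, 957, 968, 979, 986, 988, 992, 996, 1002], ¬ (num 7588 k).Prime :=
  cons_ok (fk_spec 7588 943 69 (by decide +kernel)) <|
  cons_ok (fk_spec 7588 944 58 (by decide +kernel)) <|
  cons_ok (fk_spec 7588 954 62 (by decide +kernel)) <|
  cons_ok (fk_spec 7588 957 122 (by decide +kernel)) <|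
  cons_ok (fk_spec 7588 968 52 (by decide +kernel)) <|
  cons_ok (fk_spec 7588 979 86 (by decide +kernel)) <|
  cons_ok (fk_spec 7588 986 65 (by decide +kernel)) <|
  cons_ok (fk_spec 7588 988 32 (by decide +kernel)) <|
  cons_ok (fk_spec 7588 992 60 (by decide +kernel)) <|
  cons_ok (fk_spec 7588 996 64 (by decide +kernel)) <|
  cons_ok (fk_spec 7588 1002 62 (by decide +kernel)) <|
  nil_ok 7588

theorem rng_943 : ∀ k, 943 ≤ k → k < 1004 → ¬ (num 7588 k).Prime :=
  range_of 7588 943 1004 [0, 0, 31, 128903, 41, 7, 1381, 13, 269, 175453, 3599191, 0, 11437, 367, 0, 103, 25609, 10939, 29, 29, 19, 457, 53, 83, 73, 0, 227, 17, 93733537, 181, 5171, 1724399, 71, 317, 137, 47, 0, 2029, 5, 17, 1693, 239, 4861, 0, 59, 0, 41, 2383, 59, 0, 21541921, 101, 21521, 0, 11, 11, 23, 103, 1931, 0, 337] _ (by decide +kernel) (by decide +kernel) fer_943 (by decide +kernel)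

end Pool.Agent.H495.Sun.Z7588
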