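import Pool.Agent.H495.Sun.Fer

set_option autoImplicit false
set_option maxRecDepth 100000

/-! Certificates for `k * (k + 1) ^ φ(7588 - k) + 1` with `1004 ≤ k < 1099`. -/

namespace Pool.Agent.H495.Sun.Z7588

theorem fer_1004 : ∀ k ∈ [1004, 1010, 1014, 1033, 1052, 1077, 1088, 1090, 1095], ¬ (num 7588 k).Prime :=
  cons_ok (fk_spec 7588 1004 65 (by decide +kernel)) <|
  cons_ok (fk_spec 7588 1010 52 (by decide +kernel)) <|
  cons_ok (fk_spec 7588 1014 61 (by decide +kernel)) <|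
  cons_ok (fk_spec 7588 1033 62 (by decide +kernel)) <|
  cons_ok (fk_spec 7588 1052 60 (by decide +kernel)) <|
  cons_ok (fk_spec 7588 1077 121 (by decide +kernel)) <|
  cons_ok (fk_spec 7588 1088 48 (by decide +kernel)) <|
  cons_ok (fk_spec 7588 1090 41 (by decide +kernel)) <|
  cons_ok (fk_spec 7588 1095 125 (by decide +kernel)) <|
  nil_ok 7588

theorem rng_1004 : ∀ k, 1004 ≤ k → k < 1099 → ¬ (num 7588 k).Prime :=
  range_of 7588 1004 1099 [0, 163, 179, 287251, 23, 11, 0, 43, 2017, 113, 0, 226663, 43, 23, 11, 640151, 71, 2749, 103, 1093, 149, 113, 37, 47, 179, 89, 12261521, 292631, 7, 0, 733, 59, 11, 29, 313, 49597, 37, 5, 3137, 1118543093, 1290533, 44465089, 5, 139, 41, 1439, 23, 311, 0, 29, 79, 17, 2069, 2351, 11, 1481, 7, 167, 4827313, 37, 89, 49766413, 223, 881, 23, 457, 73576511, 56827, 167, 11, 11, 443, 83, 0, 1321, 51439, 997, 38651, 41, 997, 229, 331, 5, 73, 0, 61, 0, 251, 47, 1217, 83, 0, 59, 19, 278867] _ (by decide +kernel) (by decide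 +kernel) fer_1004 (by decide +kernel)

end Pool.Agent.H495.Sun.Z7588
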