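import Pool.Agent.H495.Sun.Fer

set_option autoImplicit false
set_option maxRecDepth 100000

/-! Certificates for `k * (k + 1) ^ φ(7588 - k) + 1` with `1099 ≤ k < 1142`. -/

namespace Pool.Agent.H495.Sun.Z7588

theorem fer_1099 : ∀ k ∈ [1099, 1100, 1104, 1108, 1113, 1125, 1129, 1135], ¬ (num 7588 k).Prime :=
  cons_ok (fk_spec 7588 1099 73 (by decide +kernel)) <|
  cons_ok (fk_spec 7588 1100 64 (by decide +kernel)) <|
  cons_ok (fk_spec 7588 1104 64 (by decide +kernel)) <|
  cons_ok (fk_spec 7588 1108 35 (by decide +kernel)) <|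
  cons_ok (fk_spec 7588 1113 86 (by decide +kernel)) <|
  cons_ok (fk_spec 7588 1125 122 (by decide +kernel)) <|
  cons_ok (fk_spec 7588 1129 86 (by decide +kernel)) <|
  cons_ok (fk_spec 7588 1135 85 (by decide +kernel)) <|
  nil_ok 7588

theorem rng_1099 : ∀ k, 1099 ≤ k → k < 1142 → ¬ (num 7588 k).Prime :=
  range_of 7588 1099 1142 [0, 0, 23, 7, 12799, 0, 3797, 17, 22266331, 0, 3011627, 103, 23, 293, 0, 19, 29, 19, 11, 2333, 4787, 10133, 37, 569, 7, 29234741, 0, 521, 2539, 173, 0, 151, 311, 151, 109, 293, 0, 9319, 29, 53, 11, 43, 11] _ (by decide +kernel) (by decide +kernel) fer_1099 (by decide +kernel)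

end Pool.Agent.H495.Sun.Z7588
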