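import Pool.Agent.H495.Sun.Fer

set_option autoImplicit false
set_option maxRecDepth 100000

/-! Certificates for `k * (k + 1) ^ φ(7588 - k) + 1` with `1142 ≤ k < 1193`. -/

namespace Pool.Agent.H495.Sun.Z7588

theorem fer_1142 : ∀ k ∈ [1142, 1143, 1144, 1145, 1154, 1178, 1179], ¬ (num 7588 k).Prime :=
  cons_ok (fk_spec 7588 1142 58 (by decide +kernel)) <|
  cons_ok (fk_spec 7588 1143 103 (by decide +kernel)) <|
  cons_ok (fk_spec 7588 1144 43 (by decide +kernel)) <|
  cons_ok (fk_spec 7588 1145 121 (by decide +kernel)) <|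
  cons_ok (fk_spec 7588 1154 64 (by decide +kernel)) <|
  cons_ok (fk_spec 7588 1178 52 (by decide +kernel)) <|
  cons_ok (fk_spec 7588 1179 108 (by decide +kernel)) <|
  nil_ok 7588

theorem rng_1142 : ∀ k, 1142 ≤ k → k < 1193 → ¬ (num 7588 k).Prime :=
  range_of 7588 1142 1193 [0, 0, 0, 0, 23, 66413, 773, 400523, 61, 90259913, 331, 149, 0, 11256451, 229, 103, 1579, 727, 17, 5, 298213, 347, 173, 7, 359, 19, 269, 17, 1249, 229, 7, 29, 37, 487, 5233, 3533, 0, 0, 4454687, 157, 17, 43, 23, 2473, 19, 921841, 1867, 81463, 59387, 17, 191449] _ (by decide +kernel) (by decide +kernel) fer_1142 (by decide +kernel)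

end Pool.Agent.H495.Sun.Z7588
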