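import Pool.Agent.H495.Sun.Fer

set_option autoImplicit false
set_option maxRecDepth 100000

/-! Certificates for `k * (k + 1) ^ φ(7588 - k) + 1` with `1193 ≤ k < 1252`. -/

namespace Pool.Agent.H495.Sun.Z7588

theorem fer_1193 : ∀ k ∈ [1193, 1195, 1198, 1200, 1202, 1203, 1207, 1233], ¬ (num 7588 k).Prime :=
  cons_ok (fk_spec 7588 1193 103 (by decide +kernel)) <|
  cons_ok (fk_spec 7588 1195 86 (by decide +kernel)) <|
  cons_ok (fk_spec 7588 1198 34 (by decide +kernel)) <|
  cons_ok (fk_spec 7588 1200 64 (by decide +kernel)) <|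
  cons_ok (fk_spec 7588 1202 62 (by decide +kernel)) <|
  cons_ok (fk_spec 7588 1203 103 (by decide +kernel)) <|
  cons_ok (fk_spec 7588 1207 85 (by decide +kernel)) <|
  cons_ok (fk_spec 7588 1233 97 (by decide +kernel)) <|
  nil_ok 7588

theorem rng_1193 : ∀ k, 1193 ≤ k → k < 1252 → ¬ (num 7588 k).Prime :=
  range_of 7588 1193 1252 [0, 17, 0, 3634219, 457, 0, 191, 0, 89, 0, 0, 167, 19, 5, 0, 388187, 17, 4672597, 2753, 389, 2297, 29, 563, 11, 6761, 461, 59, 62543659, 5, 88667, 61, 31, 1289, 101, 86243, 7, 21617, 937, 13448297, 59, 0, 111439, 127, 43, 107, 5877211, 11, 1579, 661, 17, 79, 505711, 241, 593, 61, 863, 177907, 11329, 2351] _ (by decide +kernel) (by decide +kernel) fer_1193 (by decide +kernel)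

end Pool.Agent.H495.Sun.Z7588
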