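import Pool.Agent.H495.Sun.Fer

set_option autoImplicit false
set_option maxRecDepth 100000

/-! Certificates for `k * (k + 1) ^ φ(7588 - k) + 1` with `1252 ≤ k < 1299`. -/

namespace Pool.Agent.H495.Sun.Z7588

theorem fer_1252 : ∀ k ∈ [1252, 1255, 1265, 1270, 1273, 1279, 1284, 1295], ¬ (num 7588 k).Prime :=
  cons_ok (fk_spec 7588 1252 39 (by decide +kernel)) <|
  cons_ok (fk_spec 7588 1255 85 (by decide +kernel)) <|
  cons_ok (fk_spec 7588 1265 128 (by decide +kernel)) <|
  cons_ok (fk_spec 7588 1270 40 (by decide +kernel)) <|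
  cons_ok (fk_spec 7588 1273 68 (by decide +kernel)) <|
  cons_ok (fk_spec 7588 1279 85 (by decide +kernel)) <|
  cons_ok (fk_spec 7588 1284 64 (by decide +kernel)) <|
  cons_ok (fk_spec 7588 1295 102 (by decide +kernel)) <|
  nil_ok 7588

theorem rng_1252 : ∀ k, 1252 ≤ k → k < 1299 → ¬ (num 7588 k).Prime :=
  range_of 7588 1252 1299 [0, 229, 89, 0, 7, 23, 941, 1009, 11, 263, 11, 7, 4051, 0, 251, 11, 271, 19, 0, 12924449, 11, 0, 167, 113, 53, 96093677, 67, 0, 29, 29, 801469, 14278247, 0, 503, 241, 8893, 4339, 11, 6236299, 7, 43, 79, 11, 0, 953, 53, 167441] _ (by decide +kernel) (by decide +kernel) fer_1252 (by decide +kernel)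

end Pool.Agent.H495.Sun.Z7588
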