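import Pool.Agent.H495.Sun.Fer

set_option autoImplicit false
set_option maxRecDepth 100000

/-! Certificates for `k * (k + 1) ^ φ(7588 - k) + 1` with `1299 ≤ k < 1367`. -/

namespace Pool.Agent.H495.Sun.Z7588

theorem fer_1299 : ∀ k ∈ [1299, 1300, 1303, 1308, 1309, 1330, 1340, 1346, 1353, 1356, 1360, 1366], ¬ (num 7588 k).Prime :=
  cons_ok (fk_spec 7588 1299 121 (by decide +kernel)) <|
  cons_ok (fk_spec 7588 1300 43 (by decide +kernel)) <|
  cons_ok (fk_spec 7588 1303 68 (by decide +kernel)) <|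
  cons_ok (fk_spec 7588 1308 51 (by decide +kernel)) <|
  cons_ok (fk_spec 7588 1309 65 (by decide +kernel)) <|
  cons_ok (fk_spec 7588 1330 37 (by decide +kernel)) <|
  cons_ok (fk_spec 7588 1340 57 (by decide +kernel)) <|
  cons_ok (fk_spec 7588 1346 64 (by decide +kernel)) <|
  cons_ok (fk_spec 7588 1353 96 (by decide +kernel)) <|
  cons_ok (fk_spec 7588 1356 59 (by decide +kernel)) <|
  cons_ok (fk_spec 7588 1360 42 (by decide +kernel)) <|
  cons_ok (fk_spec 7588 1366 40 (by decide +kernel)) <|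
  nil_ok 7588

theorem rng_1299 : ∀ k, 1299 ≤ k → k < 1367 → ¬ (num 7588 k).Prime :=
  range_of 7588 1299 1367 [0, 0, 5, 239, 0, 71, 23, 107, 137, 0, 0, 3229, 50363, 6535457, 1249, 31, 1361, 67, 43, 1777, 31, 157, 23, 4909, 19, 71, 79, 67, 17, 128833, 59, 0, 229, 73291, 11939, 283, 121181, 1223, 11, 206783, 17, 0, 5, 19, 37, 367, 59, 0, 443, 5981, 11, 31, 547, 43, 0, 7547, 28393, 0, 14969, 3329, 11, 0, 383, 14939, 43, 30415631, 191, 0] _ (by decide +kernel) (by decide +kernel) fer_1299 (by decide +kernel)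

end Pool.Agent.H495.Sun.Z7588
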