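import Pool.Agent.H495.Sun.Fer

set_option autoImplicit false
set_option maxRecDepth 100000

/-! Certificates for `k * (k + 1) ^ φ(7588 - k) + 1` with `1367 ≤ k < 1422`. -/

namespace Pool.Agent.H495.Sun.Z7588

theorem fer_1367 : ∀ k ∈ [1367, 1372, 1381, 1387, 1396, 1403, 1408, 1411, 1418], ¬ (num 7588 k).Prime :=
  cons_ok (fk_spec 7588 1367 127 (by decide +kernel)) <|
  cons_ok (fk_spec 7588 1372 36 (by decide +kernel)) <|
  cons_ok (fk_spec 7588 1381 85 (by decide +kernel)) <|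
  cons_ok (fk_spec 7588 1387 77 (by decide +kernel)) <|
  cons_ok (fk_spec 7588 1396 42 (by decide +kernel)) <|
  cons_ok (fk_spec 7588 1403 101 (by decide +kernel)) <|
  cons_ok (fk_spec 7588 1408 34 (by decide +kernel)) <|
  cons_ok (fk_spec 7588 1411 81 (by decide +kernel)) <|
  cons_ok (fk_spec 7588 1418 51 (by decide +kernel)) <|
  nil_ok 7588

theorem rng_1367 : ∀ k, 1367 ≤ k → k < 1422 → ¬ (num 7588 k).Prime :=
  range_of 7588 1367 1422 [0, 7, 29, 11, 11, 0, 2311747, 191, 272981, 157, 7057, 103, 107, 593, 0, 13187, 2027, 1123, 457, 7669, 0, 2153, 131, 23, 1033, 15101, 107, 61, 17, 0, 29, 101, 11161, 79, 19, 38371, 0, 34425907, 1020167677, 1877, 787, 0, 269, 11, 0, 1061, 4229, 163, 17, 523, 61, 0, 6197, 379334273, 307] _ (by decide +kernel) (by decide +kernel) fer_1367 (by decide +kernel)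

end Pool.Agent.H495.Sun.Z7588
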