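import Pool.Agent.H495.Sun.Fer

set_option autoImplicit false
set_option maxRecDepth 100000

/-! Certificates for `k * (k + 1) ^ φ(7588 - k) + 1` with `1422 ≤ k < 1451`. -/

namespace Pool.Agent.H495.Sun.Z7588

theorem fer_1422 : ∀ k ∈ [1422, 1424, 1427, 1435, 1441, 1444, 1447], ¬ (num 7588 k).Prime :=
  cons_ok (fk_spec 7588 1422 64 (by decide +kernel)) <|
  cons_ok (fk_spec 7588 1424 60 (by decide +kernel)) <|
  cons_ok (fk_spec 7588 1427 123 (by decide +kernel)) <|
  cons_ok (fk_spec 7588 1435 72 (by decide +kernel)) <|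
  cons_ok (fk_spec 7588 1441 84 (by decide +kernel)) <|
  cons_ok (fk_spec 7588 1444 43 (by decide +kernel)) <|
  cons_ok (fk_spec 7588 1447 80 (by decide +kernel)) <|
  nil_ok 7588

theorem rng_1422 : ∀ k, 1422 ≤ k → k < 1451 → ¬ (num 7588 k).Prime :=
  range_of 7588 1422 1451 [0, 1890641, 0, 50021, 4967, 0, 353, 2063, 22817, 43, 2946259, 11777, 79, 0, 1039, 31151, 19, 26015881, 13, 0, 251, 29, 0, 601, 43, 0, 281, 31, 826883] _ (by decide +kernel) (by decide +kernel) fer_1422 (by decide +kernel)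

end Pool.Agent.H495.Sun.Z7588
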