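import Pool.Agent.H495.Sun.Fer

set_option autoImplicit false
set_option maxRecDepth 100000

/-! Certificates for `k * (k + 1) ^ φ(7588 - k) + 1` with `1451 ≤ k < 1469`. -/

namespace Pool.Agent.H495.Sun.Z7588

theorem fer_1451 : ∀ k ∈ [1451, 1455, 1457], ¬ (num 7588 k).Prime :=
  cons_ok (fk_spec 7588 1451 113 (by decide +kernel)) <|
  cons_ok (fk_spec 7588 1455 126 (by decide +kernel)) <|
  cons_ok (fk_spec 7588 1457 126 (by decide +kernel)) <|
  nil_ok 7588

theorem rng_1451 : ∀ k, 1451 ≤ k → k < 1469 → ¬ (num 7588 k).Prime :=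
  range_of 7588 1451 1469 [0, 19, 149, 37, 0, 12829, 0, 11, 9781, 617, 71, 197, 3557, 23, 1487, 59, 4967, 239779] _ (by decide +kernel) (by decide +kernel) fer_1451 (by decide +kernel)

end Pool.Agent.H495.Sun.Z7588
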