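import Pool.Agent.H495.Sun.Fer

set_option autoImplicit false
set_option maxRecDepth 100000

/-! Certificates for `k * (k + 1) ^ φ(7588 - k) + 1` with `1469 ≤ k < 1497`. -/

namespace Pool.Agent.H495.Sun.Z7588

theorem fer_1469 : ∀ k ∈ [1469, 1474, 1483, 1487], ¬ (num 7588 k).Prime :=
  cons_ok (fk_spec 7588 1469 121 (by decide +kernel)) <|
  cons_ok (fk_spec 7588 1474 42 (by decide +kernel)) <|
  cons_ok (fk_spec 7588 1483 60 (by decide +kernel)) <|
  cons_ok (fk_spec 7588 1487 126 (by decide +kernel)) <|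
  nil_ok 7588

theorem rng_1469 : ∀ k, 1469 ≤ k → k < 1497 → ¬ (num 7588 k).Prime :=
  range_of 7588 1469 1497 [0, 11, 113, 311, 6163, 0, 79, 19, 3989, 221140489, 101, 33581, 481448221, 349, 0, 31, 1900981, 71, 0, 140766323, 12671, 403871723, 61, 11, 277, 19, 4390279, 79] _ (by decide +kernel) (by decide +kernel) fer_1469 (by decide +kernel)

end Pool.Agent.H495.Sun.Z7588
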