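import Pool.Agent.H495.Sun.Fer

set_option autoImplicit false
set_option maxRecDepth 100000

/-! Certificates for `k * (k + 1) ^ φ(7588 - k) + 1` with `1497 ≤ k < 1529`. -/

namespace Pool.Agent.H495.Sun.Z7588

theorem fer_1497 : ∀ k ∈ [1497, 1501, 1508, 1516, 1518, 1519, 1525], ¬ (num 7588 k).Prime :=
  cons_ok (fk_spec 7588 1497 126 (by decide +kernel)) <|
  cons_ok (fk_spec 7588 1501 84 (by decide +kernel)) <|
  cons_ok (fk_spec 7588 1508 48 (by decide +kernel)) <|
  cons_ok (fk_spec 7588 1516 37 (by decide +kernel)) <|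
  cons_ok (fk_spec 7588 1518 51 (by decide +kernel)) <|
  cons_ok (fk_spec 7588 1519 68 (by decide +kernel)) <|
  cons_ok (fk_spec 7588 1525 80 (by decide +kernel)) <|
  nil_ok 7588

theorem rng_1497 : ∀ k, 1497 ≤ k → k < 1529 → ¬ (num 7588 k).Prime :=
  range_of 7588 1497 1529 [0, 1044569, 31, 170777, 0, 11, 31, 11, 281, 2861, 2662159, 0, 11, 439, 31, 10667, 18982979, 11, 11, 0, 47, 0, 0, 127, 5, 137, 19973, 358733, 0, 11, 1213, 229] _ (by decide +kernel) (by decide +kernel) fer_1497 (by decide +kernel)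

end Pool.Agent.H495.Sun.Z7588
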