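import Pool.Agent.H495.Sun.Fer

set_option autoImplicit false
set_option maxRecDepth 100000

/-! Certificates for `k * (k + 1) ^ φ(7588 - k) + 1` with `1529 ≤ k < 1577`. -/

namespace Pool.Agent.H495.Sun.Z7588

theorem fer_1529 : ∀ k ∈ [1529, 1532, 1552, 1553, 1558, 1565], ¬ (num 7588 k).Prime :=
  cons_ok (fk_spec 7588 1529 123 (by decide +kernel)) <|
  cons_ok (fk_spec 7588 1532 63 (by decide +kernel)) <|
  cons_ok (fk_spec 7588 1552 42 (by decide +kernel)) <|
  cons_ok (fk_spec 7588 1553 93 (by decide +kernel)) <|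
  cons_ok (fk_spec 7588 1558 33 (by decide +kernel)) <|
  cons_ok (fk_spec 7588 1565 118 (by decide +kernel)) <|
  nil_ok 7588

theorem rng_1529 : ∀ k, 1529 ≤ k → k < 1577 → ¬ (num 7588 k).Prime :=
  range_of 7588 1529 1577 [0, 29, 1979, 0, 467, 151, 19, 7, 11, 43, 22800139, 41, 5, 19, 29, 13, 137, 31, 173, 907, 49068703, 43, 19, 0, 0, 69239, 433, 373, 59, 0, 709, 19, 1887359681, 47591, 823, 7, 0, 5, 293, 2161, 20479, 13, 7645853, 19, 413969417, 83, 11, 389] _ (by decide +kernel) (by decide +kernel) fer_1529 (by decide +kernel)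

end Pool.Agent.H495.Sun.Z7588
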