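import Pool.Agent.H495.Sun.Fer

set_option autoImplicit false
set_option maxRecDepth 100000

/-! Certificates for `k * (k + 1) ^ φ(7588 - k) + 1` with `1577 ≤ k < 1620`. -/

namespace Pool.Agent.H495.Sun.Z7588

theorem fer_1577 : ∀ k ∈ [1577, 1598, 1599, 1604, 1619], ¬ (num 7588 k).Prime :=
  cons_ok (fk_spec 7588 1577 125 (by decide +kernel)) <|
  cons_ok (fk_spec 7588 1598 50 (by decide +kernel)) <|
  cons_ok (fk_spec 7588 1599 122 (by decide +kernel)) <|
  cons_ok (fk_spec 7588 1604 54 (by decide +kernel)) <|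
  cons_ok (fk_spec 7588 1619 121 (by decide +kernel)) <|
  nil_ok 7588

theorem rng_1577 : ∀ k, 1577 ≤ k → k < 1620 → ¬ (num 7588 k).Prime :=
  range_of 7588 1577 1620 [0, 23, 227, 43, 5, 103, 67, 23, 15329, 463, 1319023, 71, 19, 11, 11, 7, 43, 47, 769, 31, 6257, 0, 0, 149, 5, 151, 11, 0, 3671, 409, 821, 19, 6719, 4933, 17, 11, 7, 16002331, 23, 20726539, 162119567, 5711, 0] _ (by decide +kernel) (by decide +kernel) fer_1577 (by decide +kernel)

end Pool.Agent.H495.Sun.Z7588
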