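import Pool.Agent.H495.Sun.Fer

set_option autoImplicit false
set_option maxRecDepth 100000

/-! Certificates for `k * (k + 1) ^ φ(7588 - k) + 1` with `1620 ≤ k < 1681`. -/

namespace Pool.Agent.H495.Sun.Z7588

theorem fer_1620 : ∀ k ∈ [1620, 1626, 1631, 1633, 1638, 1645, 1648, 1658, 1663, 1671], ¬ (num 7588 k).Prime :=
  cons_ok (fk_spec 7588 1620 62 (by decide +kernel)) <|
  cons_ok (fk_spec 7588 1626 57 (by decide +kernel)) <|
  cons_ok (fk_spec 7588 1631 100 (by decide +kernel)) <|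
  cons_ok (fk_spec 7588 1633 67 (by decide +kernel)) <|
  cons_ok (fk_spec 7588 1638 41 (by decide +kernel)) <|
  cons_ok (fk_spec 7588 1645 71 (by decide +kernel)) <|
  cons_ok (fk_spec 7588 1648 31 (by decide +kernel)) <|
  cons_ok (fk_spec 7588 1658 50 (by decide +kernel)) <|
  cons_ok (fk_spec 7588 1663 66 (by decide +kernel)) <|
  cons_ok (fk_spec 7588 1671 121 (by decide +kernel)) <|
  nil_ok 7588

theorem rng_1620 : ∀ k, 1620 ≤ k → k < 1681 → ¬ (num 7588 k).Prime :=
  range_of 7588 1620 1681 [0, 461, 41, 11, 11789, 239, 0, 12899, 2347, 151, 101, 0, 246431239, 0, 76771, 3691, 980550859, 2109147737, 0, 1811, 137, 8839, 151, 130657, 1528127, 0, 5, 11, 0, 811, 53, 1443961333, 3389, 23, 1749119, 1259, 43, 359, 0, 1777, 3701, 5, 37, 0, 51719, 13, 29, 17, 53, 7, 757, 0, 5237, 23, 191, 277, 261159803, 337, 11, 43, 67] _ (by decide +kernel) (by decide +kernel) fer_1620 (by decide +kernel)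

end Pool.Agent.H495.Sun.Z7588
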