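import Pool.Agent.H495.Sun.Fer

set_option autoImplicit false
set_option maxRecDepth 100000

/-! Certificates for `k * (k + 1) ^ φ(7588 - k) + 1` with `1681 ≤ k < 1807`. -/

namespace Pool.Agent.H495.Sun.Z7588

theorem fer_1681 : ∀ k ∈ [1681, 1684, 1697, 1698, 1710, 1714, 1724, 1730, 1770, 1777, 1789], ¬ (num 7588 k).Prime :=
  cons_ok (fk_spec 7588 1681 75 (by decide +kernel)) <|
  cons_ok (fk_spec 7588 1684 41 (by decide +kernel)) <|
  cons_ok (fk_spec 7588 1697 120 (by decide +kernel)) <|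
  cons_ok (fk_spec 7588 1698 46 (by decide +kernel)) <|
  cons_ok (fk_spec 7588 1710 62 (by decide +kernel)) <|
  cons_ok (fk_spec 7588 1714 37 (by decide +kernel)) <|
  cons_ok (fk_spec 7588 1724 62 (by decide +kernel)) <|
  cons_ok (fk_spec 7588 1730 59 (by decide +kernel)) <|
  cons_ok (fk_spec 7588 1770 62 (by decide +kernel)) <|
  cons_ok (fk_spec 7588 1777 75 (by decide +kernel)) <|
  cons_ok (fk_spec 7588 1789 82 (by decide +kernel)) <|
  nil_ok 7588

theorem rng_1681 : ∀ k, 1681 ≤ k → k < 1807 → ¬ (num 7588 k).Prime :=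
  range_of 7588 1681 1807 [0, 281, 1685773, 0, 19, 23, 383, 29, 2711287, 7, 29, 37, 389, 463, 61, 167, 0, 0, 23, 13, 31, 107, 283, 17, 1839063703, 59, 59, 3343, 823, 0, 61, 101, 623933, 0, 1487, 23, 5711, 4871, 1439, 31, 5, 11, 11, 0, 1276889, 13, 307, 749209, 59, 0, 1285408031, 23, 1783, 11, 17, 2160349, 1811, 659, 1327, 11, 18217, 821, 227, 23, 137, 11, 97, 7817, 137, 524971, 421, 17, 7, 131, 11, 191, 131, 269, 31, 19, 5, 17483, 1019, 101, 23, 175309, 733, 4593703, 17, 0, 230152133, 367, 11, 457, 43, 191, 0, 9949, 47, 37, 5, 19, 66037, 73, 401949491, 17, 353, 7, 0, 10007, 29, 1303, 44617, 1669, 7, 29153, 953, 19, 5701, 879539, 11, 691, 37, 151, 643, 283] _ (by decide +kernel) (by decide +kernel) fer_1681 (by decide +kernel)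

end Pool.Agent.H495.Sun.Z7588
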