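import Pool.Agent.H495.Sun.Fer

set_option autoImplicit false
set_option maxRecDepth 100000

/-! Certificates for `k * (k + 1) ^ φ(7588 - k) + 1` with `1807 ≤ k < 1895`. -/

namespace Pool.Agent.H495.Sun.Z7588

theorem fer_1807 : ∀ k ∈ [1807, 1816, 1817, 1819, 1827, 1876, 1881], ¬ (num 7588 k).Prime :=
  cons_ok (fk_spec 7588 1807 78 (by decide +kernel)) <|
  cons_ok (fk_spec 7588 1816 37 (by decide +kernel)) <|
  cons_ok (fk_spec 7588 1817 118 (by decide +kernel)) <|
  cons_ok (fk_spec 7588 1819 82 (by decide +kernel)) <|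
  cons_ok (fk_spec 7588 1827 105 (by decide +kernel)) <|
  cons_ok (fk_spec 7588 1876 33 (by decide +kernel)) <|
  cons_ok (fk_spec 7588 1881 112 (by decide +kernel)) <|
  nil_ok 7588

theorem rng_1807 : ∀ k, 1807 ≤ k → k < 1895 → ¬ (num 7588 k).Prime :=
  range_of 7588 1807 1895 [0, 19, 743, 11, 11, 67, 65239, 331, 499, 0, 0, 1055939, 0, 29, 31, 269, 3821, 113, 293, 23627, 0, 43, 503, 137, 147293, 241, 1229, 11, 792307, 29, 17, 769, 11, 83, 127, 2143, 13, 7, 11, 2521, 97, 599308711, 41, 167, 19, 383, 2749, 3607, 1039, 13, 107, 7, 23, 103, 11, 53, 48017, 48761, 11, 47, 11, 911129, 307, 797, 17, 53, 12097, 131, 19, 0, 19, 29, 7, 9349, 0, 61, 11, 137, 131, 5, 71, 2063, 19, 463, 442940249, 431, 761, 11] _ (by decide +kernel) (by decide +kernel) fer_1807 (by decide +kernel)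

end Pool.Agent.H495.Sun.Z7588
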