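import Pool.Agent.H495.Sun.Fer

set_option autoImplicit false
set_option maxRecDepth 100000

/-! Certificates for `k * (k + 1) ^ φ(7588 - k) + 1` with `1895 ≤ k < 1923`. -/

namespace Pool.Agent.H495.Sun.Z7588

theorem fer_1895 : ∀ k ∈ [1895, 1909, 1917, 1919], ¬ (num 7588 k).Prime :=
  cons_ok (fk_spec 7588 1895 122 (by decide +kernel)) <|
  cons_ok (fk_spec 7588 1909 81 (by decide +kernel)) <|
  cons_ok (fk_spec 7588 1917 118 (by decide +kernel)) <|
  cons_ok (fk_spec 7588 1919 121 (by decide +kernel)) <|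
  nil_ok 7588

theorem rng_1895 : ∀ k, 1895 ≤ k → k < 1923 → ¬ (num 7588 k).Prime :=
  range_of 7588 1895 1923 [0, 41, 1193, 29, 19045307, 11, 2423, 149, 1554073, 199819, 281, 809, 173, 13, 0, 11, 433, 19, 89, 19, 389, 8747, 0, 149, 0, 2239, 7, 11] _ (by decide +kernel) (by decide +kernel) fer_1895 (by decide +kernel)

end Pool.Agent.H495.Sun.Z7588
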