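import Pool.Agent.H495.Sun.Fer

set_option autoImplicit false
set_option maxRecDepth 100000

/-! Certificates for `k * (k + 1) ^ φ(7588 - k) + 1` with `1923 ≤ k < 1971`. -/

namespace Pool.Agent.H495.Sun.Z7588

theorem fer_1923 : ∀ k ∈ [1923, 1936, 1943, 1959, 1960, 1961], ¬ (num 7588 k).Prime :=
  cons_ok (fk_spec 7588 1923 87 (by decide +kernel)) <|
  cons_ok (fk_spec 7588 1936 40 (by decide +kernel)) <|
  cons_ok (fk_spec 7588 1943 97 (by decide +kernel)) <|
  cons_ok (fk_spec 7588 1959 111 (by decide +kernel)) <|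
  cons_ok (fk_spec 7588 1960 34 (by decide +kernel)) <|
  cons_ok (fk_spec 7588 1961 113 (by decide +kernel)) <|
  nil_ok 7588

theorem rng_1923 : ∀ k, 1923 ≤ k → k < 1971 → ¬ (num 7588 k).Prime :=
  range_of 7588 1923 1971 [0, 66377, 305484329, 761, 211, 199, 191, 307, 19421, 2099, 42961, 19, 11503, 0, 409, 103, 20759, 124422421, 5, 7, 0, 461, 439, 1302443, 29, 379, 11, 2969, 37, 29, 47, 389, 479, 811, 929, 4271, 0, 0, 0, 225314477, 83, 241, 79, 11, 10151, 53, 233, 7] _ (by decide +kernel) (by decide +kernel) fer_1923 (by decide +kernel)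

end Pool.Agent.H495.Sun.Z7588
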