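import Pool.Agent.H495.Sun.Fer

set_option autoImplicit false
set_option maxRecDepth 100000

/-! Certificates for `k * (k + 1) ^ φ(7588 - k) + 1` with `1971 ≤ k < 2034`. -/

namespace Pool.Agent.H495.Sun.Z7588

theorem fer_1971 : ∀ k ∈ [1971, 1976, 1977, 1982, 1996, 2000, 2003, 2012, 2026, 2028], ¬ (num 7588 k).Prime :=
  cons_ok (fk_spec 7588 1971 117 (by decide +kernel)) <|
  cons_ok (fk_spec 7588 1976 57 (by decide +kernel)) <|
  cons_ok (fk_spec 7588 1977 116 (by decide +kernel)) <|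
  cons_ok (fk_spec 7588 1982 60 (by decide +kernel)) <|
  cons_ok (fk_spec 7588 1996 40 (by decide +kernel)) <|
  cons_ok (fk_spec 7588 2000 54 (by decide +kernel)) <|
  cons_ok (fk_spec 7588 2003 96 (by decide +kernel)) <|
  cons_ok (fk_spec 7588 2012 55 (by decide +kernel)) <|
  cons_ok (fk_spec 7588 2026 40 (by decide +kernel)) <|
  cons_ok (fk_spec 7588 2028 48 (by decide +kernel)) <|
  nil_ok 7588

theorem rng_1971 : ∀ k, 1971 ≤ k → k < 2034 → ¬ (num 7588 k).Prime :=
  range_of 7588 1971 2034 [0, 53, 389, 157, 1361, 0, 0, 19, 149, 263, 1289, 0, 346321, 17579, 4517, 469169, 743, 37, 3671, 17, 859, 23, 61, 47, 101, 0, 103, 11, 31, 0, 229, 71, 0, 1097, 796799, 5, 17, 109, 11, 29, 23, 0, 10944839, 151, 523, 2207, 752177, 657499, 11, 139, 53, 21499, 12391, 59, 17, 0, 1063, 0, 43, 59, 11, 41, 7853] _ (by decide +kernel) (by decide +kernel) fer_1971 (by decide +kernel)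

end Pool.Agent.H495.Sun.Z7588
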