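import Pool.Agent.H495.Sun.Fer

set_option autoImplicit false
set_option maxRecDepth 100000

/-! Certificates for `k * (k + 1) ^ φ(7588 - k) + 1` with `2034 ≤ k < 2105`. -/

namespace Pool.Agent.H495.Sun.Z7588

theorem fer_2034 : ∀ k ∈ [2034, 2050, 2062, 2063, 2066, 2068, 2074, 2076, 2087, 2089, 2093, 2102], ¬ (num 7588 k).Prime :=
  cons_ok (fk_spec 7588 2034 60 (by decide +kernel)) <|
  cons_ok (fk_spec 7588 2050 37 (by decide +kernel)) <|
  cons_ok (fk_spec 7588 2062 40 (by decide +kernel)) <|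
  cons_ok (fk_spec 7588 2063 83 (by decide +kernel)) <|
  cons_ok (fk_spec 7588 2066 54 (by decide +kernel)) <|
  cons_ok (fk_spec 7588 2068 31 (by decide +kernel)) <|
  cons_ok (fk_spec 7588 2074 40 (by decide +kernel)) <|
  cons_ok (fk_spec 7588 2076 54 (by decide +kernel)) <|
  cons_ok (fk_spec 7588 2087 119 (by decide +kernel)) <|
  cons_ok (fk_spec 7588 2089 72 (by decide +kernel)) <|
  cons_ok (fk_spec 7588 2093 81 (by decide +kernel)) <|
  cons_ok (fk_spec 7588 2102 55 (by decide +kernel)) <|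
  nil_ok 7588

theorem rng_2034 : ∀ k, 2034 ≤ k → k < 2105 → ¬ (num 7588 k).Prime :=
  range_of 7588 2034 2105 [0, 293, 29, 27743, 463, 4271, 61, 17, 179, 11, 131, 19, 7103, 7, 11, 1483, 0, 224069, 20773, 197, 61, 19, 1613, 1091, 83, 1889, 43, 5, 0, 0, 19, 5437, 0, 281, 0, 37, 457, 241, 359, 41, 0, 41, 0, 13, 241, 163, 4813, 5, 301406993, 563, 148439, 23, 28771, 0, 1283, 0, 1297, 60967397, 31, 0, 163, 17, 7, 11, 619, 37, 457, 4275251, 0, 78487, 53] _ (by decide +kernel) (by decide +kernel) fer_2034 (by decide +kernel)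

end Pool.Agent.H495.Sun.Z7588
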