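import Pool.Agent.H495.Sun.Fer

set_option autoImplicit false
set_option maxRecDepth 100000

/-! Certificates for `k * (k + 1) ^ φ(7588 - k) + 1` with `2105 ≤ k < 2248`. -/

namespace Pool.Agent.H495.Sun.Z7588

theorem fer_2105 : ∀ k ∈ [2105, 2122, 2128, 2134, 2146, 2148, 2170, 2173, 2176, 2178, 2185, 2192, 2202, 2204, 2216, 2226, 2239, 2240], ¬ (num 7588 k).Prime :=
  cons_ok (fk_spec 7588 2105 119 (by decide +kernel)) <|
  cons_ok (fk_spec 7588 2122 40 (by decide +kernel)) <|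
  cons_ok (fk_spec 7588 2128 25 (by decide +kernel)) <|
  cons_ok (fk_spec 7588 2134 39 (by decide +kernel)) <|
  cons_ok (fk_spec 7588 2146 40 (by decide +kernel)) <|
  cons_ok (fk_spec 7588 2148 45 (by decide +kernel)) <|
  cons_ok (fk_spec 7588 2170 33 (by decide +kernel)) <|
  cons_ok (fk_spec 7588 2173 60 (by decide +kernel)) <|
  cons_ok (fk_spec 7588 2176 35 (by decide +kernel)) <|
  cons_ok (fk_spec 7588 2178 47 (by decide +kernel)) <|
  cons_ok (fk_spec 7588 2185 79 (by decide +kernel)) <|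
  cons_ok (fk_spec 7588 2192 55 (by decide +kernel)) <|
  cons_ok (fk_spec 7588 2202 59 (by decide +kernel)) <|
  cons_ok (fk_spec 7588 2204 59 (by decide +kernel)) <|
  cons_ok (fk_spec 7588 2216 55 (by decide +kernel)) <|
  cons_ok (fk_spec 7588 2226 50 (by decide +kernel)) <|
  cons_ok (fk_spec 7588 2239 78 (by decide +kernel)) <|
  cons_ok (fk_spec 7588 2240 50 (by decide +kernel)) <|
  nil_ok 7588

theorem rng_2105 : ∀ k, 2105 ≤ k → k < 2248 → ¬ (num 7588 k).Prime :=
  range_of 7588 2105 2248 [0, 139, 173, 11, 631, 7, 79, 97, 9623, 83, 79, 41, 619, 986113, 1013, 11, 19, 0, 104399, 359, 431, 5, 199, 0, 17159, 59, 7, 137, 23, 0, 23, 269, 1259, 1429, 419, 11, 11, 109, 431, 23, 653209, 0, 379, 0, 359, 2089, 16193, 43, 109, 2471179, 13, 11939, 54661283, 43, 19, 1531, 176609, 61, 6553, 11, 35257039, 5, 25357, 107, 11, 0, 307, 177136529, 0, 11, 11, 0, 43, 0, 139, 89, 5, 23, 43, 5011, 0, 11, 127, 502961, 109, 23, 225023, 0, 19, 37, 263, 41, 19,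 53, 1013, 99131, 5, 0, 179, 0, 6574003, 149, 19, 7, 97, 149, 17, 131, 557, 421, 2133831407, 0, 19, 41, 296736277, 743, 89, 1601, 61, 31, 1058724127, 0, 23, 31, 521, 3229267, 17, 125715151, 1181, 3691, 13669, 7027, 1439, 31, 0, 0, 5, 175108937, 111401743, 31, 263, 5, 71] _ (by decide +kernel) (by decide +kernel) fer_2105 (by decide +kernel)

end Pool.Agent.H495.Sun.Z7588
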