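import Pool.Agent.H495.Sun.Fer

set_option autoImplicit false
set_option maxRecDepth 100000

/-! Certificates for `k * (k + 1) ^ φ(7588 - k) + 1` with `2248 ≤ k < 2271`. -/

namespace Pool.Agent.H495.Sun.Z7588

theorem fer_2248 : ∀ k ∈ [2248, 2249, 2257, 2258, 2259, 2260, 2262, 2265, 2266], ¬ (num 7588 k).Prime :=
  cons_ok (fk_spec 7588 2248 31 (by decide +kernel)) <|
  cons_ok (fk_spec 7588 2249 110 (by decide +kernel)) <|
  cons_ok (fk_spec 7588 2257 78 (by decide +kernel)) <|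
  cons_ok (fk_spec 7588 2258 42 (by decide +kernel)) <|
  cons_ok (fk_spec 7588 2259 115 (by decide +kernel)) <|
  cons_ok (fk_spec 7588 2260 38 (by decide +kernel)) <|
  cons_ok (fk_spec 7588 2262 58 (by decide +kernel)) <|
  cons_ok (fk_spec 7588 2265 116 (by decide +kernel)) <|
  cons_ok (fk_spec 7588 2266 39 (by decide +kernel)) <|
  nil_ok 7588

theorem rng_2248 : ∀ k, 2248 ≤ k → k < 2271 → ¬ (num 7588 k).Prime :=
  range_of 7588 2248 2271 [0, 0, 19, 53, 5651, 8111, 18793, 29, 2103524537, 0, 0, 0, 0, 23, 0, 67, 7, 0, 0, 29, 11, 311, 17] _ (by decide +kernel) (by decide +kernel) fer_2248 (by decide +kernel)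

end Pool.Agent.H495.Sun.Z7588
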