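import Pool.Agent.H495.Sun.Fer

set_option autoImplicit false
set_option maxRecDepth 100000

/-! Certificates for `k * (k + 1) ^ φ(7588 - k) + 1` with `2271 ≤ k < 2309`. -/

namespace Pool.Agent.H495.Sun.Z7588

theorem fer_2271 : ∀ k ∈ [2271, 2277, 2287, 2289, 2304], ¬ (num 7588 k).Prime :=
  cons_ok (fk_spec 7588 2271 107 (by decide +kernel)) <|
  cons_ok (fk_spec 7588 2277 113 (by decide +kernel)) <|
  cons_ok (fk_spec 7588 2287 71 (by decide +kernel)) <|
  cons_ok (fk_spec 7588 2289 99 (by decide +kernel)) <|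
  cons_ok (fk_spec 7588 2304 58 (by decide +kernel)) <|
  nil_ok 7588

theorem rng_2271 : ∀ k, 2271 ≤ k → k < 2309 → ¬ (num 7588 k).Prime :=
  range_of 7588 2271 2309 [0, 11, 263729, 229, 59, 59, 0, 359, 11, 3037, 79, 17, 302573, 11, 11, 547, 0, 170202971, 0, 123553, 241, 5059, 907, 229, 1913, 11, 408361, 13, 479, 182107, 120157, 24809, 193741, 0, 37, 41, 59, 3499] _ (by decide +kernel) (by decide +kernel) fer_2271 (by decide +kernel)

end Pool.Agent.H495.Sun.Z7588
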