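import Pool.Agent.H495.Sun.Fer

set_option autoImplicit false
set_option maxRecDepth 100000

/-! Certificates for `k * (k + 1) ^ φ(7588 - k) + 1` with `2309 ≤ k < 2348`. -/

namespace Pool.Agent.H495.Sun.Z7588

theorem fer_2309 : ∀ k ∈ [2309, 2316, 2317, 2322, 2326, 2332, 2337, 2338, 2339], ¬ (num 7588 k).Prime :=
  cons_ok (fk_spec 7588 2309 116 (by decide +kernel)) <|
  cons_ok (fk_spec 7588 2316 58 (by decide +kernel)) <|
  cons_ok (fk_spec 7588 2317 66 (by decide +kernel)) <|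
  cons_ok (fk_spec 7588 2322 58 (by decide +kernel)) <|
  cons_ok (fk_spec 7588 2326 39 (by decide +kernel)) <|
  cons_ok (fk_spec 7588 2332 38 (by decide +kernel)) <|
  cons_ok (fk_spec 7588 2337 112 (by decide +kernel)) <|
  cons_ok (fk_spec 7588 2338 27 (by decide +kernel)) <|
  cons_ok (fk_spec 7588 2339 111 (by decide +kernel)) <|
  nil_ok 7588

theorem rng_2309 : ∀ k, 2309 ≤ k → k < 2348 → ¬ (num 7588 k).Prime :=
  range_of 7588 2309 2348 [0, 6151, 19, 26627, 2239, 257, 127, 0, 0, 43, 53, 23, 37, 0, 8209, 823, 151, 0, 457, 11, 1721, 17, 107, 0, 2347, 47, 1847, 47, 0, 0, 0, 3391, 9203, 12066427, 113, 151, 61, 461, 17] _ (by decide +kernel) (by decide +kernel) fer_2309 (by decide +kernel)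

end Pool.Agent.H495.Sun.Z7588
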