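import Pool.Agent.H495.Sun.Fer

set_option autoImplicit false
set_option maxRecDepth 100000

/-! Certificates for `k * (k + 1) ^ φ(7588 - k) + 1` with `2348 ≤ k < 2431`. -/

namespace Pool.Agent.H495.Sun.Z7588

theorem fer_2348 : ∀ k ∈ [2348, 2349, 2354, 2357, 2368, 2370, 2376, 2390, 2395, 2413, 2414, 2416, 2418, 2428], ¬ (num 7588 k).Prime :=
  cons_ok (fk_spec 7588 2348 46 (by decide +kernel)) <|
  cons_ok (fk_spec 7588 2349 103 (by decide +kernel)) <|
  cons_ok (fk_spec 7588 2354 58 (by decide +kernel)) <|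
  cons_ok (fk_spec 7588 2357 115 (by decide +kernel)) <|
  cons_ok (fk_spec 7588 2368 30 (by decide +kernel)) <|
  cons_ok (fk_spec 7588 2370 58 (by decide +kernel)) <|
  cons_ok (fk_spec 7588 2376 58 (by decide +kernel)) <|
  cons_ok (fk_spec 7588 2390 55 (by decide +kernel)) <|
  cons_ok (fk_spec 7588 2395 76 (by decide +kernel)) <|
  cons_ok (fk_spec 7588 2413 58 (by decide +kernel)) <|
  cons_ok (fk_spec 7588 2414 53 (by decide +kernel)) <|
  cons_ok (fk_spec 7588 2416 38 (by decide +kernel)) <|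
  cons_ok (fk_spec 7588 2418 41 (by decide +kernel)) <|
  cons_ok (fk_spec 7588 2428 30 (by decide +kernel)) <|
  nil_ok 7588

theorem rng_2348 : ∀ k, 2348 ≤ k → k < 2431 → ¬ (num 7588 k).Prime :=
  range_of 7588 2348 2431 [0, 0, 67, 332159, 79, 29, 0, 29, 11, 0, 29, 7283693, 103, 5, 2543, 2437, 298223, 6829, 281, 17, 0, 569, 0, 9103, 1921887593, 11, 1032709, 596751541, 0, 221461, 59, 37, 23, 1153, 11, 7, 29, 79, 23, 19, 101, 13, 0, 911, 22153, 47, 19157, 0, 139, 19, 659, 79, 1327, 337, 23, 197, 11, 163, 5, 4211, 1407971, 131, 695089, 23, 29, 0, 0, 11, 0, 37, 0, 157, 344086121, 5, 107, 53, 257, 7, 19, 92077, 0, 29, 137] _ (by decide +kernel) (by decide +kernel) fer_2348 (by decide +kernel)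

end Pool.Agent.H495.Sun.Z7588
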