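import Pool.Agent.H495.Sun.Fer

set_option autoImplicit false
set_option maxRecDepth 100000

/-! Certificates for `k * (k + 1) ^ φ(7588 - k) + 1` with `2431 ≤ k < 2509`. -/

namespace Pool.Agent.H495.Sun.Z7588

theorem fer_2431 : ∀ k ∈ [2431, 2434, 2450, 2461, 2464, 2477, 2487, 2489], ¬ (num 7588 k).Prime :=
  cons_ok (fk_spec 7588 2431 76 (by decide +kernel)) <|
  cons_ok (fk_spec 7588 2434 38 (by decide +kernel)) <|
  cons_ok (fk_spec 7588 2450 49 (by decide +kernel)) <|
  cons_ok (fk_spec 7588 2461 76 (by decide +kernel)) <|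
  cons_ok (fk_spec 7588 2464 32 (by decide +kernel)) <|
  cons_ok (fk_spec 7588 2477 107 (by decide +kernel)) <|
  cons_ok (fk_spec 7588 2487 113 (by decide +kernel)) <|
  cons_ok (fk_spec 7588 2489 113 (by decide +kernel)) <|
  nil_ok 7588

theorem rng_2431 : ∀ k, 2431 ≤ k → k < 2509 → ¬ (num 7588 k).Prime :=
  range_of 7588 2431 2509 [0, 7, 1039, 0, 929, 251, 7829, 1546453, 2267, 29, 5, 29, 61, 11, 14979253, 7, 173, 11, 17, 0, 607, 23, 1483, 7879, 11, 613, 550058459, 113, 43, 179, 0, 419, 79, 0, 9307273, 125899, 6217, 467, 83, 15467, 479, 31, 35227, 4937, 59, 107, 0, 431, 47, 13, 5, 251, 739121, 107999599, 971, 5, 0, 7, 0, 13499, 109, 61, 31, 11, 121493, 139, 499, 53, 9001, 37, 5, 11094133, 11, 4003, 41, 7649, 103, 17581] _ (by decide +kernel) (by decide +kernel) fer_2431 (by decide +kernel)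

end Pool.Agent.H495.Sun.Z7588
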