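import Pool.Agent.H495.Sun.Fer

set_option autoImplicit false
set_option maxRecDepth 100000

/-! Certificates for `k * (k + 1) ^ φ(7588 - k) + 1` with `2509 ≤ k < 2595`. -/

namespace Pool.Agent.H495.Sun.Z7588

theorem fer_2509 : ∀ k ∈ [2509, 2515, 2524, 2525, 2527, 2528, 2533, 2536, 2553, 2575, 2576, 2588], ¬ (num 7588 k).Prime :=
  cons_ok (fk_spec 7588 2509 75 (by decide +kernel)) <|
  cons_ok (fk_spec 7588 2515 70 (by decide +kernel)) <|
  cons_ok (fk_spec 7588 2524 38 (by decide +kernel)) <|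
  cons_ok (fk_spec 7588 2525 109 (by decide +kernel)) <|
  cons_ok (fk_spec 7588 2527 64 (by decide +kernel)) <|
  cons_ok (fk_spec 7588 2528 39 (by decide +kernel)) <|
  cons_ok (fk_spec 7588 2533 60 (by decide +kernel)) <|
  cons_ok (fk_spec 7588 2536 38 (by decide +kernel)) <|
  cons_ok (fk_spec 7588 2553 83 (by decide +kernel)) <|
  cons_ok (fk_spec 7588 2575 74 (by decide +kernel)) <|
  cons_ok (fk_spec 7588 2576 48 (by decide +kernel)) <|
  cons_ok (fk_spec 7588 2588 45 (by decide +kernel)) <|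
  nil_ok 7588

theorem rng_2509 : ∀ k, 2509 ≤ k → k < 2595 → ¬ (num 7588 k).Prime :=
  range_of 7588 2509 2595 [0, 11, 59, 4127, 32321, 751, 0, 7, 233, 409, 9207997, 167, 43, 19, 73, 0, 0, 5, 0, 0, 1847, 136897, 1237931, 285949, 0, 17, 173, 0, 727, 793517, 101, 3466643, 1682989313, 19, 137, 223, 23, 797387323, 97, 32299, 19, 23, 3547, 3469, 0, 17, 401, 111703877, 31, 11, 11, 11, 12809, 12457, 4663, 23, 61, 1031, 683, 431, 14447, 113772227, 1279, 4421, 23055577, 347, 0, 0, 19, 1451, 77689, 37, 11, 11, 31223, 571, 127, 1063, 23, 0, 67, 23, 151, 11, 11, 107] _ (by decide +kernel) (by decide +kernel) fer_2509 (by decide +kernel)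

end Pool.Agent.H495.Sun.Z7588
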