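import Pool.Agent.H495.Sun.Fer

set_option autoImplicit false
set_option maxRecDepth 100000

/-! Certificates for `k * (k + 1) ^ φ(7588 - k) + 1` with `2595 ≤ k < 2683`. -/

namespace Pool.Agent.H495.Sun.Z7588

theorem fer_2595 : ∀ k ∈ [2595, 2620, 2628, 2640, 2641, 2646, 2654, 2658, 2659, 2669, 2672, 2674, 2676, 2682], ¬ (num 7588 k).Prime :=
  cons_ok (fk_spec 7588 2595 111 (by decide +kernel)) <|
  cons_ok (fk_spec 7588 2620 36 (by decide +kernel)) <|
  cons_ok (fk_spec 7588 2628 43 (by decide +kernel)) <|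
  cons_ok (fk_spec 7588 2640 55 (by decide +kernel)) <|
  cons_ok (fk_spec 7588 2641 69 (by decide +kernel)) <|
  cons_ok (fk_spec 7588 2646 47 (by decide +kernel)) <|
  cons_ok (fk_spec 7588 2654 55 (by decide +kernel)) <|
  cons_ok (fk_spec 7588 2658 40 (by decide +kernel)) <|
  cons_ok (fk_spec 7588 2659 70 (by decide +kernel)) <|
  cons_ok (fk_spec 7588 2669 110 (by decide +kernel)) <|
  cons_ok (fk_spec 7588 2672 55 (by decide +kernel)) <|
  cons_ok (fk_spec 7588 2674 29 (by decide +kernel)) <|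
  cons_ok (fk_spec 7588 2676 55 (by decide +kernel)) <|
  cons_ok (fk_spec 7588 2682 50 (by decide +kernel)) <|
  nil_ok 7588

theorem rng_2595 : ∀ k, 2595 ≤ k → k < 2683 → ¬ (num 7588 k).Prime :=
  range_of 7588 2595 2683 [0, 19, 17751889, 2239, 647, 31, 5, 1053029, 9923, 11, 1523, 19, 3851, 53, 1279, 947327, 2089, 254383, 13805977, 11, 11, 1523, 337, 23, 1481, 0, 5, 79, 47, 79, 6427, 11, 163, 0, 2239, 779413429, 67033, 564671, 216638077, 1459, 1254653, 149, 2042083, 1543, 2819, 0, 0, 191, 59, 29, 463, 0, 409, 508033, 349, 31, 7507, 17053, 11, 0, 43, 67, 197, 0, 0, 853, 47, 13, 7, 79, 1005409, 821, 16703, 137, 0, 457, 523, 0, 29, 0, 383, 0, 7, 14268853, 11, 2749, 5003, 0] _ (by decide +kernel) (by decide +kernel) fer_2595 (by decide +kernel)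

end Pool.Agent.H495.Sun.Z7588
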