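import Pool.Agent.H495.Sun.Fer

set_option autoImplicit false
set_option maxRecDepth 100000

/-! Certificates for `k * (k + 1) ^ φ(7588 - k) + 1` with `2683 ≤ k < 2767`. -/

namespace Pool.Agent.H495.Sun.Z7588

theorem fer_2683 : ∀ k ∈ [2683, 2684, 2685, 2690, 2703, 2708, 2713, 2730, 2736, 2737, 2752, 2753, 2756, 2762], ¬ (num 7588 k).Prime :=
  cons_ok (fk_spec 7588 2683 58 (by decide +kernel)) <|
  cons_ok (fk_spec 7588 2684 55 (by decide +kernel)) <|
  cons_ok (fk_spec 7588 2685 110 (by decide +kernel)) <|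
  cons_ok (fk_spec 7588 2690 53 (by decide +kernel)) <|
  cons_ok (fk_spec 7588 2703 87 (by decide +kernel)) <|
  cons_ok (fk_spec 7588 2708 43 (by decide +kernel)) <|
  cons_ok (fk_spec 7588 2713 54 (by decide +kernel)) <|
  cons_ok (fk_spec 7588 2730 47 (by decide +kernel)) <|
  cons_ok (fk_spec 7588 2736 55 (by decide +kernel)) <|
  cons_ok (fk_spec 7588 2737 57 (by decide +kernel)) <|
  cons_ok (fk_spec 7588 2752 33 (by decide +kernel)) <|
  cons_ok (fk_spec 7588 2753 87 (by decide +kernel)) <|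
  cons_ok (fk_spec 7588 2756 54 (by decide +kernel)) <|
  cons_ok (fk_spec 7588 2762 51 (by decide +kernel)) <|
  nil_ok 7588

theorem rng_2683 : ∀ k, 2683 ≤ k → k < 2767 → ¬ (num 7588 k).Prime :=
  range_of 7588 2683 2767 [0, 0, 0, 149, 19, 67, 103, 0, 11, 4547, 19, 947, 71, 877, 42181543, 167, 43, 25849, 813299, 576551, 0, 7109, 43, 312643, 191, 0, 3209, 151, 19, 7, 0, 479457707, 2239, 3677, 283, 5303, 113, 233, 443, 247879, 919, 24071, 233, 457, 123766109, 1201, 19, 0, 1307, 109147, 23, 7487, 487, 0, 0, 337, 89809, 41023, 43, 131, 31, 19, 11, 798485309, 11, 179, 251, 491, 619, 0, 0, 137, 17, 0, 13, 149, 29, 238757479, 29, 0, 397, 29, 32843, 5] _ (by decide +kernel) (by decide +kernel) fer_2683 (by decide +kernel)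

end Pool.Agent.H495.Sun.Z7588
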