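import Pool.Agent.H495.Sun.Fer

set_option autoImplicit false
set_option maxRecDepth 100000

/-! Certificates for `k * (k + 1) ^ φ(7588 - k) + 1` with `2767 ≤ k < 2884`. -/

namespace Pool.Agent.H495.Sun.Z7588

theorem fer_2767 : ∀ k ∈ [2767, 2780, 2790, 2807, 2821, 2824, 2827, 2849, 2851, 2852, 2854, 2863, 2869, 2881], ¬ (num 7588 k).Prime :=
  cons_ok (fk_spec 7588 2767 72 (by decide +kernel)) <|
  cons_ok (fk_spec 7588 2780 54 (by decide +kernel)) <|
  cons_ok (fk_spec 7588 2790 54 (by decide +kernel)) <|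
  cons_ok (fk_spec 7588 2807 92 (by decide +kernel)) <|
  cons_ok (fk_spec 7588 2821 61 (by decide +kernel)) <|
  cons_ok (fk_spec 7588 2824 36 (by decide +kernel)) <|
  cons_ok (fk_spec 7588 2827 69 (by decide +kernel)) <|
  cons_ok (fk_spec 7588 2849 91 (by decide +kernel)) <|
  cons_ok (fk_spec 7588 2851 71 (by decide +kernel)) <|
  cons_ok (fk_spec 7588 2852 52 (by decide +kernel)) <|
  cons_ok (fk_spec 7588 2854 36 (by decide +kernel)) <|
  cons_ok (fk_spec 7588 2863 49 (by decide +kernel)) <|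
  cons_ok (fk_spec 7588 2869 60 (by decide +kernel)) <|
  cons_ok (fk_spec 7588 2881 71 (by decide +kernel)) <|
  nil_ok 7588

theorem rng_2767 : ∀ k, 2767 ≤ k → k < 2884 → ¬ (num 7588 k).Prime :=
  range_of 7588 2767 2884 [0, 107, 107, 383, 31, 3467, 53, 521, 17, 163, 653, 11, 11, 0, 483547553, 1033, 47, 160243, 701, 5, 1970159351, 136277, 11, 0, 571, 67, 29, 281, 724601, 19, 23, 212453581, 7910081, 911, 5, 11, 7, 7159, 463, 48527, 0, 32183, 17, 93637, 23, 83, 107, 97, 53, 163, 31, 11, 67, 794509, 0, 13, 1987, 0, 23, 17, 0, 2143, 11, 131, 47, 43, 11, 11, 11, 419, 89, 59, 23, 17, 2069, 15527, 23, 11, 101, 5, 14347, 401, 0, 1933, 0, 0, 259547, 0, 821819, 167, 11, 146752339, 239, 47, 1609, 11, 0, 67, 17, 363397, 103, 437237, 0, 131, 383, 691, 694938043, 17, 1267136459, 103, 83, 382843, 53, 7, 0, 179, 4021] _ (by decide +kernel) (by decide +kernel) fer_2767 (by decide +kernel)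

end Pool.Agent.H495.Sun.Z7588
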