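import Pool.Agent.H495.Sun.Fer

set_option autoImplicit false
set_option maxRecDepth 100000

/-! Certificates for `k * (k + 1) ^ φ(7588 - k) + 1` with `2884 ≤ k < 2960`. -/

namespace Pool.Agent.H495.Sun.Z7588

theorem fer_2884 : ∀ k ∈ [2884, 2891, 2893, 2907, 2916, 2918, 2922, 2930, 2943, 2946, 2952, 2953, 2955], ¬ (num 7588 k).Prime :=
  cons_ok (fk_spec 7588 2884 31 (by decide +kernel)) <|
  cons_ok (fk_spec 7588 2891 81 (by decide +kernel)) <|
  cons_ok (fk_spec 7588 2893 57 (by decide +kernel)) <|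
  cons_ok (fk_spec 7588 2907 102 (by decide +kernel)) <|
  cons_ok (fk_spec 7588 2916 52 (by decide +kernel)) <|
  cons_ok (fk_spec 7588 2918 42 (by decide +kernel)) <|
  cons_ok (fk_spec 7588 2922 53 (by decide +kernel)) <|
  cons_ok (fk_spec 7588 2930 49 (by decide +kernel)) <|
  cons_ok (fk_spec 7588 2943 84 (by decide +kernel)) <|
  cons_ok (fk_spec 7588 2946 48 (by decide +kernel)) <|
  cons_ok (fk_spec 7588 2952 49 (by decide +kernel)) <|
  cons_ok (fk_spec 7588 2953 56 (by decide +kernel)) <|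
  cons_ok (fk_spec 7588 2955 101 (by decide +kernel)) <|
  nil_ok 7588

theorem rng_2884 : ∀ k, 2884 ≤ k → k < 2960 → ¬ (num 7588 k).Prime :=
  range_of 7588 2884 2960 [0, 1123, 5, 103, 5281, 11, 11, 0, 2053, 0, 197, 107, 47, 318104711, 31, 1753, 11, 643, 53, 12119, 128684071, 29021, 47, 0, 10691647, 61, 11, 11, 11, 563, 421, 239, 0, 1489, 0, 19, 211, 103, 0, 3812111, 506008729, 71, 43, 137, 19, 7, 0, 173, 181, 3607, 19, 963936889, 7, 79, 1723577, 11, 162754643, 479, 61, 0, 293, 11, 0, 192259, 10061, 47, 7, 739, 0, 0, 129643741, 0, 557, 19, 233, 17] _ (by decide +kernel) (by decide +kernel) fer_2884 (by decide +kernel)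

end Pool.Agent.H495.Sun.Z7588
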