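import Pool.Agent.H495.Sun.Fer

set_option autoImplicit false
set_option maxRecDepth 100000

/-! Certificates for `k * (k + 1) ^ φ(7588 - k) + 1` with `2960 ≤ k < 3065`. -/

namespace Pool.Agent.H495.Sun.Z7588

theorem fer_2960 : ∀ k ∈ [2960, 2964, 2967, 2994, 2998, 3002, 3019, 3023, 3040, 3051, 3059, 3060, 3062, 3064], ¬ (num 7588 k).Prime :=
  cons_ok (fk_spec 7588 2960 48 (by decide +kernel)) <|
  cons_ok (fk_spec 7588 2964 50 (by decide +kernel)) <|
  cons_ok (fk_spec 7588 2967 105 (by decide +kernel)) <|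
  cons_ok (fk_spec 7588 2994 52 (by decide +kernel)) <|
  cons_ok (fk_spec 7588 2998 27 (by decide +kernel)) <|
  cons_ok (fk_spec 7588 3002 52 (by decide +kernel)) <|
  cons_ok (fk_spec 7588 3019 69 (by decide +kernel)) <|
  cons_ok (fk_spec 7588 3023 75 (by decide +kernel)) <|
  cons_ok (fk_spec 7588 3040 35 (by decide +kernel)) <|
  cons_ok (fk_spec 7588 3051 95 (by decide +kernel)) <|
  cons_ok (fk_spec 7588 3059 88 (by decide +kernel)) <|
  cons_ok (fk_spec 7588 3060 52 (by decide +kernel)) <|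
  cons_ok (fk_spec 7588 3062 49 (by decide +kernel)) <|
  cons_ok (fk_spec 7588 3064 31 (by decide +kernel)) <|
  nil_ok 7588

theorem rng_2960 : ∀ k, 2960 ≤ k → k < 3065 → ¬ (num 7588 k).Prime :=
  range_of 7588 2960 3065 [0, 149, 3019, 43, 0, 379, 5, 0, 659, 701, 74077, 17, 53, 120563, 1483, 643, 101, 1531, 8578513, 19, 61, 1367, 89, 11, 70121, 83, 4933, 883, 1521617, 11, 204151, 23977, 2671, 163, 0, 173, 29, 7043, 0, 643, 29, 23, 0, 19559, 23, 17077343, 3019, 727, 37, 23, 11, 41, 151, 1871, 106957, 787, 61, 5753453, 7856881, 0, 29, 5, 30071, 0, 71, 16937, 863, 2341, 491, 103, 1687003193, 349, 4451, 349, 149, 401, 19, 47, 29, 17, 0, 5, 787537, 3259, 31, 37, 419, 17, 7, 79, 23, 0, 347, 31, 11, 7, 757, 383, 53, 0, 0, 17, 0, 199, 0] _ (by decide +kernel) (by decide +kernel) fer_2960 (by decide +kernel)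

end Pool.Agent.H495.Sun.Z7588
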