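import Pool.Agent.H495.Sun.Fer

set_option autoImplicit false
set_option maxRecDepth 100000

/-! Certificates for `k * (k + 1) ^ φ(7588 - k) + 1` with `3065 ≤ k < 3145`. -/

namespace Pool.Agent.H495.Sun.Z7588

theorem fer_3065 : ∀ k ∈ [3065, 3075, 3079, 3094, 3096, 3098, 3102, 3103, 3106, 3120, 3125, 3126, 3139], ¬ (num 7588 k).Prime :=
  cons_ok (fk_spec 7588 3065 103 (by decide +kernel)) <|
  cons_ok (fk_spec 7588 3075 103 (by decide +kernel)) <|
  cons_ok (fk_spec 7588 3079 68 (by decide +kernel)) <|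
  cons_ok (fk_spec 7588 3094 29 (by decide +kernel)) <|
  cons_ok (fk_spec 7588 3096 51 (by decide +kernel)) <|
  cons_ok (fk_spec 7588 3098 41 (by decide +kernel)) <|
  cons_ok (fk_spec 7588 3102 51 (by decide +kernel)) <|
  cons_ok (fk_spec 7588 3103 48 (by decide +kernel)) <|
  cons_ok (fk_spec 7588 3106 34 (by decide +kernel)) <|
  cons_ok (fk_spec 7588 3120 51 (by decide +kernel)) <|
  cons_ok (fk_spec 7588 3125 102 (by decide +kernel)) <|
  cons_ok (fk_spec 7588 3126 48 (by decide +kernel)) <|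
  cons_ok (fk_spec 7588 3139 68 (by decide +kernel)) <|
  nil_ok 7588

theorem rng_3065 : ∀ k, 3065 ≤ k → k < 3145 → ¬ (num 7588 k).Prime :=
  range_of 7588 3065 3145 [0, 149, 1772461, 66959, 13, 1061, 653, 9674557, 79, 339887, 0, 7, 11, 59093, 0, 15287, 5, 37, 719, 107, 257, 5, 9619, 4503557, 193, 10970369, 13, 23, 2107073, 0, 17, 0, 11, 0, 11, 173, 1913, 0, 0, 11, 137587, 0, 73, 2337527, 86477, 22871, 3023, 9213319, 593, 1231, 283, 109, 5281, 7, 937, 0, 317, 6277, 181, 3779, 0, 0, 142963, 367, 211093867, 13, 11, 1787, 2357, 179, 67, 1029337, 17, 29, 0, 1409, 5, 11, 1489, 310273] _ (by decide +kernel) (by decide +kernel) fer_3065 (by decide +kernel)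

end Pool.Agent.H495.Sun.Z7588
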