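import Pool.Agent.H495.Sun.Fer

set_option autoImplicit false
set_option maxRecDepth 100000

/-! Certificates for `k * (k + 1) ^ φ(7588 - k) + 1` with `3145 ≤ k < 3223`. -/

namespace Pool.Agent.H495.Sun.Z7588

theorem fer_3145 : ∀ k ∈ [3145, 3150, 3152, 3173, 3178, 3183, 3188, 3189, 3192, 3204, 3205, 3209, 3211], ¬ (num 7588 k).Prime :=
  cons_ok (fk_spec 7588 3145 68 (by decide +kernel)) <|
  cons_ok (fk_spec 7588 3150 44 (by decide +kernel)) <|
  cons_ok (fk_spec 7588 3152 51 (by decide +kernel)) <|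
  cons_ok (fk_spec 7588 3173 81 (by decide +kernel)) <|
  cons_ok (fk_spec 7588 3178 23 (by decide +kernel)) <|
  cons_ok (fk_spec 7588 3183 81 (by decide +kernel)) <|
  cons_ok (fk_spec 7588 3188 37 (by decide +kernel)) <|
  cons_ok (fk_spec 7588 3189 97 (by decide +kernel)) <|
  cons_ok (fk_spec 7588 3192 43 (by decide +kernel)) <|
  cons_ok (fk_spec 7588 3204 50 (by decide +kernel)) <|
  cons_ok (fk_spec 7588 3205 67 (by decide +kernel)) <|
  cons_ok (fk_spec 7588 3209 96 (by decide +kernel)) <|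
  cons_ok (fk_spec 7588 3211 67 (by decide +kernel)) <|
  nil_ok 7588

theorem rng_3145 : ∀ k, 3145 ≤ k → k < 3223 → ¬ (num 7588 k).Prime :=
  range_of 7588 3145 3223 [0, 17, 509137, 594271, 149, 0, 719, 0, 1132423, 31, 4057, 96479, 4727227, 269, 6607, 63727, 23, 1993, 71, 733, 11, 19, 29, 113, 137, 269, 138289, 281, 0, 31, 1918991, 179, 33739, 0, 31, 880709, 11, 89, 0, 43, 31, 7972219, 47, 0, 0, 293, 2311, 0, 110651, 29, 29, 89, 211, 11, 22921, 6689, 293, 41, 29, 0, 0, 510127, 109, 331, 0, 433, 0, 2207, 291112307, 11, 191, 1240097, 53, 167, 11, 11, 276623, 1190887889] _ (by decide +kernel) (by decide +kernel) fer_3145 (by decide +kernel)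

end Pool.Agent.H495.Sun.Z7588
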