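import Pool.Agent.H495.Sun.Fer

set_option autoImplicit false
set_option maxRecDepth 100000

/-! Certificates for `k * (k + 1) ^ φ(7588 - k) + 1` with `3223 ≤ k < 3291`. -/

namespace Pool.Agent.H495.Sun.Z7588

theorem fer_3223 : ∀ k ∈ [3223, 3224, 3229, 3243, 3244, 3245, 3247, 3250, 3255, 3268, 3285], ¬ (num 7588 k).Prime :=
  cons_ok (fk_spec 7588 3223 53 (by decide +kernel)) <|
  cons_ok (fk_spec 7588 3224 50 (by decide +kernel)) <|
  cons_ok (fk_spec 7588 3229 67 (by decide +kernel)) <|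
  cons_ok (fk_spec 7588 3243 72 (by decide +kernel)) <|
  cons_ok (fk_spec 7588 3244 33 (by decide +kernel)) <|
  cons_ok (fk_spec 7588 3245 96 (by decide +kernel)) <|
  cons_ok (fk_spec 7588 3247 66 (by decide +kernel)) <|
  cons_ok (fk_spec 7588 3250 33 (by decide +kernel)) <|
  cons_ok (fk_spec 7588 3255 85 (by decide +kernel)) <|
  cons_ok (fk_spec 7588 3268 27 (by decide +kernel)) <|
  cons_ok (fk_spec 7588 3285 91 (by decide +kernel)) <|
  nil_ok 7588

theorem rng_3223 : ∀ k, 3223 ≤ k → k < 3291 → ¬ (num 7588 k).Prime :=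
  range_of 7588 3223 3291 [0, 0, 13, 2663, 61819, 51347, 0, 852246001, 17, 29, 1333216327, 3088931, 2721227, 11, 387659, 101, 867438043, 59, 11, 12539, 0, 0, 0, 37, 0, 89, 1117, 0, 49633, 683, 73, 137, 0, 79, 5939, 11, 1305233, 23, 5, 47, 47, 107, 7, 103, 6841, 0, 47, 64937, 2591, 121037219, 11, 11, 16193, 307, 17, 191, 463, 23, 107, 19, 37, 41, 0, 13163, 163, 2027, 19, 53] _ (by decide +kernel) (by decide +kernel) fer_3223 (by decide +kernel)

end Pool.Agent.H495.Sun.Z7588
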