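import Pool.Agent.H495.Sun.Fer

set_option autoImplicit false
set_option maxRecDepth 100000

/-! Certificates for `k * (k + 1) ^ φ(7588 - k) + 1` with `3291 ≤ k < 3363`. -/

namespace Pool.Agent.H495.Sun.Z7588

theorem fer_3291 : ∀ k ∈ [3291, 3292, 3306, 3309, 3317, 3318, 3323, 3324, 3328, 3331, 3333, 3360, 3361], ¬ (num 7588 k).Prime :=
  cons_ok (fk_spec 7588 3291 99 (by decide +kernel)) <|
  cons_ok (fk_spec 7588 3292 33 (by decide +kernel)) <|
  cons_ok (fk_spec 7588 3306 49 (by decide +kernel)) <|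
  cons_ok (fk_spec 7588 3309 89 (by decide +kernel)) <|
  cons_ok (fk_spec 7588 3317 98 (by decide +kernel)) <|
  cons_ok (fk_spec 7588 3318 33 (by decide +kernel)) <|
  cons_ok (fk_spec 7588 3323 78 (by decide +kernel)) <|
  cons_ok (fk_spec 7588 3324 44 (by decide +kernel)) <|
  cons_ok (fk_spec 7588 3328 26 (by decide +kernel)) <|
  cons_ok (fk_spec 7588 3331 58 (by decide +kernel)) <|
  cons_ok (fk_spec 7588 3333 73 (by decide +kernel)) <|
  cons_ok (fk_spec 7588 3360 42 (by decide +kernel)) <|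
  cons_ok (fk_spec 7588 3361 65 (by decide +kernel)) <|
  nil_ok 7588

theorem rng_3291 : ∀ k, 3291 ≤ k → k < 3363 → ¬ (num 7588 k).Prime :=
  range_of 7588 3291 3363 [0, 0, 839, 23, 11, 11, 11, 106703, 109, 139, 131, 1433, 16619, 181, 5009, 0, 7, 389, 0, 1171, 29, 57679, 147283, 19, 29, 167, 0, 0, 17, 37, 19, 23, 0, 0, 773, 5, 11597, 0, 53, 127, 0, 757, 0, 248797, 67, 17, 270709, 19, 41, 313, 223, 23, 643061, 546097, 23, 53, 1721, 131, 257, 443, 11, 53731, 137, 59, 293, 7, 16759, 11117, 31, 0, 0, 43] _ (by decide +kernel) (by decide +kernel) fer_3291 (by decide +kernel)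

end Pool.Agent.H495.Sun.Z7588
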