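import Pool.Agent.H495.Sun.Fer

set_option autoImplicit false
set_option maxRecDepth 100000

/-! Certificates for `k * (k + 1) ^ φ(7588 - k) + 1` with `3363 ≤ k < 3513`. -/

namespace Pool.Agent.H495.Sun.Z7588

theorem fer_3363 : ∀ k ∈ [3363, 3367, 3374, 3381, 3382, 3408, 3416, 3420, 3429, 3430, 3434, 3436, 3452, 3459, 3464, 3470, 3484, 3492, 3496, 3510], ¬ (num 7588 k).Prime :=
  cons_ok (fk_spec 7588 3363 72 (by decide +kernel)) <|
  cons_ok (fk_spec 7588 3367 55 (by decide +kernel)) <|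
  cons_ok (fk_spec 7588 3374 41 (by decide +kernel)) <|
  cons_ok (fk_spec 7588 3381 83 (by decide +kernel)) <|
  cons_ok (fk_spec 7588 3382 33 (by decide +kernel)) <|
  cons_ok (fk_spec 7588 3408 34 (by decide +kernel)) <|
  cons_ok (fk_spec 7588 3416 41 (by decide +kernel)) <|
  cons_ok (fk_spec 7588 3420 48 (by decide +kernel)) <|
  cons_ok (fk_spec 7588 3429 96 (by decide +kernel)) <|
  cons_ok (fk_spec 7588 3430 25 (by decide +kernel)) <|
  cons_ok (fk_spec 7588 3434 46 (by decide +kernel)) <|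
  cons_ok (fk_spec 7588 3436 32 (by decide +kernel)) <|
  cons_ok (fk_spec 7588 3452 43 (by decide +kernel)) <|
  cons_ok (fk_spec 7588 3459 95 (by decide +kernel)) <|
  cons_ok (fk_spec 7588 3464 48 (by decide +kernel)) <|
  cons_ok (fk_spec 7588 3470 46 (by decide +kernel)) <|
  cons_ok (fk_spec 7588 3484 30 (by decide +kernel)) <|
  cons_ok (fk_spec 7588 3492 48 (by decide +kernel)) <|
  cons_ok (fk_spec 7588 3496 28 (by decide +kernel)) <|
  cons_ok (fk_spec 7588 3510 47 (by decide +kernel)) <|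
  nil_ok 7588

theorem rng_3363 : ∀ k, 3363 ≤ k → k < 3513 → ¬ (num 7588 k).Prime :=
  range_of 7588 3363 3513 [0, 13, 127, 5, 0, 8974741, 11177, 47, 1667536417, 607, 709, 0, 2963, 173, 23, 37, 127, 167, 0, 0, 11, 17, 6343, 491, 16927, 71, 311153, 11, 5651, 83, 127, 19, 23, 19, 179, 53, 53, 167, 117989, 29, 405835349, 283, 11, 263, 11, 0, 1559, 1031, 83, 79, 191, 19, 37, 0, 11423, 229, 353, 0, 281131, 5281, 11, 47, 3863, 1831, 22409, 11, 0, 0, 115727, 19, 13751, 0, 691, 0, 31, 6079, 229, 101, 941, 43, 61, 47, 5171, 23, 71, 2909, 11, 3539, 11, 0, 19, 10973, 241, 31, 47, 1217, 0, 13971497, 5, 11, 227, 0, 409, 593, 43, 31, 12823, 0, 52249, 11, 29, 47, 193, 388560457, 256337, 11, 43, 61, 2309, 163, 124981, 0, 19, 443, 5501, 73, 11, 3453731, 79, 0, 11, 11, 11, 0, 35201, 522959, 337, 11, 569, 29, 439, 47, 71, 11, 27404413, 37507, 59239, 0, 67, 107] _ (by decide +kernel) (by decide +kernel) fer_3363 (by decide +kernel)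

end Pool.Agent.H495.Sun.Z7588
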