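import Pool.Agent.H495.Sun.Fer

set_option autoImplicit false
set_option maxRecDepth 100000

/-! Certificates for `k * (k + 1) ^ φ(7588 - k) + 1` with `3513 ≤ k < 3642`. -/

namespace Pool.Agent.H495.Sun.Z7588

theorem fer_3513 : ∀ k ∈ [3513, 3520, 3521, 3523, 3538, 3539, 3544, 3545, 3554, 3569, 3598, 3618, 3619, 3623, 3631, 3640], ¬ (num 7588 k).Prime :=
  cons_ok (fk_spec 7588 3513 75 (by decide +kernel)) <|
  cons_ok (fk_spec 7588 3520 31 (by decide +kernel)) <|
  cons_ok (fk_spec 7588 3521 80 (by decide +kernel)) <|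
  cons_ok (fk_spec 7588 3523 50 (by decide +kernel)) <|
  cons_ok (fk_spec 7588 3538 25 (by decide +kernel)) <|
  cons_ok (fk_spec 7588 3539 94 (by decide +kernel)) <|
  cons_ok (fk_spec 7588 3544 31 (by decide +kernel)) <|
  cons_ok (fk_spec 7588 3545 86 (by decide +kernel)) <|
  cons_ok (fk_spec 7588 3554 47 (by decide +kernel)) <|
  cons_ok (fk_spec 7588 3569 93 (by decide +kernel)) <|
  cons_ok (fk_spec 7588 3598 20 (by decide +kernel)) <|
  cons_ok (fk_spec 7588 3618 37 (by decide +kernel)) <|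
  cons_ok (fk_spec 7588 3619 53 (by decide +kernel)) <|
  cons_ok (fk_spec 7588 3623 67 (by decide +kernel)) <|
  cons_ok (fk_spec 7588 3631 61 (by decide +kernel)) <|
  cons_ok (fk_spec 7588 3640 26 (by decide +kernel)) <|
  nil_ok 7588

theorem rng_3513 : ∀ k, 3513 ≤ k → k < 3642 → ¬ (num 7588 k).Prime :=
  range_of 7588 3513 3642 [0, 1000313, 27579463, 31, 7, 439, 525241867, 0, 0, 11, 0, 23, 4085561, 14951, 50581, 419, 287393, 149, 733, 4243, 79, 23, 1049, 37, 13, 0, 0, 31, 101, 19, 937, 0, 0, 19, 33413, 167, 11, 1535767, 241, 107, 23, 0, 11, 371939, 20149, 83, 31721, 5791, 5, 1063, 47, 7028563, 1289, 5, 7272767, 1129, 0, 463, 29, 13, 29, 317, 19, 2848369, 43, 133781, 236399, 7, 5, 1871, 11, 137, 9949, 251, 19, 797, 1010944579, 37, 17, 317, 151, 19, 50527, 3319, 284783, 0, 11, 2417, 8929931, 61, 61, 19, 2162387, 439, 1939033, 43, 29, 53, 6959, 79, 61, 557, 53, 151, 643, 0, 0, 439, 5, 19, 0, 231067, 271, 61, 11, 337, 103, 43, 0, 11, 41, 17,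 491, 11, 4363, 653, 17, 0, 5] _ (by decide +kernel) (by decide +kernel) fer_3513 (by decide +kernel)

end Pool.Agent.H495.Sun.Z7588
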