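import Pool.Agent.H495.Sun.Fer

set_option autoImplicit false
set_option maxRecDepth 100000

/-! Certificates for `k * (k + 1) ^ φ(7588 - k) + 1` with `3642 ≤ k < 3749`. -/

namespace Pool.Agent.H495.Sun.Z7588

theorem fer_3642 : ∀ k ∈ [3642, 3645, 3660, 3661, 3664, 3665, 3673, 3682, 3705, 3708, 3716, 3717, 3723, 3730, 3733, 3738, 3742, 3744, 3746], ¬ (num 7588 k).Prime :=
  cons_ok (fk_spec 7588 3642 46 (by decide +kernel)) <|
  cons_ok (fk_spec 7588 3645 92 (by decide +kernel)) <|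
  cons_ok (fk_spec 7588 3660 46 (by decide +kernel)) <|
  cons_ok (fk_spec 7588 3661 45 (by decide +kernel)) <|
  cons_ok (fk_spec 7588 3664 30 (by decide +kernel)) <|
  cons_ok (fk_spec 7588 3665 91 (by decide +kernel)) <|
  cons_ok (fk_spec 7588 3673 47 (by decide +kernel)) <|
  cons_ok (fk_spec 7588 3682 26 (by decide +kernel)) <|
  cons_ok (fk_spec 7588 3705 82 (by decide +kernel)) <|
  cons_ok (fk_spec 7588 3708 36 (by decide +kernel)) <|
  cons_ok (fk_spec 7588 3716 41 (by decide +kernel)) <|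
  cons_ok (fk_spec 7588 3717 76 (by decide +kernel)) <|
  cons_ok (fk_spec 7588 3723 72 (by decide +kernel)) <|
  cons_ok (fk_spec 7588 3730 30 (by decide +kernel)) <|
  cons_ok (fk_spec 7588 3733 48 (by decide +kernel)) <|
  cons_ok (fk_spec 7588 3738 28 (by decide +kernel)) <|
  cons_ok (fk_spec 7588 3742 30 (by decide +kernel)) <|
  cons_ok (fk_spec 7588 3744 44 (by decide +kernel)) <|
  cons_ok (fk_spec 7588 3746 42 (by decide +kernel)) <|
  nil_ok 7588

theorem rng_3642 : ∀ k, 3642 ≤ k → k < 3749 → ¬ (num 7588 k).Prime :=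
  range_of 7588 3642 3749 [0, 7, 18341, 0, 509, 29, 31, 23, 101, 17, 9029, 37, 11321389, 34877, 17, 17, 79, 29, 0, 0, 868256867, 43, 0, 0, 181, 230647, 331, 11, 67, 83, 3557, 0, 659, 229, 409, 2560339, 1427, 64290859, 71, 5, 0, 137, 8681, 7, 5, 61, 29, 139, 17, 12659, 149, 179, 15193, 7105991, 29, 149, 1722945443, 331289003, 43, 809, 11, 71, 37, 0, 7, 1637, 0, 257, 23, 37, 683, 19, 11, 509, 0, 0, 3643, 1157671, 184279, 7321, 631, 0, 1187, 45777101, 5, 67, 191, 557, 0, 2593, 19, 0, 199, 103, 23, 19, 0, 5345273, 293, 5, 0, 353, 0, 600054443, 0, 41, 74201] _ (by decide +kernel) (by decide +kernel) fer_3642 (by decide +kernel)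

end Pool.Agent.H495.Sun.Z7588
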