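import Pool.Agent.H495.Sun.Fer

set_option autoImplicit false
set_option maxRecDepth 100000

/-! Certificates for `k * (k + 1) ^ φ(7588 - k) + 1` with `3749 ≤ k < 3872`. -/

namespace Pool.Agent.H495.Sun.Z7588

theorem fer_3749 : ∀ k ∈ [3749, 3756, 3777, 3787, 3790, 3792, 3797, 3799, 3803, 3804, 3806, 3818, 3833, 3835, 3839, 3844, 3848, 3854], ¬ (num 7588 k).Prime :=
  cons_ok (fk_spec 7588 3749 81 (by decide +kernel)) <|
  cons_ok (fk_spec 7588 3756 45 (by decide +kernel)) <|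
  cons_ok (fk_spec 7588 3777 86 (by decide +kernel)) <|
  cons_ok (fk_spec 7588 3787 51 (by decide +kernel)) <|
  cons_ok (fk_spec 7588 3790 30 (by decide +kernel)) <|
  cons_ok (fk_spec 7588 3792 41 (by decide +kernel)) <|
  cons_ok (fk_spec 7588 3797 83 (by decide +kernel)) <|
  cons_ok (fk_spec 7588 3799 59 (by decide +kernel)) <|
  cons_ok (fk_spec 7588 3803 71 (by decide +kernel)) <|
  cons_ok (fk_spec 7588 3804 40 (by decide +kernel)) <|
  cons_ok (fk_spec 7588 3806 42 (by decide +kernel)) <|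
  cons_ok (fk_spec 7588 3818 32 (by decide +kernel)) <|
  cons_ok (fk_spec 7588 3833 70 (by decide +kernel)) <|
  cons_ok (fk_spec 7588 3835 58 (by decide +kernel)) <|
  cons_ok (fk_spec 7588 3839 83 (by decide +kernel)) <|
  cons_ok (fk_spec 7588 3844 27 (by decide +kernel)) <|
  cons_ok (fk_spec 7588 3848 30 (by decide +kernel)) <|
  cons_ok (fk_spec 7588 3854 44 (by decide +kernel)) <|
  nil_ok 7588

theorem rng_3749 : ∀ k, 3749 ≤ k → k < 3872 → ¬ (num 7588 k).Prime :=
  range_of 7588 3749 3872 [0, 78697, 670416079, 1366163, 27077, 2351, 71, 0, 23567, 1447, 101, 877, 487, 197, 89, 3347, 4817, 277513, 6449, 313, 11, 1971667, 7079, 281, 347, 43, 79111, 7, 0, 26891, 23, 11, 461, 47, 205129, 71, 83, 71, 0, 62819, 97, 0, 11, 0, 13, 117841, 1277, 31963, 0, 355073, 0, 73, 941, 23, 0, 0, 697272617, 0, 101, 877, 271, 67, 7, 6983, 18133, 11, 23, 71881, 193, 0, 11, 2437, 5, 37, 271, 127, 16217, 461479, 59417, 164569, 43, 11, 19, 229, 0, 19, 0, 487, 701,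 7283723, 0, 31, 29, 1523, 127, 0, 11, 5, 11, 0, 13, 137, 30949, 19, 103, 0, 17, 257, 71, 109, 340757, 7, 5, 241, 487, 47, 1187, 28109, 47, 71, 739, 317, 257] _ (by decide +kernel) (by decide +kernel) fer_3749 (by decide +kernel)

end Pool.Agent.H495.Sun.Z7588
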