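import Pool.Agent.H495.Sun.Fer

set_option autoImplicit false
set_option maxRecDepth 100000

/-! Certificates for `k * (k + 1) ^ φ(7588 - k) + 1` with `3872 ≤ k < 4019`. -/

namespace Pool.Agent.H495.Sun.Z7588

theorem fer_3872 : ∀ k ∈ [3872, 3876, 3880, 3904, 3908, 3909, 3913, 3919, 3922, 3924, 3928, 3934, 3958, 3969, 3974, 3975, 3985, 3987, 3997, 3998, 4009, 4016, 4017], ¬ (num 7588 k).Prime :=
  cons_ok (fk_spec 7588 3872 44 (by decide +kernel)) <|
  cons_ok (fk_spec 7588 3876 42 (by decide +kernel)) <|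
  cons_ok (fk_spec 7588 3880 29 (by decide +kernel)) <|
  cons_ok (fk_spec 7588 3904 29 (by decide +kernel)) <|
  cons_ok (fk_spec 7588 3908 33 (by decide +kernel)) <|
  cons_ok (fk_spec 7588 3909 79 (by decide +kernel)) <|
  cons_ok (fk_spec 7588 3913 40 (by decide +kernel)) <|
  cons_ok (fk_spec 7588 3919 58 (by decide +kernel)) <|
  cons_ok (fk_spec 7588 3922 26 (by decide +kernel)) <|
  cons_ok (fk_spec 7588 3924 43 (by decide +kernel)) <|
  cons_ok (fk_spec 7588 3928 23 (by decide +kernel)) <|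
  cons_ok (fk_spec 7588 3934 24 (by decide +kernel)) <|
  cons_ok (fk_spec 7588 3958 21 (by decide +kernel)) <|
  cons_ok (fk_spec 7588 3969 65 (by decide +kernel)) <|
  cons_ok (fk_spec 7588 3974 39 (by decide +kernel)) <|
  cons_ok (fk_spec 7588 3975 85 (by decide +kernel)) <|
  cons_ok (fk_spec 7588 3985 57 (by decide +kernel)) <|
  cons_ok (fk_spec 7588 3987 78 (by decide +kernel)) <|
  cons_ok (fk_spec 7588 3997 46 (by decide +kernel)) <|
  cons_ok (fk_spec 7588 3998 34 (by decide +kernel)) <|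
  cons_ok (fk_spec 7588 4009 56 (by decide +kernel)) <|
  cons_ok (fk_spec 7588 4016 39 (by decide +kernel)) <|
  cons_ok (fk_spec 7588 4017 84 (by decide +kernel)) <|
  nil_ok 7588

theorem rng_3872 : ∀ k, 3872 ≤ k → k < 4019 → ¬ (num 7588 k).Prime :=
  range_of 7588 3872 4019 [0, 191, 429139, 479, 0, 503, 11, 29, 0, 8677, 29873, 40543, 19, 290243, 3889, 331, 1993, 11, 11, 1531, 23, 702398003, 289973, 1061, 37, 21991, 233, 1979, 3121, 11, 5741, 19, 0, 631, 17, 11, 0, 0, 9769, 17, 11, 0, 17, 233, 9311, 19, 199, 0, 827, 43, 0, 21871, 0, 107, 5, 1301, 0, 11, 665054389, 1013, 13577, 11, 0, 26407, 13, 7, 419, 163, 317, 15583, 157, 5749, 7, 19, 11, 503, 1117, 37, 1531, 821, 315493, 647, 41, 197, 1741, 439, 0, 229082387, 19, 22303, 101, 23, 349, 3847, 5, 593071, 1690757, 0, 1489, 26840477, 8893, 4799, 0, 0, 3163, 47, 43, 293, 405553, 5, 53, 43, 23, 0, 83, 0, 991, 2039, 1192349, 179, 859, 547, 1163, 821, 127, 0, 0, 376853, 11, 167, 197, 977, 1938217,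 13, 11, 41849, 29, 0, 11, 179, 23, 25127, 17, 401, 0, 0, 83] _ (by decide +kernel) (by decide +kernel) fer_3872 (by decide +kernel)

end Pool.Agent.H495.Sun.Z7588
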