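import Pool.Agent.H495.Sun.Fer

set_option autoImplicit false
set_option maxRecDepth 100000

/-! Certificates for `k * (k + 1) ^ φ(7588 - k) + 1` with `4019 ≤ k < 4166`. -/

namespace Pool.Agent.H495.Sun.Z7588

theorem fer_4019 : ∀ k ∈ [4019, 4020, 4038, 4043, 4056, 4057, 4063, 4086, 4091, 4107, 4119, 4123, 4132, 4139, 4147, 4148, 4161, 4162], ¬ (num 7588 k).Prime :=
  cons_ok (fk_spec 7588 4019 81 (by decide +kernel)) <|
  cons_ok (fk_spec 7588 4020 42 (by decide +kernel)) <|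
  cons_ok (fk_spec 7588 4038 33 (by decide +kernel)) <|
  cons_ok (fk_spec 7588 4043 67 (by decide +kernel)) <|
  cons_ok (fk_spec 7588 4056 42 (by decide +kernel)) <|
  cons_ok (fk_spec 7588 4057 50 (by decide +kernel)) <|
  cons_ok (fk_spec 7588 4063 44 (by decide +kernel)) <|
  cons_ok (fk_spec 7588 4086 39 (by decide +kernel)) <|
  cons_ok (fk_spec 7588 4091 76 (by decide +kernel)) <|
  cons_ok (fk_spec 7588 4107 81 (by decide +kernel)) <|
  cons_ok (fk_spec 7588 4119 82 (by decide +kernel)) <|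
  cons_ok (fk_spec 7588 4123 34 (by decide +kernel)) <|
  cons_ok (fk_spec 7588 4132 28 (by decide +kernel)) <|
  cons_ok (fk_spec 7588 4139 81 (by decide +kernel)) <|
  cons_ok (fk_spec 7588 4147 51 (by decide +kernel)) <|
  cons_ok (fk_spec 7588 4148 32 (by decide +kernel)) <|
  cons_ok (fk_spec 7588 4161 77 (by decide +kernel)) <|
  cons_ok (fk_spec 7588 4162 27 (by decide +kernel)) <|
  nil_ok 7588

theorem rng_4019 : ∀ k, 4019 ≤ k → k < 4166 → ¬ (num 7588 k).Prime :=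
  range_of 7588 4019 4166 [0, 0, 7, 53, 37, 829, 67, 31, 13, 11, 7346191, 2687, 257, 823, 881, 53, 62987, 337, 28740791, 0, 23, 13, 5, 59, 0, 23, 1913, 101, 17, 2339, 139, 787, 44087, 101749, 911, 101, 151, 0, 0, 67, 217122259, 101, 5, 373, 0, 154579, 149, 13, 11, 19, 43, 13, 107, 11, 59, 179, 379, 23, 227, 23, 13, 1604081, 1061, 47, 1231, 149, 3061, 0, 11, 53, 503, 13187, 0, 4271, 13037, 137, 1913, 433, 1567, 13116569, 23, 541, 61, 29, 277, 41, 11, 396849721, 0, 2423, 509, 11, 23, 19, 257, 61, 17, 443, 1103, 2089, 0, 11, 5, 11, 0, 9679, 139, 5884171, 17, 37, 47, 43, 23, 0, 627673, 37, 17, 23, 14728391, 269, 0, 29, 53, 1249, 11, 103, 67, 199, 0, 0, 97, 23, 28867, 29, 191, 167, 11, 197, 73063, 16889, 6389, 29, 0, 0, 19, 59, 11783] _ (by decide +kernel) (by decide +kernel) fer_4019 (by decide +kernel)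

end Pool.Agent.H495.Sun.Z7588
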