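import Pool.Agent.H495.Sun.Fer

set_option autoImplicit false
set_option maxRecDepth 100000

/-! Certificates for `k * (k + 1) ^ φ(7588 - k) + 1` with `4166 ≤ k < 4399`. -/

namespace Pool.Agent.H495.Sun.Z7588

theorem fer_4166 : ∀ k ∈ [4166, 4168, 4178, 4180, 4182, 4204, 4215, 4233, 4238, 4242, 4250, 4252, 4253, 4254, 4267, 4272, 4274, 4275, 4282, 4291, 4292, 4294, 4296, 4298, 4323, 4328, 4336, 4347, 4359, 4364, 4368, 4369, 4375], ¬ (num 7588 k).Prime :=
  cons_ok (fk_spec 7588 4166 39 (by decide +kernel)) <|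
  cons_ok (fk_spec 7588 4168 21 (by decide +kernel)) <|
  cons_ok (fk_spec 7588 4178 29 (by decide +kernel)) <|
  cons_ok (fk_spec 7588 4180 27 (by decide +kernel)) <|
  cons_ok (fk_spec 7588 4182 37 (by decide +kernel)) <|
  cons_ok (fk_spec 7588 4204 26 (by decide +kernel)) <|
  cons_ok (fk_spec 7588 4215 80 (by decide +kernel)) <|
  cons_ok (fk_spec 7588 4233 57 (by decide +kernel)) <|
  cons_ok (fk_spec 7588 4238 32 (by decide +kernel)) <|
  cons_ok (fk_spec 7588 4242 34 (by decide +kernel)) <|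
  cons_ok (fk_spec 7588 4250 40 (by decide +kernel)) <|
  cons_ok (fk_spec 7588 4252 27 (by decide +kernel)) <|
  cons_ok (fk_spec 7588 4253 59 (by decide +kernel)) <|
  cons_ok (fk_spec 7588 4254 40 (by decide +kernel)) <|
  cons_ok (fk_spec 7588 4267 51 (by decide +kernel)) <|
  cons_ok (fk_spec 7588 4272 40 (by decide +kernel)) <|
  cons_ok (fk_spec 7588 4274 40 (by decide +kernel)) <|
  cons_ok (fk_spec 7588 4275 79 (by decide +kernel)) <|
  cons_ok (fk_spec 7588 4282 24 (by decide +kernel)) <|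
  cons_ok (fk_spec 7588 4291 45 (by decide +kernel)) <|
  cons_ok (fk_spec 7588 4292 39 (by decide +kernel)) <|
  cons_ok (fk_spec 7588 4294 26 (by decide +kernel)) <|
  cons_ok (fk_spec 7588 4296 39 (by decide +kernel)) <|
  cons_ok (fk_spec 7588 4298 27 (by decide +kernel)) <|
  cons_ok (fk_spec 7588 4323 62 (by decide +kernel)) <|
  cons_ok (fk_spec 7588 4328 31 (by decide +kernel)) <|
  cons_ok (fk_spec 7588 4336 26 (by decide +kernel)) <|
  cons_ok (fk_spec 7588 4347 66 (by decide +kernel)) <|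
  cons_ok (fk_spec 7588 4359 77 (by decide +kernel)) <|
  cons_ok (fk_spec 7588 4364 35 (by decide +kernel)) <|
  cons_ok (fk_spec 7588 4368 25 (by decide +kernel)) <|
  cons_ok (fk_spec 7588 4369 48 (by decide +kernel)) <|
  cons_ok (fk_spec 7588 4375 41 (by decide +kernel)) <|
  nil_ok 7588

theorem rng_4166 : ∀ k, 4166 ≤ k → k < 4399 → ¬ (num 7588 k).Prime :=
  range_of 7588 4166 4399 [0, 49157, 0, 19, 641, 184850573, 59, 59, 54251, 19, 690929, 23, 0, 2161, 0, 5, 0, 13, 5471, 167, 17, 20353, 113, 1424815549, 1920227, 577, 3558001, 367, 443, 367, 7, 137, 11, 1579, 157, 389, 73897, 47, 0, 41, 109, 19, 11, 9091, 7, 1291489, 53, 3903337, 17137, 0, 173, 1069, 709349, 3702901, 199961, 11, 47, 467, 202753, 333673, 73, 809, 179, 23, 229, 107, 241, 0, 13967, 142601, 61, 5297, 0, 79111, 71191, 5, 0, 11549, 31649, 19, 167, 53, 11, 809, 0, 17, 0, 0, 0, 67, 3364873, 1361, 4729, 11, 293, 13, 163673, 67, 67, 11, 37, 0, 1631059, 41, 31, 17, 0, 1713513323,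 0, 0, 1123, 167, 53, 4801, 7, 5, 0, 19, 5261, 17, 6917, 19, 12941, 31, 3299, 0, 0, 50423, 0, 5078581, 0, 29, 0, 47, 13, 29, 19, 11, 15581, 31, 23, 1601, 7, 41, 47, 7669, 101, 13, 17, 7, 50587, 13, 709, 11, 11, 2999, 36979, 0, 31, 14029, 4337, 101, 0, 11, 29, 103, 223, 761, 1454839, 137, 0, 499559, 167, 241, 19, 23, 92353, 183917, 23, 700319, 1447, 0, 1493, 101, 11467, 11, 11, 89, 2087, 3825851, 363313, 103, 61, 0, 563, 239, 41, 19, 0, 71, 271, 44729, 0, 0, 43, 205753553, 61, 11, 11, 0, 16729, 257, 7, 367, 95383, 317, 1117, 29, 127, 29, 4567, 54959, 569, 23, 23, 38977, 7, 181, 31, 139267, 1193, 47, 79] _ (by decide +kernel) (by decide +kernel) fer_4166 (by decide +kernel)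

end Pool.Agent.H495.Sun.Z7588
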