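import Pool.Agent.H495.Sun.Fer

set_option autoImplicit false
set_option maxRecDepth 100000

/-! Certificates for `k * (k + 1) ^ φ(7588 - k) + 1` with `4399 ≤ k < 4547`. -/

namespace Pool.Agent.H495.Sun.Z7588

theorem fer_4399 : ∀ k ∈ [4399, 4405, 4412, 4413, 4414, 4416, 4417, 4422, 4424, 4434, 4438, 4443, 4452, 4454, 4473, 4480, 4483, 4487, 4488, 4498, 4502, 4509, 4510, 4518, 4522, 4527, 4535, 4539, 4541, 4544], ¬ (num 7588 k).Prime :=
  cons_ok (fk_spec 7588 4399 51 (by decide +kernel)) <|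
  cons_ok (fk_spec 7588 4405 51 (by decide +kernel)) <|
  cons_ok (fk_spec 7588 4412 38 (by decide +kernel)) <|
  cons_ok (fk_spec 7588 4413 60 (by decide +kernel)) <|
  cons_ok (fk_spec 7588 4414 24 (by decide +kernel)) <|
  cons_ok (fk_spec 7588 4416 35 (by decide +kernel)) <|
  cons_ok (fk_spec 7588 4417 43 (by decide +kernel)) <|
  cons_ok (fk_spec 7588 4422 38 (by decide +kernel)) <|
  cons_ok (fk_spec 7588 4424 32 (by decide +kernel)) <|
  cons_ok (fk_spec 7588 4434 35 (by decide +kernel)) <|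
  cons_ok (fk_spec 7588 4438 18 (by decide +kernel)) <|
  cons_ok (fk_spec 7588 4443 55 (by decide +kernel)) <|
  cons_ok (fk_spec 7588 4452 32 (by decide +kernel)) <|
  cons_ok (fk_spec 7588 4454 38 (by decide +kernel)) <|
  cons_ok (fk_spec 7588 4473 51 (by decide +kernel)) <|
  cons_ok (fk_spec 7588 4480 21 (by decide +kernel)) <|
  cons_ok (fk_spec 7588 4483 38 (by decide +kernel)) <|
  cons_ok (fk_spec 7588 4487 63 (by decide +kernel)) <|
  cons_ok (fk_spec 7588 4488 29 (by decide +kernel)) <|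
  cons_ok (fk_spec 7588 4498 20 (by decide +kernel)) <|
  cons_ok (fk_spec 7588 4502 37 (by decide +kernel)) <|
  cons_ok (fk_spec 7588 4509 73 (by decide +kernel)) <|
  cons_ok (fk_spec 7588 4510 24 (by decide +kernel)) <|
  cons_ok (fk_spec 7588 4518 30 (by decide +kernel)) <|
  cons_ok (fk_spec 7588 4522 21 (by decide +kernel)) <|
  cons_ok (fk_spec 7588 4527 73 (by decide +kernel)) <|
  cons_ok (fk_spec 7588 4535 70 (by decide +kernel)) <|
  cons_ok (fk_spec 7588 4539 73 (by decide +kernel)) <|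
  cons_ok (fk_spec 7588 4541 66 (by decide +kernel)) <|
  cons_ok (fk_spec 7588 4544 37 (by decide +kernel)) <|
  nil_ok 7588

theorem rng_4399 : ∀ k, 4399 ≤ k → k < 4547 → ¬ (num 7588 k).Prime :=
  range_of 7588 4399 4547 [0, 47, 5, 107, 151, 278533163, 0, 53, 17, 11, 131, 5647, 2377, 0, 0, 0, 57427, 0, 0, 641, 1129, 19, 5, 0, 51383, 0, 455933, 1723, 23, 11, 127, 37, 23, 271, 5857, 0, 19, 373, 19541, 0, 227, 11299, 7, 53, 0, 37, 149, 5, 137, 1021, 120157327, 17, 11, 0, 167, 0, 379, 1451, 911, 19, 29, 67, 3333277, 7, 59, 157, 232621, 491, 919, 11, 61, 181, 12073, 9675109, 0, 11, 139, 163, 181, 19, 11, 0, 2851, 7039, 0, 11, 6217, 19, 0, 0, 596929, 11, 37811, 41, 61141, 4663, 13, 10949, 7582703, 0, 317, 451433207, 17, 0, 367, 29, 43, 17, 11, 378941, 0, 0, 151, 125261, 2683, 4519, 109, 19, 29, 0, 403078579, 3853, 5, 0, 11, 541, 37, 5, 0, 29, 9050039, 19, 359, 7, 41, 13, 0, 691, 4643, 229, 0, 11883169, 0, 74531, 5393, 0, 11, 29] _ (by decide +kernel)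 (by decide +kernel) fer_4399 (by decide +kernel)

end Pool.Agent.H495.Sun.Z7588
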