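import Pool.Agent.H495.Sun.Fer

set_option autoImplicit false
set_option maxRecDepth 100000

/-! Certificates for `k * (k + 1) ^ φ(7588 - k) + 1` with `4547 ≤ k < 4675`. -/

namespace Pool.Agent.H495.Sun.Z7588

theorem fer_4547 : ∀ k ∈ [4547, 4548, 4556, 4570, 4571, 4575, 4582, 4583, 4590, 4592, 4595, 4597, 4607, 4625, 4629, 4634, 4645, 4653, 4656, 4660, 4665, 4667, 4668], ¬ (num 7588 k).Prime :=
  cons_ok (fk_spec 7588 4547 73 (by decide +kernel)) <|
  cons_ok (fk_spec 7588 4548 28 (by decide +kernel)) <|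
  cons_ok (fk_spec 7588 4556 36 (by decide +kernel)) <|
  cons_ok (fk_spec 7588 4570 24 (by decide +kernel)) <|
  cons_ok (fk_spec 7588 4571 62 (by decide +kernel)) <|
  cons_ok (fk_spec 7588 4575 68 (by decide +kernel)) <|
  cons_ok (fk_spec 7588 4582 24 (by decide +kernel)) <|
  cons_ok (fk_spec 7588 4583 58 (by decide +kernel)) <|
  cons_ok (fk_spec 7588 4590 36 (by decide +kernel)) <|
  cons_ok (fk_spec 7588 4592 31 (by decide +kernel)) <|
  cons_ok (fk_spec 7588 4595 69 (by decide +kernel)) <|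
  cons_ok (fk_spec 7588 4597 48 (by decide +kernel)) <|
  cons_ok (fk_spec 7588 4607 65 (by decide +kernel)) <|
  cons_ok (fk_spec 7588 4625 71 (by decide +kernel)) <|
  cons_ok (fk_spec 7588 4629 64 (by decide +kernel)) <|
  cons_ok (fk_spec 7588 4634 30 (by decide +kernel)) <|
  cons_ok (fk_spec 7588 4645 47 (by decide +kernel)) <|
  cons_ok (fk_spec 7588 4653 56 (by decide +kernel)) <|
  cons_ok (fk_spec 7588 4656 35 (by decide +kernel)) <|
  cons_ok (fk_spec 7588 4660 23 (by decide +kernel)) <|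
  cons_ok (fk_spec 7588 4665 67 (by decide +kernel)) <|
  cons_ok (fk_spec 7588 4667 67 (by decide +kernel)) <|
  cons_ok (fk_spec 7588 4668 28 (by decide +kernel)) <|
  nil_ok 7588

theorem rng_4547 : ∀ k, 4547 ≤ k → k < 4675 → ¬ (num 7588 k).Prime :=
  range_of 7588 4547 4675 [0, 0, 1031, 47, 58831, 24137, 311, 83, 61, 0, 191, 227, 199, 97, 11, 983, 151, 89, 909645409, 5, 631, 19, 136361, 0, 0, 31, 149, 19, 0, 30259, 97, 11, 7393, 131, 15641, 0, 0, 211, 43, 491, 19, 7, 11, 0, 107, 0, 18523, 11, 0, 593, 0, 34213, 2213, 1039, 563, 61, 31, 11, 23, 19, 0, 281857, 79, 150431, 31, 109, 4637, 163, 79, 7, 151, 661, 126962881, 29, 107, 233, 169836769, 281, 0, 3307, 11, 11, 0, 7, 31, 307, 11, 0, 13732643, 37, 233, 13, 13489963, 1601, 443, 17, 307, 11, 0, 5, 8263, 19, 2083, 1069, 7, 4943, 0, 59, 11, 0, 3457, 19, 997, 0, 5, 151, 98011, 523, 0, 67, 0, 0, 211, 11, 11, 11, 2357, 29] _ (by decide +kernel) (by decide +kernel) fer_4547 (by decide +kernel)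

end Pool.Agent.H495.Sun.Z7588
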