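import Pool.Agent.H495.Sun.Fer

set_option autoImplicit false
set_option maxRecDepth 100000

/-! Certificates for `k * (k + 1) ^ φ(7588 - k) + 1` with `4675 ≤ k < 4889`. -/

namespace Pool.Agent.H495.Sun.Z7588

theorem fer_4675 : ∀ k ∈ [4675, 4678, 4685, 4688, 4690, 4692, 4695, 4696, 4698, 4712, 4724, 4730, 4734, 4743, 4747, 4748, 4750, 4751, 4753, 4757, 4760, 4764, 4768, 4770, 4772, 4778, 4782, 4790, 4795, 4796, 4798, 4799, 4816, 4834, 4835, 4838, 4840, 4844, 4848, 4852, 4862, 4864, 4869, 4873, 4880], ¬ (num 7588 k).Prime :=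
  cons_ok (fk_spec 7588 4675 47 (by decide +kernel)) <|
  cons_ok (fk_spec 7588 4678 19 (by decide +kernel)) <|
  cons_ok (fk_spec 7588 4685 70 (by decide +kernel)) <|
  cons_ok (fk_spec 7588 4688 27 (by decide +kernel)) <|
  cons_ok (fk_spec 7588 4690 19 (by decide +kernel)) <|
  cons_ok (fk_spec 7588 4692 35 (by decide +kernel)) <|
  cons_ok (fk_spec 7588 4695 63 (by decide +kernel)) <|
  cons_ok (fk_spec 7588 4696 23 (by decide +kernel)) <|
  cons_ok (fk_spec 7588 4698 26 (by decide +kernel)) <|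
  cons_ok (fk_spec 7588 4712 35 (by decide +kernel)) <|
  cons_ok (fk_spec 7588 4724 34 (by decide +kernel)) <|
  cons_ok (fk_spec 7588 4730 35 (by decide +kernel)) <|
  cons_ok (fk_spec 7588 4734 35 (by decide +kernel)) <|
  cons_ok (fk_spec 7588 4743 55 (by decide +kernel)) <|
  cons_ok (fk_spec 7588 4747 46 (by decide +kernel)) <|
  cons_ok (fk_spec 7588 4748 27 (by decide +kernel)) <|
  cons_ok (fk_spec 7588 4750 21 (by decide +kernel)) <|
  cons_ok (fk_spec 7588 4751 68 (by decide +kernel)) <|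
  cons_ok (fk_spec 7588 4753 31 (by decide +kernel)) <|
  cons_ok (fk_spec 7588 4757 64 (by decide +kernel)) <|
  cons_ok (fk_spec 7588 4760 29 (by decide +kernel)) <|
  cons_ok (fk_spec 7588 4764 34 (by decide +kernel)) <|
  cons_ok (fk_spec 7588 4768 18 (by decide +kernel)) <|
  cons_ok (fk_spec 7588 4770 34 (by decide +kernel)) <|
  cons_ok (fk_spec 7588 4772 31 (by decide +kernel)) <|
  cons_ok (fk_spec 7588 4778 27 (by decide +kernel)) <|
  cons_ok (fk_spec 7588 4782 32 (by decide +kernel)) <|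
  cons_ok (fk_spec 7588 4790 34 (by decide +kernel)) <|
  cons_ok (fk_spec 7588 4795 37 (by decide +kernel)) <|
  cons_ok (fk_spec 7588 4796 34 (by decide +kernel)) <|
  cons_ok (fk_spec 7588 4798 18 (by decide +kernel)) <|
  cons_ok (fk_spec 7588 4799 67 (by decide +kernel)) <|
  cons_ok (fk_spec 7588 4816 18 (by decide +kernel)) <|
  cons_ok (fk_spec 7588 4834 21 (by decide +kernel)) <|
  cons_ok (fk_spec 7588 4835 66 (by decide +kernel)) <|
  cons_ok (fk_spec 7588 4838 24 (by decide +kernel)) <|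
  cons_ok (fk_spec 7588 4840 22 (by decide +kernel)) <|
  cons_ok (fk_spec 7588 4844 29 (by decide +kernel)) <|
  cons_ok (fk_spec 7588 4848 27 (by decide +kernel)) <|
  cons_ok (fk_spec 7588 4852 21 (by decide +kernel)) <|
  cons_ok (fk_spec 7588 4862 31 (by decide +kernel)) <|
  cons_ok (fk_spec 7588 4864 22 (by decide +kernel)) <|
  cons_ok (fk_spec 7588 4869 66 (by decide +kernel)) <|
  cons_ok (fk_spec 7588 4873 35 (by decide +kernel)) <|
  cons_ok (fk_spec 7588 4880 33 (by decide +kernel)) <|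
  nil_ok 7588

theorem rng_4675 : ∀ k, 4675 ≤ k → k < 4889 → ¬ (num 7588 k).Prime :=
  range_of 7588 4675 4889 [0, 43, 227, 0, 17, 373, 11, 19, 2451811, 61, 0, 5, 929, 0, 124121, 0, 29, 0, 11, 13, 0, 0, 1546901, 0, 11, 601, 5, 273517, 29, 18313, 17, 23, 257, 1069, 82353829, 11, 269, 0, 442531, 7, 11, 11, 1013, 113, 14591, 1360529, 26003, 59, 20233, 0, 11, 11, 17, 313, 13, 0, 97, 11, 2683, 0, 31, 4861, 71, 3881, 133388011, 41, 8191, 353, 0, 2909, 17, 1033, 0, 0, 61, 0, 0, 4789, 0, 79, 130477, 179, 0, 11, 426889, 0, 1601, 47, 7, 0, 479, 23, 857, 0, 11, 0, 11, 0, 116080589, 157, 251, 7054787, 970573, 0, 4280407, 839, 19, 0, 7103, 7, 13, 223, 655845133, 431, 29, 0, 29, 701221, 1303, 2029, 0, 0, 109, 0, 0, 1987, 269, 11, 276508867, 127, 7, 3391, 1453, 179, 1933571, 59, 4021, 71, 439, 11, 17, 0, 23, 29, 19, 13, 5, 233, 2129, 17, 11, 44543, 23, 19, 8395193, 109, 49033, 9345209, 29921, 0, 0, 247781, 37, 0, 31209043, 0, 11969, 71, 43, 0, 619, 61, 7844731,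 0, 449, 1699, 103, 0, 457, 5639, 157, 234271, 9514559, 11, 19, 53, 43, 0, 176557, 0, 99079, 83, 769, 467587, 0, 2503, 3967, 23, 0, 127, 113, 1483529, 29, 69697, 5953, 0, 5, 7, 179, 4751, 13, 1097, 82471, 379] _ (by decide +kernel) (by decide +kernel) fer_4675 (by decide +kernel)

end Pool.Agent.H495.Sun.Z7588
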