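import Pool.Agent.H495.Sun.Fer

set_option autoImplicit false
set_option maxRecDepth 100000

/-! Certificates for `k * (k + 1) ^ φ(7588 - k) + 1` with `4889 ≤ k < 5099`. -/

namespace Pool.Agent.H495.Sun.Z7588

theorem fer_4889 : ∀ k ∈ [4889, 4897, 4908, 4918, 4922, 4923, 4928, 4931, 4942, 4944, 4948, 4951, 4953, 4960, 4962, 4981, 4983, 4984, 4989, 4990, 4991, 4994, 4995, 4996, 4997, 5005, 5007, 5009, 5013, 5015, 5026, 5029, 5030, 5042, 5058, 5067, 5074, 5076], ¬ (num 7588 k).Prime :=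
  cons_ok (fk_spec 7588 4889 65 (by decide +kernel)) <|
  cons_ok (fk_spec 7588 4897 38 (by decide +kernel)) <|
  cons_ok (fk_spec 7588 4908 26 (by decide +kernel)) <|
  cons_ok (fk_spec 7588 4918 17 (by decide +kernel)) <|
  cons_ok (fk_spec 7588 4922 31 (by decide +kernel)) <|
  cons_ok (fk_spec 7588 4923 47 (by decide +kernel)) <|
  cons_ok (fk_spec 7588 4928 21 (by decide +kernel)) <|
  cons_ok (fk_spec 7588 4931 64 (by decide +kernel)) <|
  cons_ok (fk_spec 7588 4942 19 (by decide +kernel)) <|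
  cons_ok (fk_spec 7588 4944 32 (by decide +kernel)) <|
  cons_ok (fk_spec 7588 4948 16 (by decide +kernel)) <|
  cons_ok (fk_spec 7588 4951 43 (by decide +kernel)) <|
  cons_ok (fk_spec 7588 4953 47 (by decide +kernel)) <|
  cons_ok (fk_spec 7588 4960 21 (by decide +kernel)) <|
  cons_ok (fk_spec 7588 4962 29 (by decide +kernel)) <|
  cons_ok (fk_spec 7588 4981 38 (by decide +kernel)) <|
  cons_ok (fk_spec 7588 4983 50 (by decide +kernel)) <|
  cons_ok (fk_spec 7588 4984 18 (by decide +kernel)) <|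
  cons_ok (fk_spec 7588 4989 60 (by decide +kernel)) <|
  cons_ok (fk_spec 7588 4990 21 (by decide +kernel)) <|
  cons_ok (fk_spec 7588 4991 53 (by decide +kernel)) <|
  cons_ok (fk_spec 7588 4994 32 (by decide +kernel)) <|
  cons_ok (fk_spec 7588 4995 63 (by decide +kernel)) <|
  cons_ok (fk_spec 7588 4996 21 (by decide +kernel)) <|
  cons_ok (fk_spec 7588 4997 63 (by decide +kernel)) <|
  cons_ok (fk_spec 7588 5005 35 (by decide +kernel)) <|
  cons_ok (fk_spec 7588 5007 60 (by decide +kernel)) <|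
  cons_ok (fk_spec 7588 5009 62 (by decide +kernel)) <|
  cons_ok (fk_spec 7588 5013 49 (by decide +kernel)) <|
  cons_ok (fk_spec 7588 5015 60 (by decide +kernel)) <|
  cons_ok (fk_spec 7588 5026 18 (by decide +kernel)) <|
  cons_ok (fk_spec 7588 5029 41 (by decide +kernel)) <|
  cons_ok (fk_spec 7588 5030 31 (by decide +kernel)) <|
  cons_ok (fk_spec 7588 5042 29 (by decide +kernel)) <|
  cons_ok (fk_spec 7588 5058 22 (by decide +kernel)) <|
  cons_ok (fk_spec 7588 5067 61 (by decide +kernel)) <|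
  cons_ok (fk_spec 7588 5074 21 (by decide +kernel)) <|
  cons_ok (fk_spec 7588 5076 31 (by decide +kernel)) <|
  nil_ok 7588

theorem rng_4889 : ∀ k, 4889 ≤ k → k < 5099 → ¬ (num 7588 k).Prime :=
  range_of 7588 4889 5099 [0, 30841, 331, 683, 227, 71, 23, 1741, 0, 636673, 47, 23537, 5, 41, 7, 373, 842960687, 179, 29, 0, 3461, 1187, 37, 11, 101, 17, 347, 701, 201653, 0, 73111127, 2815009, 149, 0, 0, 41, 11, 5, 73, 0, 19, 41, 0, 73, 19, 1095047, 59, 1259, 23, 7, 23, 17299, 5, 0, 185543, 0, 7, 263, 55457, 0, 59, 103, 0, 7, 0, 8860429, 19, 1973, 22367, 2539, 277, 0, 1973, 0, 67, 911, 419, 59, 53, 4493, 423257, 1607, 19, 823, 47, 101, 31, 13, 2531, 389, 3230393, 862181, 0, 3257, 0, 0, 11, 371251, 31, 23, 0, 0, 0, 29, 61, 0, 0, 0, 0, 23, 17, 1747, 11, 13, 59, 5189, 0, 5, 0, 82799, 0, 21341, 17, 11, 0, 101, 0, 17, 107, 401, 421, 7331, 547, 29, 11, 347, 23, 0, 11443, 13451, 0, 0, 23, 12343, 11, 11, 853, 83, 139, 103, 31, 11, 56401, 0, 43, 107, 293,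 107, 19, 3077279, 19463, 17, 599, 47, 2789, 1741, 11, 593, 122347, 0, 373, 593, 197, 19, 304709, 20903, 149791, 61, 0, 67, 103, 31, 7, 21787, 11, 0, 883, 0, 4463, 557, 912405721, 6337, 29, 1091, 101, 11, 227, 718381, 691, 157, 1572407, 10429, 207173683, 827, 1553, 23, 4651259, 37, 29, 139] _ (by decide +kernel) (by decide +kernel) fer_4889 (by decide +kernel)

end Pool.Agent.H495.Sun.Z7588
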