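import Pool.Agent.H495.Sun.Fer

set_option autoImplicit false
set_option maxRecDepth 100000

/-! Certificates for `k * (k + 1) ^ φ(7588 - k) + 1` with `5099 ≤ k < 5386`. -/

namespace Pool.Agent.H495.Sun.Z7588

theorem fer_5099 : ∀ k ∈ [5099, 5104, 5108, 5116, 5124, 5131, 5134, 5139, 5146, 5150, 5154, 5166, 5173, 5176, 5179, 5181, 5182, 5191, 5192, 5193, 5210, 5213, 5215, 5219, 5220, 5222, 5223, 5233, 5237, 5247, 5253, 5256, 5257, 5263, 5270, 5276, 5279, 5280, 5282, 5292, 5295, 5304, 5313, 5318, 5326, 5329, 5337, 5342, 5349, 5351, 5367, 5369, 5376, 5380], ¬ (num 7588 k).Prime :=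
  cons_ok (fk_spec 7588 5099 57 (by decide +kernel)) <|
  cons_ok (fk_spec 7588 5104 20 (by decide +kernel)) <|
  cons_ok (fk_spec 7588 5108 24 (by decide +kernel)) <|
  cons_ok (fk_spec 7588 5116 20 (by decide +kernel)) <|
  cons_ok (fk_spec 7588 5124 24 (by decide +kernel)) <|
  cons_ok (fk_spec 7588 5131 32 (by decide +kernel)) <|
  cons_ok (fk_spec 7588 5134 20 (by decide +kernel)) <|
  cons_ok (fk_spec 7588 5139 57 (by decide +kernel)) <|
  cons_ok (fk_spec 7588 5146 18 (by decide +kernel)) <|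
  cons_ok (fk_spec 7588 5150 28 (by decide +kernel)) <|
  cons_ok (fk_spec 7588 5154 30 (by decide +kernel)) <|
  cons_ok (fk_spec 7588 5166 25 (by decide +kernel)) <|
  cons_ok (fk_spec 7588 5173 26 (by decide +kernel)) <|
  cons_ok (fk_spec 7588 5176 20 (by decide +kernel)) <|
  cons_ok (fk_spec 7588 5179 35 (by decide +kernel)) <|
  cons_ok (fk_spec 7588 5181 56 (by decide +kernel)) <|
  cons_ok (fk_spec 7588 5182 20 (by decide +kernel)) <|
  cons_ok (fk_spec 7588 5191 36 (by decide +kernel)) <|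
  cons_ok (fk_spec 7588 5192 29 (by decide +kernel)) <|
  cons_ok (fk_spec 7588 5193 47 (by decide +kernel)) <|
  cons_ok (fk_spec 7588 5210 28 (by decide +kernel)) <|
  cons_ok (fk_spec 7588 5213 44 (by decide +kernel)) <|
  cons_ok (fk_spec 7588 5215 33 (by decide +kernel)) <|
  cons_ok (fk_spec 7588 5219 55 (by decide +kernel)) <|
  cons_ok (fk_spec 7588 5220 28 (by decide +kernel)) <|
  cons_ok (fk_spec 7588 5222 23 (by decide +kernel)) <|
  cons_ok (fk_spec 7588 5223 41 (by decide +kernel)) <|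
  cons_ok (fk_spec 7588 5233 31 (by decide +kernel)) <|
  cons_ok (fk_spec 7588 5237 57 (by decide +kernel)) <|
  cons_ok (fk_spec 7588 5247 57 (by decide +kernel)) <|
  cons_ok (fk_spec 7588 5253 46 (by decide +kernel)) <|
  cons_ok (fk_spec 7588 5256 26 (by decide +kernel)) <|
  cons_ok (fk_spec 7588 5257 32 (by decide +kernel)) <|
  cons_ok (fk_spec 7588 5263 29 (by decide +kernel)) <|
  cons_ok (fk_spec 7588 5270 27 (by decide +kernel)) <|
  cons_ok (fk_spec 7588 5276 27 (by decide +kernel)) <|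
  cons_ok (fk_spec 7588 5279 56 (by decide +kernel)) <|
  cons_ok (fk_spec 7588 5280 28 (by decide +kernel)) <|
  cons_ok (fk_spec 7588 5282 28 (by decide +kernel)) <|
  cons_ok (fk_spec 7588 5292 24 (by decide +kernel)) <|
  cons_ok (fk_spec 7588 5295 56 (by decide +kernel)) <|
  cons_ok (fk_spec 7588 5304 28 (by decide +kernel)) <|
  cons_ok (fk_spec 7588 5313 35 (by decide +kernel)) <|
  cons_ok (fk_spec 7588 5318 22 (by decide +kernel)) <|
  cons_ok (fk_spec 7588 5326 17 (by decide +kernel)) <|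
  cons_ok (fk_spec 7588 5329 37 (by decide +kernel)) <|
  cons_ok (fk_spec 7588 5337 55 (by decide +kernel)) <|
  cons_ok (fk_spec 7588 5342 28 (by decide +kernel)) <|
  cons_ok (fk_spec 7588 5349 55 (by decide +kernel)) <|
  cons_ok (fk_spec 7588 5351 55 (by decide +kernel)) <|
  cons_ok (fk_spec 7588 5367 54 (by decide +kernel)) <|
  cons_ok (fk_spec 7588 5369 46 (by decide +kernel)) <|
  cons_ok (fk_spec 7588 5376 23 (by decide +kernel)) <|
  cons_ok (fk_spec 7588 5380 18 (by decide +kernel)) <|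
  nil_ok 7588

theorem rng_5099 : ∀ k, 5099 ≤ k → k < 5386 → ¬ (num 7588 k).Prime :=
  range_of 7588 5099 5386 [0, 67, 9186461, 47, 359, 0, 259858211, 43, 140897, 0, 977, 29, 11, 827, 2063, 59, 487, 0, 37, 59, 67, 7, 5, 11, 11, 0, 3499, 5, 1303, 2503, 29, 2753, 0, 13093169, 19, 0, 17, 8329, 3947, 19, 0, 271, 5, 53, 10651, 43, 47, 0, 43, 251, 23, 0, 139, 47, 3217, 0, 1283, 11, 19, 5903, 608213, 2791, 1139755369, 43, 159541, 37, 1151, 0, 23, 101, 8761, 599, 1361, 1753, 0, 401, 151, 0, 131, 120223, 0, 108013, 0, 0, 11, 6569, 1621, 199, 11, 6581, 67, 23, 0, 0, 0, 11, 29, 397, 7, 53, 1889, 11, 13951417, 19, 32833, 7, 23, 229, 103, 313, 23, 0, 241, 193, 0, 1489, 0, 4421, 375909421, 11617, 0, 0, 569, 0, 0, 229, 43, 23, 4264193, 3931, 71, 139, 79, 223, 0, 409, 43, 47, 0, 1013, 97, 47, 5, 379, 83, 173, 31, 5, 0, 191, 11, 25889, 229, 109139, 0, 11, 11, 0, 0, 19, 3371, 11, 4214051, 166849, 0, 53, 1223, 17, 3251, 109, 47, 0, 17, 757, 41, 5413, 19,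 0, 409, 43, 0, 0, 997, 0, 1613, 719, 6311, 5, 28309, 453601, 12082519, 263, 16339, 0, 823, 463, 0, 283, 23, 59, 66067, 383, 5, 191, 6365753, 0, 23, 234431, 503, 607, 260581, 79, 9171803, 5197, 0, 7237, 103, 19, 9091, 0, 11, 29, 5, 17, 193, 1515229, 1499, 0, 83, 269, 0, 11, 456571, 89, 19, 41, 67, 1033, 0, 1277, 127, 2389841, 59, 0, 11, 2411, 31, 1301, 881, 11, 0, 79, 0, 11, 13, 43, 23, 769, 313, 491, 17, 4134619, 8814667, 59, 211, 53, 3631, 1613, 0, 251, 0, 11, 181, 383, 19, 4273, 619630919, 0, 601, 47743, 7, 0, 5, 107, 599, 79, 557] _ (by decide +kernel) (by decide +kernel) fer_5099 (by decide +kernel)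

end Pool.Agent.H495.Sun.Z7588
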