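import Pool.Agent.H495.Sun.Fer

set_option autoImplicit false
set_option maxRecDepth 100000

/-! Certificates for `k * (k + 1) ^ φ(7588 - k) + 1` with `5386 ≤ k < 6075`. -/

namespace Pool.Agent.H495.Sun.Z7588

theorem fer_5386 : ∀ k ∈ [5386, 5388, 5391, 5392, 5394, 5408, 5411, 5413, 5421, 5433, 5442, 5443, 5445, 5446, 5451, 5455, 5462, 5464, 5474, 5476, 5481, 5482, 5488, 5495, 5497, 5508, 5510, 5511, 5512, 5520, 5527, 5528, 5534, 5537, 5542, 5547, 5552, 5556, 5557, 5558, 5560, 5563, 5576, 5583, 5584, 5586, 5588, 5595, 5605, 5609, 5615, 5618, 5626, 5641, 5642, 5644, 5658, 5663, 5671, 5678, 5682, 5698, 5701, 5707, 5713, 5728, 5731, 5736, 5750, 5761, 5765, 5795, 5796, 5800, 5802, 5811, 5812, 5817, 5818, 5820, 5839, 5840, 5851, 5854, 5880, 5883, 5894, 5904, 5910, 5915, 5916, 5929, 5941, 5944, 5959, 5963, 5965, 5983, 5984, 5993, 5994, 6002, 6004, 6007, 6010, 6018, 6022, 6024, 6027, 6028, 6031, 6034, 6040, 6042, 6043, 6049, 6055, 6057,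 6058, 6070], ¬ (num 7588 k).Prime :=
  cons_ok (fk_spec 7588 5386 18 (by decide +kernel)) <|
  cons_ok (fk_spec 7588 5388 20 (by decide +kernel)) <|
  cons_ok (fk_spec 7588 5391 50 (by decide +kernel)) <|
  cons_ok (fk_spec 7588 5392 18 (by decide +kernel)) <|
  cons_ok (fk_spec 7588 5394 27 (by decide +kernel)) <|
  cons_ok (fk_spec 7588 5408 21 (by decide +kernel)) <|
  cons_ok (fk_spec 7588 5411 46 (by decide +kernel)) <|
  cons_ok (fk_spec 7588 5413 28 (by decide +kernel)) <|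
  cons_ok (fk_spec 7588 5421 48 (by decide +kernel)) <|
  cons_ok (fk_spec 7588 5433 42 (by decide +kernel)) <|
  cons_ok (fk_spec 7588 5442 25 (by decide +kernel)) <|
  cons_ok (fk_spec 7588 5443 24 (by decide +kernel)) <|
  cons_ok (fk_spec 7588 5445 52 (by decide +kernel)) <|
  cons_ok (fk_spec 7588 5446 14 (by decide +kernel)) <|
  cons_ok (fk_spec 7588 5451 52 (by decide +kernel)) <|
  cons_ok (fk_spec 7588 5455 35 (by decide +kernel)) <|
  cons_ok (fk_spec 7588 5462 26 (by decide +kernel)) <|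
  cons_ok (fk_spec 7588 5464 17 (by decide +kernel)) <|
  cons_ok (fk_spec 7588 5474 22 (by decide +kernel)) <|
  cons_ok (fk_spec 7588 5476 16 (by decide +kernel)) <|
  cons_ok (fk_spec 7588 5481 43 (by decide +kernel)) <|
  cons_ok (fk_spec 7588 5482 16 (by decide +kernel)) <|
  cons_ok (fk_spec 7588 5488 12 (by decide +kernel)) <|
  cons_ok (fk_spec 7588 5495 39 (by decide +kernel)) <|
  cons_ok (fk_spec 7588 5497 32 (by decide +kernel)) <|
  cons_ok (fk_spec 7588 5508 19 (by decide +kernel)) <|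
  cons_ok (fk_spec 7588 5510 26 (by decide +kernel)) <|
  cons_ok (fk_spec 7588 5511 49 (by decide +kernel)) <|
  cons_ok (fk_spec 7588 5512 17 (by decide +kernel)) <|
  cons_ok (fk_spec 7588 5520 23 (by decide +kernel)) <|
  cons_ok (fk_spec 7588 5527 34 (by decide +kernel)) <|
  cons_ok (fk_spec 7588 5528 20 (by decide +kernel)) <|
  cons_ok (fk_spec 7588 5534 23 (by decide +kernel)) <|
  cons_ok (fk_spec 7588 5537 43 (by decide +kernel)) <|
  cons_ok (fk_spec 7588 5542 15 (by decide +kernel)) <|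
  cons_ok (fk_spec 7588 5547 46 (by decide +kernel)) <|
  cons_ok (fk_spec 7588 5552 25 (by decide +kernel)) <|
  cons_ok (fk_spec 7588 5556 25 (by decide +kernel)) <|
  cons_ok (fk_spec 7588 5557 33 (by decide +kernel)) <|
  cons_ok (fk_spec 7588 5558 17 (by decide +kernel)) <|
  cons_ok (fk_spec 7588 5560 16 (by decide +kernel)) <|
  cons_ok (fk_spec 7588 5563 27 (by decide +kernel)) <|
  cons_ok (fk_spec 7588 5576 25 (by decide +kernel)) <|
  cons_ok (fk_spec 7588 5583 39 (by decide +kernel)) <|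
  cons_ok (fk_spec 7588 5584 17 (by decide +kernel)) <|
  cons_ok (fk_spec 7588 5586 18 (by decide +kernel)) <|
  cons_ok (fk_spec 7588 5588 20 (by decide +kernel)) <|
  cons_ok (fk_spec 7588 5595 49 (by decide +kernel)) <|
  cons_ok (fk_spec 7588 5605 33 (by decide +kernel)) <|
  cons_ok (fk_spec 7588 5609 49 (by decide +kernel)) <|
  cons_ok (fk_spec 7588 5615 48 (by decide +kernel)) <|
  cons_ok (fk_spec 7588 5618 20 (by decide +kernel)) <|
  cons_ok (fk_spec 7588 5626 16 (by decide +kernel)) <|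
  cons_ok (fk_spec 7588 5641 29 (by decide +kernel)) <|
  cons_ok (fk_spec 7588 5642 21 (by decide +kernel)) <|
  cons_ok (fk_spec 7588 5644 16 (by decide +kernel)) <|
  cons_ok (fk_spec 7588 5658 19 (by decide +kernel)) <|
  cons_ok (fk_spec 7588 5663 30 (by decide +kernel)) <|
  cons_ok (fk_spec 7588 5671 31 (by decide +kernel)) <|
  cons_ok (fk_spec 7588 5678 19 (by decide +kernel)) <|
  cons_ok (fk_spec 7588 5682 24 (by decide +kernel)) <|
  cons_ok (fk_spec 7588 5698 11 (by decide +kernel)) <|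
  cons_ok (fk_spec 7588 5701 29 (by decide +kernel)) <|
  cons_ok (fk_spec 7588 5707 27 (by decide +kernel)) <|
  cons_ok (fk_spec 7588 5713 25 (by decide +kernel)) <|
  cons_ok (fk_spec 7588 5728 12 (by decide +kernel)) <|
  cons_ok (fk_spec 7588 5731 31 (by decide +kernel)) <|
  cons_ok (fk_spec 7588 5736 23 (by decide +kernel)) <|
  cons_ok (fk_spec 7588 5750 23 (by decide +kernel)) <|
  cons_ok (fk_spec 7588 5761 25 (by decide +kernel)) <|
  cons_ok (fk_spec 7588 5765 45 (by decide +kernel)) <|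
  cons_ok (fk_spec 7588 5795 40 (by decide +kernel)) <|
  cons_ok (fk_spec 7588 5796 19 (by decide +kernel)) <|
  cons_ok (fk_spec 7588 5800 15 (by decide +kernel)) <|
  cons_ok (fk_spec 7588 5802 21 (by decide +kernel)) <|
  cons_ok (fk_spec 7588 5811 44 (by decide +kernel)) <|
  cons_ok (fk_spec 7588 5812 15 (by decide +kernel)) <|
  cons_ok (fk_spec 7588 5817 33 (by decide +kernel)) <|
  cons_ok (fk_spec 7588 5818 12 (by decide +kernel)) <|
  cons_ok (fk_spec 7588 5820 19 (by decide +kernel)) <|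
  cons_ok (fk_spec 7588 5839 26 (by decide +kernel)) <|
  cons_ok (fk_spec 7588 5840 20 (by decide +kernel)) <|
  cons_ok (fk_spec 7588 5851 29 (by decide +kernel)) <|
  cons_ok (fk_spec 7588 5854 14 (by decide +kernel)) <|
  cons_ok (fk_spec 7588 5880 18 (by decide +kernel)) <|
  cons_ok (fk_spec 7588 5883 30 (by decide +kernel)) <|
  cons_ok (fk_spec 7588 5894 17 (by decide +kernel)) <|
  cons_ok (fk_spec 7588 5904 21 (by decide +kernel)) <|
  cons_ok (fk_spec 7588 5910 21 (by decide +kernel)) <|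
  cons_ok (fk_spec 7588 5915 35 (by decide +kernel)) <|
  cons_ok (fk_spec 7588 5916 18 (by decide +kernel)) <|
  cons_ok (fk_spec 7588 5929 23 (by decide +kernel)) <|
  cons_ok (fk_spec 7588 5941 27 (by decide +kernel)) <|
  cons_ok (fk_spec 7588 5944 14 (by decide +kernel)) <|
  cons_ok (fk_spec 7588 5959 27 (by decide +kernel)) <|
  cons_ok (fk_spec 7588 5963 30 (by decide +kernel)) <|
  cons_ok (fk_spec 7588 5965 27 (by decide +kernel)) <|
  cons_ok (fk_spec 7588 5983 21 (by decide +kernel)) <|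
  cons_ok (fk_spec 7588 5984 20 (by decide +kernel)) <|
  cons_ok (fk_spec 7588 5993 28 (by decide +kernel)) <|
  cons_ok (fk_spec 7588 5994 20 (by decide +kernel)) <|
  cons_ok (fk_spec 7588 6002 18 (by decide +kernel)) <|
  cons_ok (fk_spec 7588 6004 12 (by decide +kernel)) <|
  cons_ok (fk_spec 7588 6007 24 (by decide +kernel)) <|
  cons_ok (fk_spec 7588 6010 13 (by decide +kernel)) <|
  cons_ok (fk_spec 7588 6018 16 (by decide +kernel)) <|
  cons_ok (fk_spec 7588 6022 13 (by decide +kernel)) <|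
  cons_ok (fk_spec 7588 6024 18 (by decide +kernel)) <|
  cons_ok (fk_spec 7588 6027 33 (by decide +kernel)) <|
  cons_ok (fk_spec 7588 6028 10 (by decide +kernel)) <|
  cons_ok (fk_spec 7588 6031 26 (by decide +kernel)) <|
  cons_ok (fk_spec 7588 6034 11 (by decide +kernel)) <|
  cons_ok (fk_spec 7588 6040 13 (by decide +kernel)) <|
  cons_ok (fk_spec 7588 6042 19 (by decide +kernel)) <|
  cons_ok (fk_spec 7588 6043 21 (by decide +kernel)) <|
  cons_ok (fk_spec 7588 6049 24 (by decide +kernel)) <|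
  cons_ok (fk_spec 7588 6055 22 (by decide +kernel)) <|
  cons_ok (fk_spec 7588 6057 38 (by decide +kernel)) <|
  cons_ok (fk_spec 7588 6058 10 (by decide +kernel)) <|
  cons_ok (fk_spec 7588 6070 11 (by decide +kernel)) <|
  nil_ok 7588

theorem rng_5386 : ∀ k, 5386 ≤ k → k < 6075 → ¬ (num 7588 k).Prime :=
  range_of 7588 5386 6075 [0, 173, 0, 19, 2543, 0, 0, 1789, 0, 60793, 11, 23, 45137, 79, 659, 5, 17, 29, 919, 78583, 5, 17, 0, 13, 641, 0, 641, 0, 868883, 229, 107, 149, 101, 9187, 23, 0, 41, 3793, 15091, 23, 1063, 21193, 23603, 101, 27061, 13, 1031, 0, 797, 109, 547, 563, 227, 23, 25171, 11, 0, 0, 8539, 0, 0, 19, 26981, 53, 37, 0, 410717, 127, 2069, 0, 23, 43, 5231, 277, 8237, 19, 0, 3015799, 0, 79, 19, 677, 19, 43, 7, 23, 84871, 12157, 0, 11, 0, 61, 2297, 31, 12539, 0, 0, 3279187, 11, 271, 5, 29, 0, 227, 907, 5783, 509, 170761, 23, 0, 53, 0, 367, 1556839, 1553, 5, 11, 19, 23, 113, 46451, 41593, 0, 11418961, 0, 0, 0, 147439843,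 1061, 29, 29, 307, 53, 211, 0, 67, 19, 130553, 37, 118127, 5, 0, 0, 137, 47, 68639, 19, 7, 0, 197, 43, 0, 383, 41, 3119, 44189, 0, 59, 239, 9742757, 17, 0, 13, 757, 11, 202907, 0, 3206873, 61, 17, 0, 0, 0, 827, 0, 5, 31, 0, 286129, 159992281, 67, 223, 7, 127, 773579, 23, 31, 2909, 43, 19, 0, 37, 643, 19, 59, 35363, 2003, 0, 0, 11, 0, 13, 0, 1789, 11, 522305543, 61, 2053, 17, 0, 7, 1231, 659, 887, 90011, 5, 239, 83, 659, 0, 5, 11, 971, 0, 2129, 17, 43, 19, 37, 0, 47, 11, 0, 1087, 146317, 66413, 19777, 3539, 7, 6492749, 0, 23, 324403, 56687, 29, 17, 101, 1223, 1231, 29, 19, 1277, 829, 19, 11, 0, 0, 109, 0, 11, 5, 1567, 29, 737178307, 11, 19, 12893, 487, 280303, 19, 11, 4007, 0, 1489, 29, 53, 17, 0, 197, 13, 5, 402029, 9161, 82217, 26687, 0, 11, 647, 59, 302573, 397427, 340381, 0, 17, 26687, 5, 0, 41, 43, 12143, 73, 61, 4357, 107, 29, 17, 47, 6101, 11, 1163, 127, 1973, 0, 29669, 11, 0, 79, 41, 81013, 7207, 8924327, 0, 106181, 37, 181,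 23, 1063, 0, 61, 683, 11, 11981, 23, 10939, 157, 5, 7, 449, 41, 17, 71, 43, 0, 641, 181, 0, 743, 11, 55927, 53, 0, 293, 2591, 491, 338449, 5, 157, 404251, 307, 1255829, 59, 17, 281, 11833, 0, 103, 1009, 199, 1543, 383, 3853, 433, 1063, 4397, 11887, 0, 1063, 1051, 3847, 0, 5, 17, 1559, 1553, 43, 11, 19, 1409, 709, 271, 1289, 71, 127, 251, 1530569, 149, 739, 1213, 3673, 211, 9859, 39451, 53, 31, 23, 79, 7, 9973, 223, 0, 0, 20231, 1867, 11, 0, 5, 0, 11, 41, 11, 149, 43, 13, 33967, 17, 0, 0, 7, 67, 11, 19, 0, 0, 49523, 0, 97, 47, 487, 7213, 2383, 4597, 7, 19, 11633, 37, 983, 17, 116341, 29, 96911, 23, 8179, 5059, 0, 0, 5, 8017, 281, 2969, 863, 149, 1865467, 887, 23, 557, 0, 223, 103, 0, 53, 5519, 911, 11, 11, 17747, 659, 1033, 83, 8743087, 9769, 349, 53, 263, 1993, 109, 29, 101, 941, 79, 23, 7, 103, 2971, 2083, 0, 11, 11, 0, 2269, 59, 31, 23333, 593, 53, 11909, 421, 185849, 269, 0, 47, 257, 2731, 19, 13, 41801, 7349, 688393, 23, 0, 211129,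 1549, 1493, 41, 281, 0, 57191, 13, 131, 139, 0, 0, 151, 2843, 89, 61, 5, 139, 1847, 11, 167, 11, 149, 607, 0, 43, 181, 547, 179479, 59, 11, 11, 11, 67, 16193, 19, 0, 13, 59, 0, 937, 17, 37, 23, 6803, 1531, 17, 499, 47, 435427, 79, 1699, 557, 29, 0, 8819, 5, 1171, 0, 46021, 0, 5, 97, 153719, 19, 41, 151733, 709, 2437, 7, 2273, 151, 4048871, 19, 11, 29, 5, 69163, 0, 0, 463, 11, 29, 36217, 14929, 499, 11, 11, 0, 0, 263129, 59, 220383853, 7789, 563, 53, 67, 0, 95111, 0, 269, 53, 0, 29, 29, 0, 311, 433, 1889, 56149, 97, 293, 337, 0, 17, 2711, 5, 0, 11, 0, 167, 19, 0, 0, 151, 7247, 0, 127, 1357843, 0, 233, 29, 7, 129529, 17, 0, 31, 0, 0, 197, 709, 8629, 11, 59, 0, 19, 95801, 37, 2687, 23, 0, 17, 0, 0, 69779, 227, 2903, 11159, 6269, 139, 37, 1667, 4775369, 11, 33533, 0, 43, 77509, 131, 47] _ (by decide +kernel) (by decide +kernel) fer_5386 (by decide +kernel)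

end Pool.Agent.H495.Sun.Z7588
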