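import Pool.Agent.H495.Sun.Fer

set_option autoImplicit false
set_option maxRecDepth 100000

/-! Certificates for `k * (k + 1) ^ φ(7588 - k) + 1` with `6075 ≤ k < 7588`. -/

namespace Pool.Agent.H495.Sun.Z7588

theorem fer_6075 : ∀ k ∈ [6075, 6083, 6094, 6097, 6098, 6100, 6103, 6104, 6106, 6117, 6126, 6136, 6137, 6138, 6142, 6145, 6156, 6171, 6176, 6177, 6187, 6188, 6191, 6193, 6210, 6215, 6218, 6220, 6224, 6228, 6231, 6235, 6240, 6252, 6254, 6255, 6260, 6262, 6270, 6272, 6274, 6275, 6284, 6285, 6287, 6293, 6299, 6302, 6305, 6310, 6320, 6323, 6325, 6327, 6328, 6337, 6340, 6345, 6348, 6349, 6353, 6357, 6361, 6363, 6364, 6365, 6367, 6371, 6376, 6383, 6386, 6392, 6397, 6404, 6409, 6412, 6417, 6425, 6438, 6439, 6440, 6445, 6454, 6455, 6457, 6463, 6467, 6480, 6483, 6488, 6492, 6493, 6505, 6514, 6518, 6522, 6525, 6527, 6531, 6532, 6535, 6540, 6543, 6547, 6550, 6560, 6567, 6572, 6579, 6587, 6592, 6599, 6607, 6611, 6619, 6622, 6623,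 6625, 6626, 6627, 6640, 6643, 6648, 6662, 6673, 6674, 6677, 6685, 6688, 6689, 6710, 6711, 6720, 6725, 6730, 6731, 6736, 6744, 6753, 6754, 6758, 6764, 6768, 6779, 6785, 6788, 6789, 6795, 6796, 6816, 6818, 6822, 6831, 6834, 6836, 6838, 6839, 6844, 6849, 6857, 6865, 6875, 6876, 6883, 6886, 6897, 6902, 6903, 6907, 6927, 6928, 6929, 6932, 6938, 6951, 6968, 6972, 6973, 6975, 6977, 6978, 6983, 6994, 7000, 7002, 7014, 7015, 7018, 7019, 7020, 7025, 7033, 7039, 7042, 7048, 7050, 7058, 7064, 7067, 7070, 7072, 7073, 7075, 7076, 7092, 7093, 7096, 7098, 7102, 7103, 7105, 7106, 7107, 7112, 7123, 7129, 7132, 7133, 7142, 7146, 7152, 7155, 7161, 7162, 7169, 7171, 7191, 7207, 7208, 7212, 7216, 7217, 7223, 7224, 7225, 7238, 7258, 7266, 7268, 7273, 7275, 7277, 7279, 7284, 7285, 7289, 7290, 7293, 7296, 7303, 7312, 7317, 7320, 7325, 7328, 7329, 7334, 7340, 7341, 7344, 7347, 7352, 7357, 7360, 7362, 7363, 7366, 7375, 7376, 7381, 7382, 7392, 7393,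 7396, 7398, 7405, 7406, 7410, 7411, 7413, 7414, 7415, 7417, 7418, 7431, 7433, 7435, 7439, 7441, 7448, 7451, 7455, 7458, 7462, 7470, 7473, 7475, 7478, 7485, 7488, 7489, 7491, 7492, 7500, 7503, 7505, 7506, 7507, 7512, 7514, 7518, 7522, 7527, 7529, 7532, 7540, 7543, 7545, 7546, 7558, 7568, 7569, 7572, 7573, 7576, 7579, 7580, 7585, 7586, 7587], ¬ (num 7588 k).Prime :=
  cons_ok (fk_spec 7588 6075 35 (by decide +kernel)) <|
  cons_ok (fk_spec 7588 6083 25 (by decide +kernel)) <|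
  cons_ok (fk_spec 7588 6094 13 (by decide +kernel)) <|
  cons_ok (fk_spec 7588 6097 21 (by decide +kernel)) <|
  cons_ok (fk_spec 7588 6098 15 (by decide +kernel)) <|
  cons_ok (fk_spec 7588 6100 12 (by decide +kernel)) <|
  cons_ok (fk_spec 7588 6103 18 (by decide +kernel)) <|
  cons_ok (fk_spec 7588 6104 16 (by decide +kernel)) <|
  cons_ok (fk_spec 7588 6106 11 (by decide +kernel)) <|
  cons_ok (fk_spec 7588 6117 37 (by decide +kernel)) <|
  cons_ok (fk_spec 7588 6126 17 (by decide +kernel)) <|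
  cons_ok (fk_spec 7588 6136 11 (by decide +kernel)) <|
  cons_ok (fk_spec 7588 6137 36 (by decide +kernel)) <|
  cons_ok (fk_spec 7588 6138 14 (by decide +kernel)) <|
  cons_ok (fk_spec 7588 6142 12 (by decide +kernel)) <|
  cons_ok (fk_spec 7588 6145 22 (by decide +kernel)) <|
  cons_ok (fk_spec 7588 6156 18 (by decide +kernel)) <|
  cons_ok (fk_spec 7588 6171 32 (by decide +kernel)) <|
  cons_ok (fk_spec 7588 6176 18 (by decide +kernel)) <|
  cons_ok (fk_spec 7588 6177 33 (by decide +kernel)) <|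
  cons_ok (fk_spec 7588 6187 23 (by decide +kernel)) <|
  cons_ok (fk_spec 7588 6188 12 (by decide +kernel)) <|
  cons_ok (fk_spec 7588 6191 32 (by decide +kernel)) <|
  cons_ok (fk_spec 7588 6193 18 (by decide +kernel)) <|
  cons_ok (fk_spec 7588 6210 16 (by decide +kernel)) <|
  cons_ok (fk_spec 7588 6215 34 (by decide +kernel)) <|
  cons_ok (fk_spec 7588 6218 14 (by decide +kernel)) <|
  cons_ok (fk_spec 7588 6220 11 (by decide +kernel)) <|
  cons_ok (fk_spec 7588 6224 15 (by decide +kernel)) <|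
  cons_ok (fk_spec 7588 6228 13 (by decide +kernel)) <|
  cons_ok (fk_spec 7588 6231 32 (by decide +kernel)) <|
  cons_ok (fk_spec 7588 6235 20 (by decide +kernel)) <|
  cons_ok (fk_spec 7588 6240 17 (by decide +kernel)) <|
  cons_ok (fk_spec 7588 6252 17 (by decide +kernel)) <|
  cons_ok (fk_spec 7588 6254 16 (by decide +kernel)) <|
  cons_ok (fk_spec 7588 6255 32 (by decide +kernel)) <|
  cons_ok (fk_spec 7588 6260 17 (by decide +kernel)) <|
  cons_ok (fk_spec 7588 6262 10 (by decide +kernel)) <|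
  cons_ok (fk_spec 7588 6270 17 (by decide +kernel)) <|
  cons_ok (fk_spec 7588 6272 14 (by decide +kernel)) <|
  cons_ok (fk_spec 7588 6274 11 (by decide +kernel)) <|
  cons_ok (fk_spec 7588 6275 30 (by decide +kernel)) <|
  cons_ok (fk_spec 7588 6284 16 (by decide +kernel)) <|
  cons_ok (fk_spec 7588 6285 33 (by decide +kernel)) <|
  cons_ok (fk_spec 7588 6287 33 (by decide +kernel)) <|
  cons_ok (fk_spec 7588 6293 22 (by decide +kernel)) <|
  cons_ok (fk_spec 7588 6299 32 (by decide +kernel)) <|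
  cons_ok (fk_spec 7588 6302 16 (by decide +kernel)) <|
  cons_ok (fk_spec 7588 6305 32 (by decide +kernel)) <|
  cons_ok (fk_spec 7588 6310 11 (by decide +kernel)) <|
  cons_ok (fk_spec 7588 6320 16 (by decide +kernel)) <|
  cons_ok (fk_spec 7588 6323 22 (by decide +kernel)) <|
  cons_ok (fk_spec 7588 6325 21 (by decide +kernel)) <|
  cons_ok (fk_spec 7588 6327 29 (by decide +kernel)) <|
  cons_ok (fk_spec 7588 6328 8 (by decide +kernel)) <|
  cons_ok (fk_spec 7588 6337 21 (by decide +kernel)) <|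
  cons_ok (fk_spec 7588 6340 10 (by decide +kernel)) <|
  cons_ok (fk_spec 7588 6345 28 (by decide +kernel)) <|
  cons_ok (fk_spec 7588 6348 12 (by decide +kernel)) <|
  cons_ok (fk_spec 7588 6349 18 (by decide +kernel)) <|
  cons_ok (fk_spec 7588 6353 22 (by decide +kernel)) <|
  cons_ok (fk_spec 7588 6357 31 (by decide +kernel)) <|
  cons_ok (fk_spec 7588 6361 21 (by decide +kernel)) <|
  cons_ok (fk_spec 7588 6363 21 (by decide +kernel)) <|
  cons_ok (fk_spec 7588 6364 10 (by decide +kernel)) <|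
  cons_ok (fk_spec 7588 6365 31 (by decide +kernel)) <|
  cons_ok (fk_spec 7588 6367 18 (by decide +kernel)) <|
  cons_ok (fk_spec 7588 6371 31 (by decide +kernel)) <|
  cons_ok (fk_spec 7588 6376 10 (by decide +kernel)) <|
  cons_ok (fk_spec 7588 6383 24 (by decide +kernel)) <|
  cons_ok (fk_spec 7588 6386 15 (by decide +kernel)) <|
  cons_ok (fk_spec 7588 6392 14 (by decide +kernel)) <|
  cons_ok (fk_spec 7588 6397 20 (by decide +kernel)) <|
  cons_ok (fk_spec 7588 6404 15 (by decide +kernel)) <|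
  cons_ok (fk_spec 7588 6409 20 (by decide +kernel)) <|
  cons_ok (fk_spec 7588 6412 9 (by decide +kernel)) <|
  cons_ok (fk_spec 7588 6417 29 (by decide +kernel)) <|
  cons_ok (fk_spec 7588 6425 29 (by decide +kernel)) <|
  cons_ok (fk_spec 7588 6438 11 (by decide +kernel)) <|
  cons_ok (fk_spec 7588 6439 19 (by decide +kernel)) <|
  cons_ok (fk_spec 7588 6440 12 (by decide +kernel)) <|
  cons_ok (fk_spec 7588 6445 19 (by decide +kernel)) <|
  cons_ok (fk_spec 7588 6454 9 (by decide +kernel)) <|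
  cons_ok (fk_spec 7588 6455 26 (by decide +kernel)) <|
  cons_ok (fk_spec 7588 6457 17 (by decide +kernel)) <|
  cons_ok (fk_spec 7588 6463 15 (by decide +kernel)) <|
  cons_ok (fk_spec 7588 6467 26 (by decide +kernel)) <|
  cons_ok (fk_spec 7588 6480 14 (by decide +kernel)) <|
  cons_ok (fk_spec 7588 6483 20 (by decide +kernel)) <|
  cons_ok (fk_spec 7588 6488 10 (by decide +kernel)) <|
  cons_ok (fk_spec 7588 6492 14 (by decide +kernel)) <|
  cons_ok (fk_spec 7588 6493 15 (by decide +kernel)) <|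
  cons_ok (fk_spec 7588 6505 17 (by decide +kernel)) <|
  cons_ok (fk_spec 7588 6514 9 (by decide +kernel)) <|
  cons_ok (fk_spec 7588 6518 11 (by decide +kernel)) <|
  cons_ok (fk_spec 7588 6522 12 (by decide +kernel)) <|
  cons_ok (fk_spec 7588 6525 27 (by decide +kernel)) <|
  cons_ok (fk_spec 7588 6527 27 (by decide +kernel)) <|
  cons_ok (fk_spec 7588 6531 23 (by decide +kernel)) <|
  cons_ok (fk_spec 7588 6532 8 (by decide +kernel)) <|
  cons_ok (fk_spec 7588 6535 17 (by decide +kernel)) <|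
  cons_ok (fk_spec 7588 6540 13 (by decide +kernel)) <|
  cons_ok (fk_spec 7588 6543 18 (by decide +kernel)) <|
  cons_ok (fk_spec 7588 6547 18 (by decide +kernel)) <|
  cons_ok (fk_spec 7588 6550 9 (by decide +kernel)) <|
  cons_ok (fk_spec 7588 6560 13 (by decide +kernel)) <|
  cons_ok (fk_spec 7588 6567 26 (by decide +kernel)) <|
  cons_ok (fk_spec 7588 6572 13 (by decide +kernel)) <|
  cons_ok (fk_spec 7588 6579 25 (by decide +kernel)) <|
  cons_ok (fk_spec 7588 6587 18 (by decide +kernel)) <|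
  cons_ok (fk_spec 7588 6592 9 (by decide +kernel)) <|
  cons_ok (fk_spec 7588 6599 23 (by decide +kernel)) <|
  cons_ok (fk_spec 7588 6607 17 (by decide +kernel)) <|
  cons_ok (fk_spec 7588 6611 25 (by decide +kernel)) <|
  cons_ok (fk_spec 7588 6619 15 (by decide +kernel)) <|
  cons_ok (fk_spec 7588 6622 7 (by decide +kernel)) <|
  cons_ok (fk_spec 7588 6623 20 (by decide +kernel)) <|
  cons_ok (fk_spec 7588 6625 16 (by decide +kernel)) <|
  cons_ok (fk_spec 7588 6626 11 (by decide +kernel)) <|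
  cons_ok (fk_spec 7588 6627 24 (by decide +kernel)) <|
  cons_ok (fk_spec 7588 6640 8 (by decide +kernel)) <|
  cons_ok (fk_spec 7588 6643 11 (by decide +kernel)) <|
  cons_ok (fk_spec 7588 6648 10 (by decide +kernel)) <|
  cons_ok (fk_spec 7588 6662 12 (by decide +kernel)) <|
  cons_ok (fk_spec 7588 6673 12 (by decide +kernel)) <|
  cons_ok (fk_spec 7588 6674 12 (by decide +kernel)) <|
  cons_ok (fk_spec 7588 6677 23 (by decide +kernel)) <|
  cons_ok (fk_spec 7588 6685 13 (by decide +kernel)) <|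
  cons_ok (fk_spec 7588 6688 6 (by decide +kernel)) <|
  cons_ok (fk_spec 7588 6689 21 (by decide +kernel)) <|
  cons_ok (fk_spec 7588 6710 11 (by decide +kernel)) <|
  cons_ok (fk_spec 7588 6711 22 (by decide +kernel)) <|
  cons_ok (fk_spec 7588 6720 9 (by decide +kernel)) <|
  cons_ok (fk_spec 7588 6725 22 (by decide +kernel)) <|
  cons_ok (fk_spec 7588 6730 6 (by decide +kernel)) <|
  cons_ok (fk_spec 7588 6731 22 (by decide +kernel)) <|
  cons_ok (fk_spec 7588 6736 7 (by decide +kernel)) <|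
  cons_ok (fk_spec 7588 6744 11 (by decide +kernel)) <|
  cons_ok (fk_spec 7588 6753 17 (by decide +kernel)) <|
  cons_ok (fk_spec 7588 6754 7 (by decide +kernel)) <|
  cons_ok (fk_spec 7588 6758 9 (by decide +kernel)) <|
  cons_ok (fk_spec 7588 6764 11 (by decide +kernel)) <|
  cons_ok (fk_spec 7588 6768 8 (by decide +kernel)) <|
  cons_ok (fk_spec 7588 6779 21 (by decide +kernel)) <|
  cons_ok (fk_spec 7588 6785 18 (by decide +kernel)) <|
  cons_ok (fk_spec 7588 6788 8 (by decide +kernel)) <|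
  cons_ok (fk_spec 7588 6789 19 (by decide +kernel)) <|
  cons_ok (fk_spec 7588 6795 18 (by decide +kernel)) <|
  cons_ok (fk_spec 7588 6796 6 (by decide +kernel)) <|
  cons_ok (fk_spec 7588 6816 10 (by decide +kernel)) <|
  cons_ok (fk_spec 7588 6818 6 (by decide +kernel)) <|
  cons_ok (fk_spec 7588 6822 10 (by decide +kernel)) <|
  cons_ok (fk_spec 7588 6831 19 (by decide +kernel)) <|
  cons_ok (fk_spec 7588 6834 9 (by decide +kernel)) <|
  cons_ok (fk_spec 7588 6836 10 (by decide +kernel)) <|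
  cons_ok (fk_spec 7588 6838 6 (by decide +kernel)) <|
  cons_ok (fk_spec 7588 6839 16 (by decide +kernel)) <|
  cons_ok (fk_spec 7588 6844 6 (by decide +kernel)) <|
  cons_ok (fk_spec 7588 6849 19 (by decide +kernel)) <|
  cons_ok (fk_spec 7588 6857 17 (by decide +kernel)) <|
  cons_ok (fk_spec 7588 6865 12 (by decide +kernel)) <|
  cons_ok (fk_spec 7588 6875 17 (by decide +kernel)) <|
  cons_ok (fk_spec 7588 6876 9 (by decide +kernel)) <|
  cons_ok (fk_spec 7588 6883 10 (by decide +kernel)) <|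
  cons_ok (fk_spec 7588 6886 6 (by decide +kernel)) <|
  cons_ok (fk_spec 7588 6897 18 (by decide +kernel)) <|
  cons_ok (fk_spec 7588 6902 8 (by decide +kernel)) <|
  cons_ok (fk_spec 7588 6903 14 (by decide +kernel)) <|
  cons_ok (fk_spec 7588 6907 12 (by decide +kernel)) <|
  cons_ok (fk_spec 7588 6927 17 (by decide +kernel)) <|
  cons_ok (fk_spec 7588 6928 5 (by decide +kernel)) <|
  cons_ok (fk_spec 7588 6929 17 (by decide +kernel)) <|
  cons_ok (fk_spec 7588 6932 8 (by decide +kernel)) <|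
  cons_ok (fk_spec 7588 6938 7 (by decide +kernel)) <|
  cons_ok (fk_spec 7588 6951 13 (by decide +kernel)) <|
  cons_ok (fk_spec 7588 6968 7 (by decide +kernel)) <|
  cons_ok (fk_spec 7588 6972 7 (by decide +kernel)) <|
  cons_ok (fk_spec 7588 6973 9 (by decide +kernel)) <|
  cons_ok (fk_spec 7588 6975 16 (by decide +kernel)) <|
  cons_ok (fk_spec 7588 6977 14 (by decide +kernel)) <|
  cons_ok (fk_spec 7588 6978 7 (by decide +kernel)) <|
  cons_ok (fk_spec 7588 6983 11 (by decide +kernel)) <|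
  cons_ok (fk_spec 7588 6994 5 (by decide +kernel)) <|
  cons_ok (fk_spec 7588 7000 5 (by decide +kernel)) <|
  cons_ok (fk_spec 7588 7002 8 (by decide +kernel)) <|
  cons_ok (fk_spec 7588 7014 7 (by decide +kernel)) <|
  cons_ok (fk_spec 7588 7015 10 (by decide +kernel)) <|
  cons_ok (fk_spec 7588 7018 4 (by decide +kernel)) <|
  cons_ok (fk_spec 7588 7019 15 (by decide +kernel)) <|
  cons_ok (fk_spec 7588 7020 8 (by decide +kernel)) <|
  cons_ok (fk_spec 7588 7025 15 (by decide +kernel)) <|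
  cons_ok (fk_spec 7588 7033 8 (by decide +kernel)) <|
  cons_ok (fk_spec 7588 7039 10 (by decide +kernel)) <|
  cons_ok (fk_spec 7588 7042 4 (by decide +kernel)) <|
  cons_ok (fk_spec 7588 7048 4 (by decide +kernel)) <|
  cons_ok (fk_spec 7588 7050 7 (by decide +kernel)) <|
  cons_ok (fk_spec 7588 7058 6 (by decide +kernel)) <|
  cons_ok (fk_spec 7588 7064 7 (by decide +kernel)) <|
  cons_ok (fk_spec 7588 7067 14 (by decide +kernel)) <|
  cons_ok (fk_spec 7588 7070 6 (by decide +kernel)) <|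
  cons_ok (fk_spec 7588 7072 5 (by decide +kernel)) <|
  cons_ok (fk_spec 7588 7073 11 (by decide +kernel)) <|
  cons_ok (fk_spec 7588 7075 9 (by decide +kernel)) <|
  cons_ok (fk_spec 7588 7076 7 (by decide +kernel)) <|
  cons_ok (fk_spec 7588 7092 7 (by decide +kernel)) <|
  cons_ok (fk_spec 7588 7093 7 (by decide +kernel)) <|
  cons_ok (fk_spec 7588 7096 5 (by decide +kernel)) <|
  cons_ok (fk_spec 7588 7098 5 (by decide +kernel)) <|
  cons_ok (fk_spec 7588 7102 5 (by decide +kernel)) <|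
  cons_ok (fk_spec 7588 7103 10 (by decide +kernel)) <|
  cons_ok (fk_spec 7588 7105 7 (by decide +kernel)) <|
  cons_ok (fk_spec 7588 7106 7 (by decide +kernel)) <|
  cons_ok (fk_spec 7588 7107 11 (by decide +kernel)) <|
  cons_ok (fk_spec 7588 7112 5 (by decide +kernel)) <|
  cons_ok (fk_spec 7588 7123 7 (by decide +kernel)) <|
  cons_ok (fk_spec 7588 7129 8 (by decide +kernel)) <|
  cons_ok (fk_spec 7588 7132 4 (by decide +kernel)) <|
  cons_ok (fk_spec 7588 7133 8 (by decide +kernel)) <|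
  cons_ok (fk_spec 7588 7142 6 (by decide +kernel)) <|
  cons_ok (fk_spec 7588 7146 5 (by decide +kernel)) <|
  cons_ok (fk_spec 7588 7152 6 (by decide +kernel)) <|
  cons_ok (fk_spec 7588 7155 11 (by decide +kernel)) <|
  cons_ok (fk_spec 7588 7161 10 (by decide +kernel)) <|
  cons_ok (fk_spec 7588 7162 4 (by decide +kernel)) <|
  cons_ok (fk_spec 7588 7169 11 (by decide +kernel)) <|
  cons_ok (fk_spec 7588 7171 7 (by decide +kernel)) <|
  cons_ok (fk_spec 7588 7191 10 (by decide +kernel)) <|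
  cons_ok (fk_spec 7588 7207 7 (by decide +kernel)) <|
  cons_ok (fk_spec 7588 7208 4 (by decide +kernel)) <|
  cons_ok (fk_spec 7588 7212 5 (by decide +kernel)) <|
  cons_ok (fk_spec 7588 7216 4 (by decide +kernel)) <|
  cons_ok (fk_spec 7588 7217 8 (by decide +kernel)) <|
  cons_ok (fk_spec 7588 7223 8 (by decide +kernel)) <|
  cons_ok (fk_spec 7588 7224 4 (by decide +kernel)) <|
  cons_ok (fk_spec 7588 7225 6 (by decide +kernel)) <|
  cons_ok (fk_spec 7588 7238 4 (by decide +kernel)) <|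
  cons_ok (fk_spec 7588 7258 3 (by decide +kernel)) <|
  cons_ok (fk_spec 7588 7266 4 (by decide +kernel)) <|
  cons_ok (fk_spec 7588 7268 4 (by decide +kernel)) <|
  cons_ok (fk_spec 7588 7273 4 (by decide +kernel)) <|
  cons_ok (fk_spec 7588 7275 8 (by decide +kernel)) <|
  cons_ok (fk_spec 7588 7277 8 (by decide +kernel)) <|
  cons_ok (fk_spec 7588 7279 6 (by decide +kernel)) <|
  cons_ok (fk_spec 7588 7284 4 (by decide +kernel)) <|
  cons_ok (fk_spec 7588 7285 6 (by decide +kernel)) <|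
  cons_ok (fk_spec 7588 7289 7 (by decide +kernel)) <|
  cons_ok (fk_spec 7588 7290 4 (by decide +kernel)) <|
  cons_ok (fk_spec 7588 7293 6 (by decide +kernel)) <|
  cons_ok (fk_spec 7588 7296 4 (by decide +kernel)) <|
  cons_ok (fk_spec 7588 7303 4 (by decide +kernel)) <|
  cons_ok (fk_spec 7588 7312 3 (by decide +kernel)) <|
  cons_ok (fk_spec 7588 7317 7 (by decide +kernel)) <|
  cons_ok (fk_spec 7588 7320 4 (by decide +kernel)) <|
  cons_ok (fk_spec 7588 7325 7 (by decide +kernel)) <|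
  cons_ok (fk_spec 7588 7328 3 (by decide +kernel)) <|
  cons_ok (fk_spec 7588 7329 6 (by decide +kernel)) <|
  cons_ok (fk_spec 7588 7334 4 (by decide +kernel)) <|
  cons_ok (fk_spec 7588 7340 4 (by decide +kernel)) <|
  cons_ok (fk_spec 7588 7341 6 (by decide +kernel)) <|
  cons_ok (fk_spec 7588 7344 4 (by decide +kernel)) <|
  cons_ok (fk_spec 7588 7347 7 (by decide +kernel)) <|
  cons_ok (fk_spec 7588 7352 3 (by decide +kernel)) <|
  cons_ok (fk_spec 7588 7357 4 (by decide +kernel)) <|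
  cons_ok (fk_spec 7588 7360 2 (by decide +kernel)) <|
  cons_ok (fk_spec 7588 7362 3 (by decide +kernel)) <|
  cons_ok (fk_spec 7588 7363 4 (by decide +kernel)) <|
  cons_ok (fk_spec 7588 7366 2 (by decide +kernel)) <|
  cons_ok (fk_spec 7588 7375 4 (by decide +kernel)) <|
  cons_ok (fk_spec 7588 7376 3 (by decide +kernel)) <|
  cons_ok (fk_spec 7588 7381 4 (by decide +kernel)) <|
  cons_ok (fk_spec 7588 7382 3 (by decide +kernel)) <|
  cons_ok (fk_spec 7588 7392 3 (by decide +kernel)) <|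
  cons_ok (fk_spec 7588 7393 3 (by decide +kernel)) <|
  cons_ok (fk_spec 7588 7396 2 (by decide +kernel)) <|
  cons_ok (fk_spec 7588 7398 2 (by decide +kernel)) <|
  cons_ok (fk_spec 7588 7405 4 (by decide +kernel)) <|
  cons_ok (fk_spec 7588 7406 2 (by decide +kernel)) <|
  cons_ok (fk_spec 7588 7410 3 (by decide +kernel)) <|
  cons_ok (fk_spec 7588 7411 3 (by decide +kernel)) <|
  cons_ok (fk_spec 7588 7413 4 (by decide +kernel)) <|
  cons_ok (fk_spec 7588 7414 2 (by decide +kernel)) <|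
  cons_ok (fk_spec 7588 7415 5 (by decide +kernel)) <|
  cons_ok (fk_spec 7588 7417 3 (by decide +kernel)) <|
  cons_ok (fk_spec 7588 7418 2 (by decide +kernel)) <|
  cons_ok (fk_spec 7588 7431 4 (by decide +kernel)) <|
  cons_ok (fk_spec 7588 7433 4 (by decide +kernel)) <|
  cons_ok (fk_spec 7588 7435 3 (by decide +kernel)) <|
  cons_ok (fk_spec 7588 7439 4 (by decide +kernel)) <|
  cons_ok (fk_spec 7588 7441 3 (by decide +kernel)) <|
  cons_ok (fk_spec 7588 7448 2 (by decide +kernel)) <|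
  cons_ok (fk_spec 7588 7451 4 (by decide +kernel)) <|
  cons_ok (fk_spec 7588 7455 3 (by decide +kernel)) <|
  cons_ok (fk_spec 7588 7458 2 (by decide +kernel)) <|
  cons_ok (fk_spec 7588 7462 1 (by decide +kernel)) <|
  cons_ok (fk_spec 7588 7470 2 (by decide +kernel)) <|
  cons_ok (fk_spec 7588 7473 3 (by decide +kernel)) <|
  cons_ok (fk_spec 7588 7475 3 (by decide +kernel)) <|
  cons_ok (fk_spec 7588 7478 2 (by decide +kernel)) <|
  cons_ok (fk_spec 7588 7485 3 (by decide +kernel)) <|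
  cons_ok (fk_spec 7588 7488 2 (by decide +kernel)) <|
  cons_ok (fk_spec 7588 7489 2 (by decide +kernel)) <|
  cons_ok (fk_spec 7588 7491 3 (by decide +kernel)) <|
  cons_ok (fk_spec 7588 7492 1 (by decide +kernel)) <|
  cons_ok (fk_spec 7588 7500 2 (by decide +kernel)) <|
  cons_ok (fk_spec 7588 7503 2 (by decide +kernel)) <|
  cons_ok (fk_spec 7588 7505 3 (by decide +kernel)) <|
  cons_ok (fk_spec 7588 7506 2 (by decide +kernel)) <|
  cons_ok (fk_spec 7588 7507 2 (by decide +kernel)) <|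
  cons_ok (fk_spec 7588 7512 1 (by decide +kernel)) <|
  cons_ok (fk_spec 7588 7514 1 (by decide +kernel)) <|
  cons_ok (fk_spec 7588 7518 1 (by decide +kernel)) <|
  cons_ok (fk_spec 7588 7522 1 (by decide +kernel)) <|
  cons_ok (fk_spec 7588 7527 2 (by decide +kernel)) <|
  cons_ok (fk_spec 7588 7529 2 (by decide +kernel)) <|
  cons_ok (fk_spec 7588 7532 1 (by decide +kernel)) <|
  cons_ok (fk_spec 7588 7540 1 (by decide +kernel)) <|
  cons_ok (fk_spec 7588 7543 1 (by decide +kernel)) <|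
  cons_ok (fk_spec 7588 7545 2 (by decide +kernel)) <|
  cons_ok (fk_spec 7588 7546 1 (by decide +kernel)) <|
  cons_ok (fk_spec 7588 7558 1 (by decide +kernel)) <|
  cons_ok (fk_spec 7588 7568 1 (by decide +kernel)) <|
  cons_ok (fk_spec 7588 7569 1 (by decide +kernel)) <|
  cons_ok (fk_spec 7588 7572 1 (by decide +kernel)) <|
  cons_ok (fk_spec 7588 7573 1 (by decide +kernel)) <|
  cons_ok (fk_spec 7588 7576 1 (by decide +kernel)) <|
  cons_ok (fk_spec 7588 7579 1 (by decide +kernel)) <|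
  cons_ok (fk_spec 7588 7580 1 (by decide +kernel)) <|
  cons_ok (fk_spec 7588 7585 1 (by decide +kernel)) <|
  cons_ok (fk_spec 7588 7586 1 (by decide +kernel)) <|
  cons_ok (fk_spec 7588 7587 1 (by decide +kernel)) <|
  nil_ok 7588

theorem rng_6075 : ∀ k, 6075 ≤ k → k < 7588 → ¬ (num 7588 k).Prime :=
  range_of 7588 6075 7588 [0, 607, 23, 277, 7, 11, 7451, 17, 0, 38821, 647, 5, 17, 1301, 11, 11, 61, 181, 523, 0, 29, 47, 0, 0, 1847, 0, 5, 11, 0, 0, 17, 0, 157649, 59, 37, 113, 1571, 45677, 31, 179, 2389, 81463, 0, 1571, 21139, 84131, 17, 787, 3539, 1741, 1406521, 0, 59, 29, 11, 31, 211, 53, 11, 11, 11, 0, 0, 0, 439, 11321, 5, 0, 953, 179, 0, 11, 132589, 283, 31, 19, 113, 61, 29, 53, 23, 0, 43, 163, 234043, 19427, 5, 149, 89, 263, 31, 11, 11, 173, 37, 149, 0, 13, 11, 83, 241, 0, 0, 3539, 21157, 947, 1187, 101, 47, 23, 193, 89, 0, 0, 13, 281, 0, 23, 0, 331, 11, 211, 23, 4651, 5413, 37, 107441, 91397, 59, 43, 7, 5, 1741, 19,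 47, 0, 389, 11, 211, 83, 0, 167, 13590793, 0, 59, 0, 5, 145513, 31, 0, 13591, 7, 19, 0, 199, 136691, 0, 11, 79, 107, 0, 41, 43579, 107, 116329, 0, 109, 10709, 197, 19, 417203, 8887, 1549, 431, 173, 23, 1013, 0, 19, 0, 0, 11, 139, 31, 13781, 0, 5, 0, 13, 919, 599, 47, 43, 7, 3733, 0, 191, 0, 31, 0, 0, 587, 138191, 59, 313, 8623, 5, 173, 125207, 0, 0, 47, 0, 139, 39541, 17761, 131507, 173, 0, 353, 1013, 23, 19, 307, 0, 43, 4519, 0, 503, 1009, 0, 1223, 199, 197, 11, 0, 17, 276049, 192091, 347, 29, 23293, 37, 41, 1533283, 0, 47, 1733, 0, 137, 0, 5, 0, 0, 6793, 139, 7, 307, 107, 79, 29, 8101, 0, 7, 19, 0, 9839, 11, 11, 107, 0, 1667, 61, 0, 0, 53, 521, 293, 0, 11, 93179, 47, 0, 787, 17, 193, 0, 1291, 0, 0, 0, 11, 0, 283, 139, 193, 0, 251, 3251, 15361, 37, 0, 11, 1723, 107, 45757, 208511, 283, 0, 419, 37, 0, 197, 1889, 29, 149, 615821, 0, 8443, 3671, 59, 617, 0, 53, 19, 53, 5, 47, 311, 0, 331, 13, 12647, 7, 0, 17, 23, 0, 71, 23,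 7, 73, 0, 883, 53, 11, 401, 23, 83, 1109, 0, 86389, 17, 31, 4397, 613, 11, 31, 463, 23, 67, 317, 4007, 0, 0, 0, 2347, 73, 11, 761, 0, 5, 17, 11, 19, 23, 87671, 89, 383, 0, 0, 17, 0, 553139, 11, 41, 17, 43, 0, 7, 11, 157561, 0, 4243, 113, 41759, 31, 43, 53, 118589, 490891, 11, 53, 23, 47, 0, 293, 367, 0, 311, 853, 1429, 11, 0, 29, 131, 31, 0, 0, 26921, 17, 11, 499, 11, 7523, 4973, 5, 29, 108499, 53, 0, 1019, 17, 461, 29, 19, 103, 1543, 71353, 0, 1321, 6599, 83, 0, 157, 11, 4951, 0, 13, 47, 0, 419201, 0, 43801, 847493, 11, 0, 0, 6710729, 253853, 0, 13, 479, 242863, 71, 0, 11, 11, 0, 19, 24799, 797, 0, 19, 23, 0, 1109, 23, 1019, 1583, 691, 863, 67, 11, 236461, 0, 353, 103, 29, 11, 181, 883, 0, 211, 11, 19, 67, 0, 56731, 109, 11, 7, 2153, 149, 0, 11, 509, 107, 41, 197, 41, 11, 0, 29, 23, 79, 137, 0, 401, 509, 47, 29, 929, 227, 0, 1117, 19, 11, 15451, 7, 47807, 5, 0, 23, 7369, 101, 0, 157259, 37, 83, 20431, 743, 4447, 31, 0,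 167987, 5, 0, 0, 67, 0, 0, 0, 607, 11, 61, 271, 7, 373, 37, 1301219, 99707, 2239, 139, 137, 0, 5, 59, 0, 359147, 29, 40939, 59, 0, 31, 59, 11, 199, 79, 561347, 6133, 2963, 31, 20611, 281, 8647, 31, 0, 167633, 59, 443, 37171, 3907, 23741, 241, 47, 37, 379, 0, 0, 29, 157, 0, 2819, 137, 613, 5, 17, 317, 73, 0, 8429, 90203, 0, 0, 11, 281641, 401, 8941, 43, 53, 19, 251, 43, 17, 281641, 5, 19, 2243, 23, 9483893, 210229, 179, 73, 7, 0, 0, 11, 83, 57203, 53, 43, 179, 13, 17, 0, 29, 997, 11, 821, 0, 5, 14723, 11, 274213, 0, 0, 337, 7949, 29, 43, 0, 59, 37, 354953, 491, 174931, 41, 4723, 0, 43, 181, 19, 105071, 11, 29, 757, 131, 0, 0, 2383, 79, 383, 0, 23, 6967, 5, 317, 151, 0, 7673, 19, 17, 0, 983, 85889, 37139, 11, 23, 1747, 83, 199343, 187027, 21713, 0, 383, 23, 179, 467, 397, 0, 107, 239, 0, 0, 53, 1571833, 1489, 7, 11, 0, 0, 47, 61, 97, 7, 5, 173, 409, 743, 622331, 11, 1021, 71, 79, 58997, 79, 1873, 8779, 107, 19, 0, 11, 0, 29,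 47, 29, 0, 1171, 29, 1213, 7559, 223, 229, 37, 1609, 0, 59, 19, 0, 7, 0, 14251, 0, 0, 271, 277, 936007, 19, 0, 29, 47, 31, 11, 0, 107, 191, 73237, 107, 293, 17, 37, 0, 47, 43, 449, 5, 450881, 7, 4003, 0, 5, 59, 227, 389, 11, 11, 74761, 47, 5689, 0, 0, 11, 431, 67, 149, 17749, 29, 0, 7, 83, 0, 23, 285827, 677, 19, 23, 41, 859, 31, 991, 127979, 0, 7, 327511, 336577, 354257, 0, 0, 11, 11, 17, 0, 327247, 4657, 112799, 19, 43, 109, 137, 107, 11, 197, 919, 13009, 17, 53003, 27653, 293, 31, 419, 5, 0, 0, 0, 37, 43, 0, 101, 61, 8933, 227, 29, 0, 193, 257, 5, 1013, 19, 239, 17, 139, 53, 11, 17, 433, 0, 41, 241, 17, 515293, 21787, 37, 211, 11, 11, 179, 990923, 2287, 89, 11, 5, 31, 0, 11, 10753, 1181, 0, 0, 43, 0, 199, 0, 0, 397, 11, 5, 7, 0, 1567, 47, 41, 419, 523, 128971, 31, 17, 11, 71, 0, 19, 1277, 37, 499, 12611, 0, 5, 0, 1619, 1063, 19, 1427, 4483, 2099, 22877, 7, 67, 103651, 113, 0, 0, 571, 1723, 0, 0, 0, 31, 76543, 31, 223,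 0, 52919, 89, 503, 151, 274301, 661, 199, 0, 17, 11, 11, 139, 7, 0, 200371, 5, 0, 23, 1129, 79, 5, 1607, 0, 8311, 0, 17, 31, 463, 179, 71, 61, 11, 0, 7, 4337, 47, 577, 83, 0, 47, 23, 0, 331, 13, 0, 563, 0, 0, 3181, 0, 0, 32717, 8677, 11, 3083, 11, 29, 19, 43, 143501, 5, 7, 103, 23, 17, 81409, 0, 0, 23, 941, 0, 9697, 0, 103, 79, 5, 0, 0, 1381, 0, 0, 0, 7, 317, 31, 9199, 0, 1187, 19, 37, 89, 47, 3793, 349, 6803, 5, 73, 0, 23, 11, 47, 17, 61, 0, 11, 233, 0, 0, 2309, 23, 7, 467, 1933, 607, 29, 23, 0, 29, 15731, 23, 0, 11, 386549, 103, 1123, 547399, 0, 281, 773, 0, 11987, 19, 23, 283, 13, 0, 0, 139, 23, 719, 5, 23, 11, 0, 17, 0, 323957, 137, 691, 17, 31, 67, 523, 97, 877, 3911, 77239, 158449, 19, 9323, 14033, 103, 263, 61, 13, 0, 181, 23, 59, 673, 11, 174649, 83, 149, 140617, 61, 11, 349, 101, 31, 5, 0, 0, 488161, 397, 181, 0, 7, 19, 179, 0, 0, 4091, 1667, 7, 5, 71, 0, 0, 0, 17, 271, 109, 11, 47, 89, 157, 191, 7, 11, 883721,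 409, 0, 137, 15629, 5, 43, 43, 11, 580747, 17, 19, 7, 5807, 61, 449, 199, 97, 19, 23, 23, 5449, 0, 167, 197, 6203, 61, 37, 47, 215863, 0, 47, 0, 97, 2221, 543889, 263, 0, 2969, 0, 83, 0, 101, 0, 2657, 5, 47, 71, 0, 0, 5, 999763, 23, 0, 0, 773, 29, 0, 17, 5981, 0, 59, 31, 76757, 11, 229, 23, 0, 7, 319919, 3793, 61, 19, 823, 11, 11, 0, 463, 29, 151, 13, 0, 3467, 108377, 0, 1217, 15823, 41, 167, 0, 5, 19, 0, 0, 577, 53, 7, 349, 0, 727, 271, 19, 3389, 7, 0, 0, 13, 11, 0, 11, 5, 0, 19, 19, 6121, 23, 0, 103, 131, 1481, 11, 0, 31, 79, 0, 5, 0, 0, 83, 19, 0, 11, 13, 727, 5879, 1669, 3011, 97, 6907, 0, 0, 433, 1423, 17, 43, 0, 0, 613, 41, 3259, 19, 409, 7, 59, 601, 17, 0, 0, 3769, 401, 0, 37, 0, 17, 11, 74597, 569, 103, 19, 0, 0, 49891, 79, 11, 0, 0, 1151, 0, 0, 0, 23, 0, 0, 619, 11, 5, 11, 7, 937, 23, 5, 1987, 419, 127, 199, 0, 127, 0, 2879, 0, 23, 13, 257, 0, 2897, 0, 443, 23, 41, 47, 5, 17, 0, 11, 17, 0, 6203, 2699, 11, 0, 61,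 43, 0, 17, 311, 5, 0, 191, 17, 7, 29, 43, 89, 8443, 0, 211, 7, 0, 173, 0, 59, 11, 0, 233, 23, 5, 5399, 821, 827, 0, 7, 79, 0, 0, 653, 0, 0, 311, 89, 29, 3307, 157, 19, 19, 0, 71, 13, 0, 43, 0, 0, 0, 557, 67, 487, 113, 0, 557, 0, 3137, 5939, 61, 0, 787, 89, 5, 0, 887, 13, 31, 5, 0, 389, 0, 11, 11, 0, 29, 7393, 2237, 19, 13, 67, 97, 0, 5, 67, 0, 17, 0, 0, 7451, 191, 2789, 197, 47, 17, 3529, 929, 1433, 19, 67, 0, 11, 31, 5, 29, 7, 113, 11, 5, 61, 0, 0, 53, 131, 0, 0, 19, 37, 0, 83, 17, 0, 0, 5, 23, 17, 7, 0, 0, 0] _ (by decide +kernel) (by decide +kernel) fer_6075 (by decide +kernel)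

end Pool.Agent.H495.Sun.Z7588
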